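import Mathlib
import Pool.Agent.P.MP_23c5a6_pr.Defs

-- part Pool.Agent.P.MP_23c5a6_pr.Iter
section

namespace Pool.Agent.P.MP_23c5a6_pr

open Filter Topology

/-- neighbour sums on the half line -/
def yy (c : ℕ) (h : ℕ → ℝ) : ℕ → ℝ
  | 0 => (1 + c) + (2 - c) * h 1
  | n + 1 => h n + h (n + 1) + h (n + 2)

noncomputable def Phi (c d : ℕ) (h : ℕ → ℝ) (n : ℕ) : ℝ := (yy c h n / yy c h 0) ^ d

structure Inv (h : ℕ → ℝ) : Prop where
  h0 : h 0 = 1
  nn : ∀ n, 0 ≤ h n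
  h1 : h 1 ≤ 1
  half : ∀ n, 1 ≤ n → h (n + 1) ≤ h n / 2

noncomputable def orb (c d : ℕ) : ℕ → ℕ → ℝ
  | 0 => fun n => if n = 0 then 1 else 0
  | N + 1 => Phi c d (orb c d N)

variable {c d : ℕ} {h h' : ℕ → ℝ}

lemma yy_zero_ge (hc : c ≤ 1) (H : Inv h) : 1 ≤ yy c h 0 := by
  have := H.nn 1
  interval_cases c <;> simp [yy] <;> linarith

lemma yy_nn (hc : c ≤ 1) (H : Inv h) (n : ℕ) : 0 ≤ yy c h n := by
  cases n with
  | zero => linarith [yy_zero_ge hc H]
  | succ n => have := H.nn n; have := H.nn (n+1); have := H.nn (n+2); simp only [yy]; linarith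

lemma yy_half (H : Inv h) (n : ℕ) (hn : 2 ≤ n) : yy c h (n + 1) ≤ yy c h n / 2 := by
  obtain ⟨m, rfl⟩ : ∃ m, n = m + 1 := ⟨n - 1, by omega⟩
  have h1 := H.half m (by omega); have h2 := H.half (m+1) (by omega)
  have h3 := H.half (m+2) (by omega)
  simp only [yy]; linarith

lemma Inv.phi (hc : c ≤ 1) (hd : 2 ≤ d) (H : Inv h) : Inv (Phi c d h) := by
  have hy := yy_zero_ge hc H
  have hy0 : 0 < yy c h 0 := by linarith
  have key : ∀ (n : ℕ) (r : ℝ), 0 ≤ r → r ^ 2 ≤ 1 / 2 → yy c h (n + 1) ≤ r * yy c h n →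
      Phi c d h (n + 1) ≤ Phi c d h n / 2 := by
    intro n r hr hr2 hle
    have hr1 : r ≤ 1 := by nlinarith
    have : r ^ d ≤ 1 / 2 := (pow_le_pow_of_le_one hr hr1 hd).trans hr2
    have h1 : Phi c d h (n + 1) ≤ r ^ d * Phi c d h n := by
      unfold Phi
      rw [← mul_pow]
      apply pow_le_pow_left₀ (div_nonneg (yy_nn hc H _) hy0.le)
      rw [← mul_div_assoc]
      exact div_le_div_of_nonneg_right hle hy0.le
    have h2 : 0 ≤ Phi c d h n := pow_nonneg (div_nonneg (yy_nn hc H _) hy0.le) _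
    nlinarith
  refine ⟨?_, fun n => pow_nonneg (div_nonneg (yy_nn hc H _) hy0.le) _, ?_, ?_⟩
  · simp [Phi, hy0.ne']
  · apply pow_le_one₀ (div_nonneg (yy_nn hc H _) hy0.le)
    rw [div_le_one hy0]
    have h1 := H.half 1 le_rfl; have := H.nn 1; have := H.h1; have h0 := H.h0
    interval_cases c <;> simp only [yy] <;> push_cast <;> linarith
  · intro n hn
    rcases hn.eq_or_lt with rfl | hn
    · apply key 1 (7 / 10) (by norm_num) (by norm_num)
      have h1 := H.half 1 le_rfl; have := H.half 2 (by norm_num); have := H.h1; have h0 := H.h0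
      simp only [yy]; norm_num at *; linarith
    · apply key n (1 / 2) (by norm_num) (by norm_num)
      have := yy_half (c := c) H n hn; linarith

lemma inv_orb (hc : c ≤ 1) (hd : 2 ≤ d) (N : ℕ) : Inv (orb c d N) := by
  induction N with
  | zero =>
    refine ⟨by simp [orb], fun n => ?_, by simp [orb], fun n hn => ?_⟩
    · simp only [orb]; split_ifs <;> norm_num
    · have : n ≠ 0 := by omega
      simp [orb, this]
  | succ N ih => exact ih.phi hc hd

/-! ### Interval boxes -/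

structure InB (l1 u1 l2 u2 l3 u3 l4 u4 : ℝ) (h : ℕ → ℝ) : Prop where
  a1 : l1 ≤ h 1
  b1 : h 1 ≤ u1
  a2 : l2 ≤ h 2
  b2 : h 2 ≤ u2
  a3 : l3 ≤ h 3
  b3 : h 3 ≤ u3
  a4 : l4 ≤ h 4
  b4 : h 4 ≤ u4

structure Bx where
  l1 : ℕ
  u1 : ℕ
  l2 : ℕ
  u2 : ℕ
  l3 : ℕ
  u3 : ℕ
  l4 : ℕ
  u4 : ℕ

def SS : ℕ := 10 ^ 40

def Bx.Mem (B : Bx) (h : ℕ → ℝ) : Prop :=
  InB (B.l1 / SS) (B.u1 / SS) (B.l2 / SS) (B.u2 / SS) (B.l3 / SS) (B.u3 / SS) (B.l4 / SS)
    (B.u4 / SS) h

def lo (d n m : ℕ) : ℕ := n ^ d * SS / m ^ d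
def hi (d n m : ℕ) : ℕ := n ^ d * SS / m ^ d + 1

def Bx.step (c d : ℕ) (B : Bx) : Bx where
  l1 := if c = 0 then lo d (SS + B.u1 + B.l2) (SS + 2 * B.u1) else lo d (SS + B.l1 + B.l2) (2 * SS + B.l1)
  u1 := if c = 0 then hi d (SS + B.l1 + B.u2) (SS + 2 * B.l1) else hi d (SS + B.u1 + B.u2) (2 * SS + B.u1)
  l2 := lo d (B.l1 + B.l2 + B.l3) ((1 + c) * SS + (2 - c) * B.u1)
  u2 := hi d (B.u1 + B.u2 + B.u3) ((1 + c) * SS + (2 - c) * B.l1)
  l3 := lo d (B.l2 + B.l3 + B.l4) ((1 + c) * SS + (2 - c) * B.u1)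
  u3 := hi d (B.u2 + B.u3 + B.u4) ((1 + c) * SS + (2 - c) * B.l1)
  l4 := lo d (B.l3 + B.l4) ((1 + c) * SS + (2 - c) * B.u1)
  u4 := hi d (B.u3 + 2 * B.u4) ((1 + c) * SS + (2 - c) * B.l1)

def Bx.sub (B C : Bx) : Bool :=
  decide (C.l1 ≤ B.l1) && decide (B.u1 ≤ C.u1) && decide (C.l2 ≤ B.l2) && decide (B.u2 ≤ C.u2) &&
  decide (C.l3 ≤ B.l3) && decide (B.u3 ≤ C.u3) && decide (C.l4 ≤ B.l4) && decide (B.u4 ≤ C.u4)

def Bx.iter (c d : ℕ) : ℕ → Bx → Bx
  | 0, B => B
  | N + 1, B => Bx.iter c d N (B.step c d)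

lemma SS_pos : (0 : ℝ) < SS := by unfold SS; positivity

lemma lo_le {n m : ℕ} {y z : ℝ} (hm : 0 < m) (hz : 0 < z) (hle : n * z ≤ y * m) :
    (lo d n m : ℝ) / SS ≤ (y / z) ^ d := by
  have hm' : (0 : ℝ) < m := by exact_mod_cast hm
  rw [div_le_iff₀ SS_pos]
  have h1 : (lo d n m : ℝ) ≤ ((n : ℝ) / m) ^ d * SS := by
    refine Nat.cast_div_le.trans (le_of_eq ?_)
    push_cast; rw [div_pow]; ring
  refine h1.trans (mul_le_mul_of_nonneg_right ?_ SS_pos.le)
  apply pow_le_pow_left₀ (by positivity)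
  rw [div_le_div_iff₀ hm' hz]; exact hle

lemma le_hi {n m : ℕ} {y z : ℝ} (hm : 0 < m) (hz : 0 < z) (hy : 0 ≤ y) (hle : y * m ≤ n * z) :
    (y / z) ^ d ≤ (hi d n m : ℝ) / SS := by
  have hm' : (0 : ℝ) < m := by exact_mod_cast hm
  rw [le_div_iff₀ SS_pos]
  have h1 : ((n : ℝ) / m) ^ d * SS ≤ (hi d n m : ℝ) := by
    have h2 : n ^ d * SS < (n ^ d * SS / m ^ d + 1) * m ^ d := by
      have := Nat.lt_div_mul_add (a := n ^ d * SS) (pow_pos hm d)
      linarith
    have h3 : ((n : ℝ) ^ d * SS) ≤ (hi d n m : ℝ) * (m : ℝ) ^ d := by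
      unfold hi; exact_mod_cast h2.le
    rw [div_pow, div_mul_eq_mul_div, div_le_iff₀ (by positivity)]; exact h3
  refine le_trans (mul_le_mul_of_nonneg_right ?_ SS_pos.le) h1
  apply pow_le_pow_left₀ (by positivity)
  rw [div_le_div_iff₀ hz hm']; exact hle

lemma Bx.Mem.step (hc : c ≤ 1) {B : Bx} (H : Inv h) (hB : B.Mem h) :
    (B.step c d).Mem (Phi c d h) := by
  have hS := SS_pos
  have hSn : 0 < SS := by exact_mod_cast hS
  have hy := yy_zero_ge hc H
  have hy0 : 0 < yy c h 0 := by linarith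
  obtain ⟨a1, b1, a2, b2, a3, b3, a4, b4⟩ := hB
  rw [div_le_iff₀ hS] at a1 a2 a3 a4
  rw [le_div_iff₀ hS] at b1 b2 b3 b4
  have n1 := H.nn 1; have n2 := H.nn 2; have n3 := H.nn 3; have n4 := H.nn 4; have n5 := H.nn 5
  have h0 := H.h0; have k1 := H.h1; have k2 := H.half 1 le_rfl; have k5 := H.half 4 (by norm_num)
  norm_num at k2 k5
  have hyu : yy c h 0 * SS ≤ (((1 + c) * SS + (2 - c) * B.u1 : ℕ) : ℝ) := by
    interval_cases c <;> simp only [yy] <;> push_cast <;> nlinarith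
  have hyl : (((1 + c) * SS + (2 - c) * B.l1 : ℕ) : ℝ) ≤ yy c h 0 * SS := by
    interval_cases c <;> simp only [yy] <;> push_cast <;> nlinarith
  have hLo : ∀ (n : ℕ) (y : ℝ), 0 ≤ y → (n : ℝ) ≤ y * SS →
      (lo d n ((1 + c) * SS + (2 - c) * B.u1) : ℝ) / SS ≤ (y / yy c h 0) ^ d := by
    intro n y hy' hn
    apply lo_le (by positivity) hy0
    calc (n : ℝ) * yy c h 0 ≤ y * SS * yy c h 0 := by gcongr
      _ = y * (yy c h 0 * SS) := by ring
      _ ≤ _ := by gcongr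
  have hHi : ∀ (n : ℕ) (y : ℝ), 0 ≤ y → y * SS ≤ (n : ℝ) →
      (y / yy c h 0) ^ d ≤ (hi d n ((1 + c) * SS + (2 - c) * B.l1) : ℝ) / SS := by
    intro n y hy' hn
    apply le_hi (by positivity) hy0 hy'
    calc y * _ ≤ y * (yy c h 0 * SS) := by gcongr
      _ = y * SS * yy c h 0 := by ring
      _ ≤ _ := by gcongr
  refine ⟨?_, ?_, ?_, ?_, ?_, ?_, ?_, ?_⟩
  · interval_cases c
    · simp only [Bx.step, if_true]
      apply lo_le (by positivity) hy0
      simp only [yy, h0]; push_cast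
      have : (0 : ℝ) ≤ B.u1 - h 1 * SS := by linarith
      have h2 : (0 : ℝ) ≤ h 2 * SS - B.l2 := by linarith
      nlinarith [mul_nonneg this n2, mul_nonneg h2 n1]
    · simp only [Bx.step, one_ne_zero, if_false]
      apply lo_le (by positivity) hy0
      simp only [yy, h0]; push_cast
      have : (0 : ℝ) ≤ h 1 * SS - B.l1 := by linarith
      have h2 : (0 : ℝ) ≤ h 2 * SS - B.l2 := by linarith
      have h3 : 0 ≤ 1 - h 2 := by linarith
      nlinarith [mul_nonneg this h3, mul_nonneg h2 n1]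
  · interval_cases c
    · simp only [Bx.step, if_true]
      apply le_hi (by positivity) hy0 (yy_nn hc H 1)
      simp only [yy, h0]; push_cast
      have : (0 : ℝ) ≤ h 1 * SS - B.l1 := by linarith
      have h2 : (0 : ℝ) ≤ B.u2 - h 2 * SS := by linarith
      nlinarith [mul_nonneg this n2, mul_nonneg h2 n1]
    · simp only [Bx.step, one_ne_zero, if_false]
      apply le_hi (by positivity) hy0 (yy_nn le_rfl H 1)
      simp only [yy, h0]; push_cast
      have : (0 : ℝ) ≤ B.u1 - h 1 * SS := by linarith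
      have h2 : (0 : ℝ) ≤ B.u2 - h 2 * SS := by linarith
      have h3 : 0 ≤ 1 - h 2 := by linarith
      nlinarith [mul_nonneg this h3, mul_nonneg h2 n1]
  · apply hLo _ _ (yy_nn hc H 2); simp only [yy]; push_cast; linarith
  · apply hHi _ _ (yy_nn hc H 2); simp only [yy]; push_cast; linarith
  · apply hLo _ _ (yy_nn hc H 3); simp only [yy]; push_cast; linarith
  · apply hHi _ _ (yy_nn hc H 3); simp only [yy]; push_cast; linarith
  · apply hLo _ _ (yy_nn hc H 4); simp only [yy]; push_cast; nlinarith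
  · apply hHi _ _ (yy_nn hc H 4); simp only [yy]; push_cast; nlinarith

lemma Bx.Mem.sub {B C : Bx} (hB : B.Mem h) (hs : B.sub C = true) : C.Mem h := by
  simp only [Bx.sub, Bool.and_eq_true, decide_eq_true_eq] at hs
  obtain ⟨⟨⟨⟨⟨⟨⟨s1, s2⟩, s3⟩, s4⟩, s5⟩, s6⟩, s7⟩, s8⟩ := hs
  have hS := SS_pos
  have e : ∀ {a b : ℕ}, a ≤ b → (a : ℝ) / SS ≤ (b : ℝ) / SS := fun hab => by
    gcongr
  exact ⟨(e s1).trans hB.a1, hB.b1.trans (e s2), (e s3).trans hB.a2, hB.b2.trans (e s4),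
    (e s5).trans hB.a3, hB.b3.trans (e s6), (e s7).trans hB.a4, hB.b4.trans (e s8)⟩

lemma mem_iter (hc : c ≤ 1) (hd : 2 ≤ d) (N : ℕ) : ∀ (M : ℕ) (B : Bx), B.Mem (orb c d M) →
    (Bx.iter c d N B).Mem (orb c d (M + N)) := by
  induction N with
  | zero => intro M B hB; exact hB
  | succ N ih =>
    intro M B hB
    have := ih (M + 1) _ (hB.step (d := d) hc (inv_orb hc hd M))
    rw [show M + (N + 1) = M + 1 + N by ring]; exact this

lemma mem_eventually (hc : c ≤ 1) (hd : 2 ≤ d) {N0 : ℕ} {B : Bx}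
    (h1 : (Bx.iter c d N0 ⟨0, 0, 0, 0, 0, 0, 0, 0⟩).sub B = true) (h2 : (B.step c d).sub B = true)
    (N : ℕ) : B.Mem (orb c d (N0 + N)) := by
  induction N with
  | zero =>
    have := mem_iter hc hd N0 0 ⟨0, 0, 0, 0, 0, 0, 0, 0⟩ (by constructor <;> simp [orb])
    rw [zero_add] at this
    exact this.sub h1
  | succ N ih => exact (ih.step (d := d) hc (inv_orb hc hd _)).sub h2

end Pool.Agent.P.MP_23c5a6_pr
end

-- part Pool.Agent.P.MP_23c5a6_pr.Conv
section

namespace Pool.Agent.P.MP_23c5a6_pr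

open Filter Topology

variable {c d : ℕ} {h h' : ℕ → ℝ}

/-- distance bound with weights `1, w2, w3, w3, ...` -/
def Close (w2 w3 D : ℝ) (h h' : ℕ → ℝ) : Prop :=
  |h 1 - h' 1| ≤ D ∧ |h 2 - h' 2| ≤ D * w2 ∧ ∀ n, 3 ≤ n → |h n - h' n| ≤ D * w3

lemma pow_diff {a b r e : ℝ} (ha : 0 ≤ a) (hb : 0 ≤ b) (har : a ≤ r) (hbr : b ≤ r)
    (he : |a - b| ≤ e) : |a ^ d - b ^ d| ≤ d * r ^ (d - 1) * e := by
  have h1 := abs_pow_sub_pow_le (a := a) (b := b) (n := d)
  have h2 : max |a| |b| ≤ r := by rw [abs_of_nonneg ha, abs_of_nonneg hb]; exact max_le har hbr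
  have hr : 0 ≤ r := ha.trans har
  have he0 := (abs_nonneg _).trans he
  calc _ ≤ _ := h1
    _ ≤ e * d * r ^ (d - 1) := by gcongr
    _ = _ := by ring

lemma ratio_diff {y z y' z' yb zl e1 e0 : ℝ} (hzl : 0 < zl) (hz : zl ≤ z) (hz' : zl ≤ z')
    (hy' : 0 ≤ y') (hyb : y' ≤ yb) (h1 : |y - y'| ≤ e1) (h0 : |z - z'| ≤ e0) :
    |y / z - y' / z'| ≤ e1 / zl + yb * e0 / zl ^ 2 := by
  have hz0 : 0 < z := by linarith
  have hz0' : 0 < z' := by linarith
  have e : y / z - y' / z' = (y - y') / z + y' * (z' - z) / (z * z') := by field_simp; ring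
  rw [e]
  refine (abs_add_le _ _).trans (add_le_add ?_ ?_)
  · rw [abs_div, abs_of_pos hz0]; gcongr; exact (abs_nonneg _).trans h1
  · rw [abs_div, abs_mul, abs_of_pos (mul_pos hz0 hz0'), abs_of_nonneg hy', abs_sub_comm, sq]
    have := (abs_nonneg _).trans h0
    have := hy'.trans hyb
    gcongr

structure ContrCert (c d : ℕ) (l1 u1 u2 u3 u4 w2 w3 κ : ℝ) : Prop where
  l1nn : 0 ≤ l1
  w2p : 0 < w2
  w3p : 0 < w3
  k0 : 0 ≤ κ
  k1 : κ < 1
  c1 : d * ((1 + u1 + u2) / (1 + c + (2 - c) * l1)) ^ (d - 1) *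
    ((1 + 2 * u2) / (1 + c + (2 - c) * l1) ^ 2 + w2 / (1 + c + (2 - c) * l1)) ≤ κ
  c2 : d * ((u1 + u2 + u3) / (1 + c + (2 - c) * l1)) ^ (d - 1) *
    ((1 + w2 + w3) / (1 + c + (2 - c) * l1) + (u1 + u2 + u3) * 2 / (1 + c + (2 - c) * l1) ^ 2)
      ≤ κ * w2
  c3 : d * ((u2 + u3 + u4) / (1 + c + (2 - c) * l1)) ^ (d - 1) *
    ((w2 + 3 * w3) / (1 + c + (2 - c) * l1) + (u2 + u3 + u4) * 2 / (1 + c + (2 - c) * l1) ^ 2)
      ≤ κ * w3

lemma yy_le_three (H : Inv h) (hc : c ≤ 1) (n : ℕ) (hn : 3 ≤ n) : yy c h n ≤ yy c h 3 := by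
  induction n, hn using Nat.le_induction with
  | base => exact le_rfl
  | succ n hn ih =>
    have := yy_half (c := c) H n (by omega); have := yy_nn hc H n; linarith

lemma Close.contr (hc : c ≤ 1) {l1 u1 l2 u2 l3 u3 l4 u4 w2 w3 κ D : ℝ}
    (C : ContrCert c d l1 u1 u2 u3 u4 w2 w3 κ) (H : Inv h) (H' : Inv h')
    (B : InB l1 u1 l2 u2 l3 u3 l4 u4 h) (B' : InB l1 u1 l2 u2 l3 u3 l4 u4 h')
    (hD : Close w2 w3 D h h') : Close w2 w3 (κ * D) (Phi c d h) (Phi c d h') := by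
  obtain ⟨d1, d2, d3⟩ := hD
  have hD0 : 0 ≤ D := (abs_nonneg _).trans d1
  set zl : ℝ := 1 + c + (2 - c) * l1 with hzl
  have hc2 : (0 : ℝ) ≤ 2 - c := by
    have : (c : ℝ) ≤ 1 := by exact_mod_cast hc
    linarith
  have hc0 : (0 : ℝ) ≤ c := Nat.cast_nonneg c
  have hzl0 : 0 < zl := by have := C.l1nn; positivity
  have hz : ∀ {g : ℕ → ℝ}, l1 ≤ g 1 → zl ≤ yy c g 0 := fun hg => by
    simp only [yy, hzl]; gcongr
  have hz1 := hz B.a1
  have hz2 := hz B'.a1
  have h0 : |yy c h 0 - yy c h' 0| ≤ 2 * D := by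
    have : yy c h 0 - yy c h' 0 = (2 - c) * (h 1 - h' 1) := by simp only [yy]; ring
    rw [this, abs_mul, abs_of_nonneg hc2]
    gcongr; linarith
  have hρ : ∀ {g : ℕ → ℝ} (n : ℕ) (yb : ℝ), Inv g → zl ≤ yy c g 0 → yy c g n ≤ yb →
      0 ≤ yy c g n / yy c g 0 ∧ yy c g n / yy c g 0 ≤ yb / zl := by
    intro g n yb G hg hyb
    have := yy_nn hc G n
    exact ⟨div_nonneg this (by linarith), by gcongr; linarith⟩
  have gen : ∀ (n : ℕ) (yb e : ℝ), yy c h n ≤ yb → yy c h' n ≤ yb →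
      |yy c h n / yy c h 0 - yy c h' n / yy c h' 0| ≤ e * D →
      |Phi c d h n - Phi c d h' n| ≤ (d * (yb / zl) ^ (d - 1) * e) * D := by
    intro n yb e h1 h2 h3
    have := pow_diff (d := d) (hρ n yb H hz1 h1).1 (hρ n yb H' hz2 h2).1 (hρ n yb H hz1 h1).2
      (hρ n yb H' hz2 h2).2 h3
    rw [mul_assoc _ e D]; exact this
  have y3 : ∀ {g : ℕ → ℝ}, Inv g → InB l1 u1 l2 u2 l3 u3 l4 u4 g → ∀ n, 3 ≤ n →
      yy c g n ≤ u2 + u3 + u4 := by
    intro g G Bg n hn
    refine (yy_le_three G hc n hn).trans ?_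
    have := Bg.b2; have := Bg.b3; have := Bg.b4
    simp only [yy]; norm_num; linarith
  refine ⟨?_, ?_, fun n hn => ?_⟩
  · refine (gen 1 (1 + u1 + u2) ((1 + 2 * u2) / zl ^ 2 + w2 / zl) ?_ ?_ ?_).trans
      (mul_le_mul_of_nonneg_right C.c1 hD0)
    · have := B.b1; have := B.b2; simp only [yy, H.h0]; norm_num; linarith
    · have := B'.b1; have := B'.b2; simp only [yy, H'.h0]; norm_num; linarith
    · have hy0 : 0 < yy c h 0 := by linarith
      have hy0' : 0 < yy c h' 0 := by linarith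
      have e : yy c h 1 / yy c h 0 - yy c h' 1 / yy c h' 0 =
          (h 1 - h' 1) * (1 + c - (2 - c) - (2 - c) * h' 2) / (yy c h 0 * yy c h' 0)
            + (h 2 - h' 2) / yy c h 0 := by
        field_simp
        simp only [yy, H.h0, H'.h0]; norm_num; ring
      rw [e]
      have hb : |1 + c - (2 - c) - (2 - c) * h' 2| ≤ 1 + 2 * u2 := by
        have := B'.b2; have := H'.nn 2
        rw [abs_le]
        interval_cases c <;> push_cast <;> constructor <;> linarith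
      refine (abs_add_le _ _).trans ?_
      rw [add_mul]
      refine add_le_add ?_ ?_
      · rw [abs_div, abs_mul, abs_of_pos (mul_pos hy0 hy0'), div_mul_eq_mul_div, mul_comm _ D, sq]
        have := (abs_nonneg _).trans hb
        gcongr
      · rw [abs_div, abs_of_pos hy0, div_mul_eq_mul_div, mul_comm _ D]
        have := C.w2p
        gcongr
  · have := gen 2 (u1 + u2 + u3) ((1 + w2 + w3) / zl + (u1 + u2 + u3) * 2 / zl ^ 2) ?_ ?_ ?_
    · refine this.trans ?_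
      have := mul_le_mul_of_nonneg_right C.c2 hD0
      linarith
    · have := B.b1; have := B.b2; have := B.b3; simp only [yy]; norm_num; linarith
    · have := B'.b1; have := B'.b2; have := B'.b3; simp only [yy]; norm_num; linarith
    · have hyb : yy c h' 2 ≤ u1 + u2 + u3 := by
        have := B'.b1; have := B'.b2; have := B'.b3; simp only [yy]; norm_num; linarith
      have h1 : |yy c h 2 - yy c h' 2| ≤ (1 + w2 + w3) * D := by
        have := d3 3 le_rfl
        rw [abs_le] at *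
        simp only [yy]; norm_num; constructor <;> linarith [d1.1, d1.2, d2.1, d2.2, this.1, this.2]
      refine (ratio_diff hzl0 hz1 hz2 (yy_nn hc H' 2) hyb h1 h0).trans (le_of_eq ?_)
      ring
  · have := gen n (u2 + u3 + u4) ((w2 + 3 * w3) / zl + (u2 + u3 + u4) * 2 / zl ^ 2)
      (y3 H B n hn) (y3 H' B' n hn) ?_
    · refine this.trans ?_
      have := mul_le_mul_of_nonneg_right C.c3 hD0
      linarith
    · have h1 : |yy c h n - yy c h' n| ≤ (w2 + 3 * w3) * D := by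
        obtain ⟨m, rfl⟩ : ∃ m, n = m + 1 := ⟨n - 1, by omega⟩
        have e1 := d3 (m + 1) (by omega)
        have e2 := d3 (m + 2) (by omega)
        have hw2 := mul_nonneg hD0 C.w2p.le
        have hw3 := mul_nonneg hD0 C.w3p.le
        have e0 : |h m - h' m| ≤ D * w2 + D * w3 := by
          rcases (show m = 2 ∨ 3 ≤ m by omega) with rfl | hm
          · linarith
          · linarith [d3 m hm]
        rw [abs_le] at *
        simp only [yy]; constructor <;> linarith [e0.1, e0.2, e1.1, e1.2, e2.1, e2.2]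
      refine (ratio_diff hzl0 hz1 hz2 (yy_nn hc H' n) (y3 H' B' n hn) h1 h0).trans (le_of_eq ?_)
      ring

lemma Inv.le_one (H : Inv h) (n : ℕ) : h n ≤ 1 := by
  rcases Nat.eq_zero_or_pos n with rfl | hn
  · exact H.h0.le
  · induction n, hn using Nat.le_induction with
    | base => exact H.h1
    | succ n hn ih => have := H.half n hn; have := H.nn n; linarith

structure IsFix (c d : ℕ) (h : ℕ → ℝ) : Prop where
  inv : Inv h
  lim : ∀ n, Tendsto (fun N => orb c d N n) atTop (𝓝 (h n))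
  fix : ∀ n, h n = (yy c h n / yy c h 0) ^ d

theorem exists_fix (hc : c ≤ 1) (hd : 2 ≤ d) {l1 u1 l2 u2 l3 u3 l4 u4 w2 w3 κ : ℝ}
    (C : ContrCert c d l1 u1 u2 u3 u4 w2 w3 κ) {N0 : ℕ}
    (hB : ∀ N, InB l1 u1 l2 u2 l3 u3 l4 u4 (orb c d (N0 + N))) :
    ∃ h, IsFix c d h ∧ InB l1 u1 l2 u2 l3 u3 l4 u4 h := by
  set D0 : ℝ := 1 + 1 / w2 + 1 / w3 with hD0
  have hw2 := C.w2p
  have hw3 := C.w3p
  have hcl : ∀ N, Close w2 w3 (κ ^ N * D0) (orb c d (N0 + N)) (orb c d (N0 + N + 1)) := by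
    intro N
    induction N with
    | zero =>
      have hb : ∀ n, |orb c d N0 n - orb c d (N0 + 1) n| ≤ 1 := by
        intro n
        have I1 := inv_orb hc hd N0
        have I2 := inv_orb hc hd (N0 + 1)
        have := I1.nn n; have := I1.le_one n; have := I2.nn n; have := I2.le_one n
        rw [abs_le]; constructor <;> linarith
      have p2 : 0 < 1 / w2 := by positivity
      have p3 : 0 < 1 / w3 := by positivity
      have q2 : 1 ≤ D0 * w2 := by
        have : D0 * w2 = 1 + (1 + 1 / w3) * w2 := by rw [hD0]; field_simp; ring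
        rw [this]; have : 0 ≤ (1 + 1 / w3) * w2 := by positivity
        linarith
      have q3 : 1 ≤ D0 * w3 := by
        have : D0 * w3 = 1 + (1 + 1 / w2) * w3 := by rw [hD0]; field_simp; ring
        rw [this]; have : 0 ≤ (1 + 1 / w2) * w3 := by positivity
        linarith
      simp only [pow_zero, one_mul, add_zero]
      exact ⟨(hb 1).trans (by linarith), (hb 2).trans q2, fun n _ => (hb n).trans q3⟩
    | succ N ih =>
      have := ih.contr (d := d) hc C (inv_orb hc hd _) (inv_orb hc hd _) (hB N) (hB (N + 1))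
      rw [show κ ^ (N + 1) * D0 = κ * (κ ^ N * D0) by ring]
      exact this
  have hcau : ∀ n, CauchySeq (fun N => orb c d (N0 + N) n) := by
    intro n
    apply cauchySeq_of_le_geometric κ (D0 * (1 + w2 + w3)) C.k1
    intro N
    obtain ⟨e1, e2, e3⟩ := hcl N
    have hk : 0 ≤ κ ^ N * D0 := (abs_nonneg _).trans e1
    have f2 := mul_nonneg hk hw2.le
    have f3 := mul_nonneg hk hw3.le
    rw [Real.dist_eq, show D0 * (1 + w2 + w3) * κ ^ N =
      κ ^ N * D0 + κ ^ N * D0 * w2 + κ ^ N * D0 * w3 by ring]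
    rcases (show n = 0 ∨ n = 1 ∨ n = 2 ∨ 3 ≤ n by omega) with rfl | rfl | rfl | hn
    · rw [(inv_orb hc hd _).h0, (inv_orb hc hd _).h0]; simp; linarith
    · exact e1.trans (by linarith)
    · exact e2.trans (by linarith)
    · exact (e3 n hn).trans (by linarith)
  choose g hg using fun n => cauchySeq_tendsto_of_complete (hcau n)
  have hlim : ∀ n, Tendsto (fun N => orb c d N n) atTop (𝓝 (g n)) := by
    intro n
    rw [← tendsto_add_atTop_iff_nat N0]
    simpa [add_comm] using hg n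
  have hI : Inv g := by
    refine ⟨?_, fun n => ge_of_tendsto' (hlim n) fun N => (inv_orb hc hd N).nn n,
      le_of_tendsto' (hlim 1) fun N => (inv_orb hc hd N).h1, fun n hn => ?_⟩
    · refine tendsto_nhds_unique (hlim 0) ?_
      simp only [(inv_orb hc hd _).h0]; exact tendsto_const_nhds
    · exact le_of_tendsto_of_tendsto' (hlim (n + 1)) ((hlim n).div_const 2)
        fun N => (inv_orb hc hd N).half n hn
  have hy : ∀ n, Tendsto (fun N => yy c (orb c d N) n) atTop (𝓝 (yy c g n)) := by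
    intro n
    cases n with
    | zero => exact ((hlim 1).const_mul _).const_add _
    | succ n => exact ((hlim n).add (hlim (n + 1))).add (hlim (n + 2))
  refine ⟨g, ⟨hI, hlim, fun n => ?_⟩, ?_⟩
  · refine tendsto_nhds_unique ((tendsto_add_atTop_iff_nat 1).2 (hlim n)) ?_
    have := yy_zero_ge hc hI
    exact ((hy n).div (hy 0) (by linarith)).pow d
  · exact ⟨ge_of_tendsto' (hg 1) fun N => (hB N).a1, le_of_tendsto' (hg 1) fun N => (hB N).b1,
      ge_of_tendsto' (hg 2) fun N => (hB N).a2, le_of_tendsto' (hg 2) fun N => (hB N).b2,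
      ge_of_tendsto' (hg 3) fun N => (hB N).a3, le_of_tendsto' (hg 3) fun N => (hB N).b3,
      ge_of_tendsto' (hg 4) fun N => (hB N).a4, le_of_tendsto' (hg 4) fun N => (hB N).b4⟩

end Pool.Agent.P.MP_23c5a6_pr
end

-- part Pool.Agent.P.MP_23c5a6_pr.Mom
section

namespace Pool.Agent.P.MP_23c5a6_pr

open Finset

lemma cs_plain {F G : Finset ℕ} (hG : G ⊆ F) {q P v : ℕ → ℝ} (hq : ∀ i, 0 < q i) :
    (∑ i ∈ G, P i * v i) ^ 2 ≤ (∑ i ∈ G, P i ^ 2 / q i) * ∑ i ∈ F, q i * v i ^ 2 := by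
  have h1 : (∑ i ∈ G, P i * v i) ^ 2 ≤ (∑ i ∈ G, P i ^ 2 / q i) * ∑ i ∈ G, q i * v i ^ 2 := by
    apply sum_sq_le_sum_mul_sum_of_sq_le_mul
    · intro i _; have := hq i; positivity
    · intro i _; have := hq i; positivity
    · intro i _; have := hq i; apply le_of_eq; field_simp
  refine h1.trans (mul_le_mul_of_nonneg_left ?_ ?_)
  · apply sum_le_sum_of_subset_of_nonneg hG
    intro i _ _; have := hq i; positivity
  · apply sum_nonneg; intro i _; have := hq i; positivity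

lemma cs_cent {F G : Finset ℕ} (hG : G ⊆ F) {q P v : ℕ → ℝ} (hq : ∀ i, 0 < q i)
    (hQ : ∑ i ∈ F, q i ≤ 1) (hP : ∑ i ∈ G, P i = 1) {m : ℝ} (hm : m = ∑ i ∈ F, q i * v i) :
    (∑ i ∈ G, P i * v i - m) ^ 2 ≤
      (∑ i ∈ G, P i ^ 2 / q i - 1) * (∑ i ∈ F, q i * v i ^ 2 - m ^ 2) := by
  classical
  set f : ℕ → ℝ := fun i => if i ∈ G then P i / q i else 0 with hf
  have key : ∀ g : ℕ → ℝ, ∑ i ∈ F, q i * f i * g i = ∑ i ∈ G, P i * g i := by
    intro g
    rw [← sum_subset hG (f := fun i => q i * f i * g i) (fun i _ hi => by simp [hf, hi])]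
    refine sum_congr rfl fun i hi => ?_
    have := hq i
    simp only [hf, hi, if_true]; field_simp
  have k1 := key v
  have k2 := key (fun _ => 1)
  have k3 : ∑ i ∈ F, q i * f i * f i = ∑ i ∈ G, P i ^ 2 / q i := by
    rw [key f]; refine sum_congr rfl fun i hi => ?_
    simp only [hf, hi, if_true]; ring
  simp only [mul_one] at k2
  have hdis : ∀ l : ℝ, 0 ≤ (∑ i ∈ G, P i ^ 2 / q i - 1) * (l * l) +
      (-2 * (∑ i ∈ G, P i * v i - m)) * l + (∑ i ∈ F, q i * v i ^ 2 - m ^ 2) := by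
    intro l
    have h0 : 0 ≤ ∑ i ∈ F, q i * (v i - (m - l) - l * f i) ^ 2 :=
      sum_nonneg fun i _ => by have := hq i; positivity
    have h1 : ∑ i ∈ F, q i * (v i - (m - l) - l * f i) ^ 2 =
        ∑ i ∈ F, q i * v i ^ 2 - 2 * (m - l) * ∑ i ∈ F, q i * v i
          - 2 * l * ∑ i ∈ F, q i * f i * v i + (m - l) ^ 2 * ∑ i ∈ F, q i
          + 2 * (m - l) * l * ∑ i ∈ F, q i * f i + l ^ 2 * ∑ i ∈ F, q i * f i * f i := by
      simp only [mul_sum, ← sum_add_distrib, ← sum_sub_distrib]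
      exact sum_congr rfl fun i _ => by ring
    rw [h1, k1, k2, k3, hP, ← hm] at h0
    have h2 := mul_le_mul_of_nonneg_left hQ (sq_nonneg (m - l))
    nlinarith
  have := discrim_le_zero hdis
  unfold discrim at this
  nlinarith

lemma pow_le_sq_mul {t u : ℝ} (h : |t| ≤ u) {k : ℕ} (hk : 2 ≤ k) : t ^ k ≤ t ^ 2 * u ^ (k - 2) := by
  obtain ⟨j, rfl⟩ : ∃ j, k = 2 + j := ⟨k - 2, by omega⟩
  rw [pow_add, Nat.add_sub_cancel_left]
  refine mul_le_mul_of_nonneg_left ((le_abs_self _).trans ?_) (sq_nonneg _)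
  rw [abs_pow]; gcongr

structure PD where
  p : ℝ
  E : ℝ
  O : ℝ
  k : ℝ
  G : ℝ

structure PD.Ok (D : PD) : Prop where
  E0 : 0 ≤ D.E
  O0 : 0 ≤ D.O
  k0 : 0 ≤ D.k
  kk : D.E ^ 2 + D.O ^ 2 ≤ D.k ^ 2
  GE : D.E ^ 2 ≤ D.G
  GO : D.O ^ 2 ≤ D.G

def PD.m2 (D : PD) (α β : ℝ) : ℝ := 2 * D.p * (D.E ^ 2 * α ^ 2 + D.O ^ 2 * β ^ 2)
def PD.m3 (D : PD) (α β : ℝ) : ℝ := D.p * (2 * D.E ^ 3 * α ^ 3 + 6 * D.E * D.O ^ 2 * (α * β ^ 2))
def PD.m4 (D : PD) (α β : ℝ) : ℝ :=
  2 * D.p * (D.E ^ 4 * α ^ 4 + 6 * D.E ^ 2 * D.O ^ 2 * (α ^ 2 * β ^ 2) + D.O ^ 4 * β ^ 4)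
def PD.mk' (D : PD) (k : ℕ) : ℝ := 2 * D.p * D.G * D.k ^ (k - 2)

lemma PD.bounds {D : PD} (hD : D.Ok) {w t t' α β s : ℝ} (hw : 0 ≤ w) (hp : w ≤ D.p)
    (hα : 0 ≤ α) (hβ : 0 ≤ β) (hs : 0 ≤ s) (hss : s ^ 2 = α ^ 2 + β ^ 2)
    (he : ((t + t') / 2) ^ 2 ≤ D.E ^ 2 * α ^ 2) (ho : ((t - t') / 2) ^ 2 ≤ D.O ^ 2 * β ^ 2) :
    w * (t ^ 2 + t' ^ 2) ≤ D.m2 α β ∧ w * (t ^ 3 + t' ^ 3) ≤ D.m3 α β ∧
    w * (t ^ 4 + t' ^ 4) ≤ D.m4 α β ∧ ∀ k, 2 ≤ k → w * (t ^ k + t' ^ k) ≤ D.mk' k * s ^ k := by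
  obtain ⟨E0, O0, k0, kk, GE, GO⟩ := hD
  set e := (t + t') / 2 with hee
  set o := (t - t') / 2 with hoo
  have ht : t = e + o := by rw [hee, hoo]; ring
  have ht' : t' = e - o := by rw [hee, hoo]; ring
  have he' : |e| ≤ D.E * α := abs_le_of_sq_le_sq' (by rw [mul_pow]; exact he) (by positivity) |>
    abs_le.2
  have ho' : |o| ≤ D.O * β := abs_le_of_sq_le_sq' (by rw [mul_pow]; exact ho) (by positivity) |>
    abs_le.2
  have hp0 : 0 ≤ D.p := hw.trans hp
  have fin : ∀ {A B : ℝ}, A ≤ B → 0 ≤ B → w * A ≤ D.p * B := fun hAB hB =>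
    (mul_le_mul_of_nonneg_left hAB hw).trans (mul_le_mul_of_nonneg_right hp hB)
  have h2 : t ^ 2 + t' ^ 2 ≤ 2 * (D.E ^ 2 * α ^ 2 + D.O ^ 2 * β ^ 2) := by
    rw [ht, ht']; nlinarith
  refine ⟨?_, ?_, ?_, fun k hk => ?_⟩
  · refine (fin h2 (by positivity)).trans (le_of_eq ?_); unfold PD.m2; ring
  · apply fin _ (by positivity)
    have e1 : t ^ 3 + t' ^ 3 = 2 * e ^ 3 + 6 * (e * o ^ 2) := by rw [ht, ht']; ring
    have e2 : e ^ 3 ≤ (D.E * α) ^ 3 :=
      (le_abs_self _).trans (by rw [abs_pow]; gcongr)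
    have e3 : e * o ^ 2 ≤ (D.E * α) * (D.O ^ 2 * β ^ 2) :=
      (mul_le_mul_of_nonneg_right ((le_abs_self _).trans he') (sq_nonneg _)).trans (by gcongr)
    rw [e1]; nlinarith
  · have e1 : t ^ 4 + t' ^ 4 = 2 * ((e ^ 2) ^ 2 + 6 * (e ^ 2 * o ^ 2) + (o ^ 2) ^ 2) := by
      rw [ht, ht']; ring
    have e2 : t ^ 4 + t' ^ 4 ≤ 2 * ((D.E ^ 2 * α ^ 2) ^ 2 +
        6 * ((D.E ^ 2 * α ^ 2) * (D.O ^ 2 * β ^ 2)) + (D.O ^ 2 * β ^ 2) ^ 2) := by
      rw [e1]; gcongr
    refine (fin e2 (by positivity)).trans (le_of_eq ?_); unfold PD.m4; ring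
  · have hu : D.E * α + D.O * β ≤ D.k * s := by
      apply le_of_sq_le_sq _ (by positivity)
      calc (D.E * α + D.O * β) ^ 2 ≤ (D.E ^ 2 + D.O ^ 2) * s ^ 2 := by
            rw [hss]; nlinarith [sq_nonneg (D.E * β - D.O * α)]
        _ ≤ D.k ^ 2 * s ^ 2 := by gcongr
        _ = _ := by ring
    have a1 : |t| ≤ D.k * s := by rw [ht]; linarith [abs_add_le e o]
    have a2 : |t'| ≤ D.k * s := by rw [ht']; linarith [abs_sub e o]
    have b1 := pow_le_sq_mul a1 hk
    have b2 := pow_le_sq_mul a2 hk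
    have hG : 0 ≤ D.G := (sq_nonneg _).trans GE
    have h3 : t ^ 2 + t' ^ 2 ≤ 2 * D.G * s ^ 2 := by
      have := mul_le_mul_of_nonneg_right GE (sq_nonneg α)
      have := mul_le_mul_of_nonneg_right GO (sq_nonneg β)
      rw [hss]; linarith
    have h4 : t ^ k + t' ^ k ≤ 2 * D.G * s ^ 2 * (D.k * s) ^ (k - 2) := by
      have := mul_le_mul_of_nonneg_right h3 (show 0 ≤ (D.k * s) ^ (k - 2) by positivity)
      linarith
    refine (fin h4 (by positivity)).trans (le_of_eq ?_)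
    obtain ⟨j, rfl⟩ : ∃ j, k = 2 + j := ⟨k - 2, by omega⟩
    unfold PD.mk'; rw [Nat.add_sub_cancel_left]; ring

noncomputable def om (c : ℕ) : ℕ → ℝ
  | 0 => (1 + c) / 2
  | _ + 1 => 1

noncomputable def qq (c : ℕ) (h : ℕ → ℝ) (Z : ℝ) (n : ℕ) : ℝ := 2 * om c n * (h n * yy c h n) / Z

noncomputable def PA (c : ℕ) (h a b : ℕ → ℝ) : ℕ → ℝ
  | 0 => (c * b 0 + (1 - c) * h 1 * b 1 + a 0 + h 1 * a 1) / yy c h 0
  | n + 1 => (h n * a n + h (n + 1) * a (n + 1) + h (n + 2) * a (n + 2)) / yy c h (n + 1)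

structure TailOk (c d : ℕ) (h : ℕ → ℝ) (Z θ θ' C τ : ℝ) : Prop where
  t0 : 0 < θ
  t0' : 0 < θ'
  tau0 : 0 < τ
  ex : ∀ n, 2 ≤ n → ∃ X K, τ ≤ X ∧
    Z / yy c h (n + 1) ^ 2 * (h n / yy c h n + h (n + 1) / yy c h (n + 1) +
      h (n + 2) / yy c h (n + 2)) ≤ X ^ 2 ∧
    Z / yy c h (n + 1) ^ 2 * (h n / yy c h n + h (n + 1) / yy c h (n + 1) / θ +
      h (n + 2) / yy c h (n + 2) / θ') ≤ K ∧
    qq c h Z (n + 1) / 2 * X ^ (2 * d - 2) * K * (1 + θ + θ') ≤ C

lemma three_cs {p1 p2 p3 w1 w2 w3 r1 r2 r3 : ℝ} (h1 : 0 < r1) (h2 : 0 < r2) (h3 : 0 < r3) :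
    (p1 * w1 + p2 * w2 + p3 * w3) ^ 2 ≤
      (p1 ^ 2 / r1 + p2 ^ 2 / r2 + p3 ^ 2 / r3) * (r1 * w1 ^ 2 + r2 * w2 ^ 2 + r3 * w3 ^ 2) := by
  have := cs_plain (F := range 3) (G := range 3) subset_rfl
    (q := fun i => if i = 0 then r1 else if i = 1 then r2 else r3)
    (P := fun i => if i = 0 then p1 else if i = 1 then p2 else p3)
    (v := fun i => if i = 0 then w1 else if i = 1 then w2 else w3)
    (fun i => by split_ifs <;> assumption)
  simpa [sum_range_succ] using this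

lemma shift_le {g : ℕ → ℝ} (hg : ∀ n, 0 ≤ g n) (L r : ℕ) (hr : r ≤ 4) :
    ∑ j ∈ range L, g (r + j) ≤ ∑ k ∈ range (L + 4), g k := by
  have h1 : ∑ j ∈ range L, g (r + j) ≤ ∑ k ∈ range (r + L), g k := by
    rw [sum_range_add]
    have : 0 ≤ ∑ x ∈ range r, g x := sum_nonneg fun i _ => hg i
    linarith
  exact h1.trans (sum_le_sum_of_subset_of_nonneg (range_mono (by omega)) fun i _ _ => hg i)

variable {c d : ℕ} {h : ℕ → ℝ} {Z : ℝ}

lemma qq_pos (hp : ∀ n, 0 < h n) (hy : ∀ n, 0 < yy c h n) (hZ : 0 < Z) (n : ℕ) :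
    0 < qq c h Z n := by
  have := hp n; have := hy n
  have : 0 < om c n := by cases n <;> simp only [om] <;> positivity
  unfold qq; positivity

lemma tail_one {θ θ' C τ : ℝ} (T : TailOk c d h Z θ θ' C τ) (hp : ∀ n, 0 < h n)
    (hy : ∀ n, 0 < yy c h n) (hZ : 0 < Z) (a b : ℕ → ℝ) (m s : ℝ) (hs : 0 ≤ s) (n : ℕ) (hn : 2 ≤ n)
    (hE : qq c h Z n / 2 * (a n - m) ^ 2 + qq c h Z (n + 1) / 2 * (a (n + 1) - m) ^ 2 +
      qq c h Z (n + 2) / 2 * (a (n + 2) - m) ^ 2 ≤ s ^ 2) {k : ℕ} (hk : 2 ≤ k) (hkd : k ≤ 2 * d) :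
    qq c h Z (n + 1) / 2 * (PA c h a b (n + 1) - m) ^ k ≤
      C / τ ^ (2 * d - k) / (1 + θ + θ') * s ^ (k - 2) *
        (qq c h Z n / 2 * (a n - m) ^ 2 + θ * (qq c h Z (n + 1) / 2 * (a (n + 1) - m) ^ 2) +
          θ' * (qq c h Z (n + 2) / 2 * (a (n + 2) - m) ^ 2)) := by
  obtain ⟨X, K, hX, h1, h2, h3⟩ := T.ex n hn
  have t0 := T.t0; have t0' := T.t0'; have tau0 := T.tau0
  obtain ⟨n, rfl⟩ : ∃ j, n = j + 1 := ⟨n - 1, by omega⟩
  have q1 := qq_pos hp hy hZ (n + 1)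
  have q2 := qq_pos hp hy hZ (n + 1 + 1)
  have q3 := qq_pos hp hy hZ (n + 1 + 2)
  have y1 := hy (n + 1); have y2 := hy (n + 1 + 1); have y3 := hy (n + 1 + 2)
  have p1 := hp (n + 1); have p2 := hp (n + 1 + 1); have p3 := hp (n + 1 + 2)
  set t := PA c h a b (n + 1 + 1) - m with ht
  have et : t = h (n + 1) / yy c h (n + 1 + 1) * (a (n + 1) - m) +
      h (n + 1 + 1) / yy c h (n + 1 + 1) * (a (n + 1 + 1) - m) +
      h (n + 1 + 2) / yy c h (n + 1 + 1) * (a (n + 1 + 2) - m) := by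
    rw [ht]; simp only [PA]; field_simp; simp only [yy]; ring
  have c1 := three_cs (p1 := h (n + 1) / yy c h (n + 1 + 1))
    (p2 := h (n + 1 + 1) / yy c h (n + 1 + 1)) (p3 := h (n + 1 + 2) / yy c h (n + 1 + 1))
    (w1 := a (n + 1) - m) (w2 := a (n + 1 + 1) - m) (w3 := a (n + 1 + 2) - m)
    (half_pos q1) (half_pos q2) (half_pos q3)
  have c2 := three_cs (p1 := h (n + 1) / yy c h (n + 1 + 1))
    (p2 := h (n + 1 + 1) / yy c h (n + 1 + 1)) (p3 := h (n + 1 + 2) / yy c h (n + 1 + 1))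
    (w1 := a (n + 1) - m) (w2 := a (n + 1 + 1) - m) (w3 := a (n + 1 + 2) - m)
    (half_pos q1) (mul_pos t0 (half_pos q2)) (mul_pos t0' (half_pos q3))
  rw [← et] at c1 c2
  have e1 : (h (n + 1) / yy c h (n + 1 + 1)) ^ 2 / (qq c h Z (n + 1) / 2) +
      (h (n + 1 + 1) / yy c h (n + 1 + 1)) ^ 2 / (qq c h Z (n + 1 + 1) / 2) +
      (h (n + 1 + 2) / yy c h (n + 1 + 1)) ^ 2 / (qq c h Z (n + 1 + 2) / 2) ≤ X ^ 2 := by
    refine le_trans (le_of_eq ?_) h1
    simp only [qq, om]; field_simp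
  have e2 : (h (n + 1) / yy c h (n + 1 + 1)) ^ 2 / (qq c h Z (n + 1) / 2) +
      (h (n + 1 + 1) / yy c h (n + 1 + 1)) ^ 2 / (θ * (qq c h Z (n + 1 + 1) / 2)) +
      (h (n + 1 + 2) / yy c h (n + 1 + 1)) ^ 2 / (θ' * (qq c h Z (n + 1 + 2) / 2)) ≤ K := by
    refine le_trans (le_of_eq ?_) h2
    simp only [qq, om]; field_simp
  have hX0 : 0 < X := by linarith
  have a1 : |t| ≤ X * s := by
    apply abs_le_of_sq_le_sq _ (by positivity)
    rw [mul_pow]
    exact c1.trans (mul_le_mul e1 hE (by positivity) (by positivity))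
  set W := qq c h Z (n + 1) / 2 * (a (n + 1) - m) ^ 2 +
    θ * (qq c h Z (n + 1 + 1) / 2 * (a (n + 1 + 1) - m) ^ 2) +
    θ' * (qq c h Z (n + 1 + 2) / 2 * (a (n + 1 + 2) - m) ^ 2) with hW
  have hW0 : 0 ≤ W := by positivity
  have a2 : t ^ 2 ≤ K * W := by
    refine c2.trans ?_
    rw [mul_assoc θ, mul_assoc θ']
    exact mul_le_mul_of_nonneg_right e2 hW0
  have hK : 0 ≤ K := le_trans (by positivity) e2
  have a3 : t ^ k ≤ K * W * (X * s) ^ (k - 2) :=
    (pow_le_sq_mul a1 hk).trans (mul_le_mul_of_nonneg_right a2 (by positivity))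
  have a4 : qq c h Z (n + 1 + 1) / 2 * X ^ (k - 2) * K ≤ C / τ ^ (2 * d - k) / (1 + θ + θ') := by
    rw [le_div_iff₀ (by positivity), le_div_iff₀ (by positivity)]
    refine le_trans ?_ h3
    have : X ^ (k - 2) * τ ^ (2 * d - k) ≤ X ^ (2 * d - 2) := by
      rw [show 2 * d - 2 = (k - 2) + (2 * d - k) by omega, pow_add]; gcongr
    calc _ = qq c h Z (n + 1 + 1) / 2 * (X ^ (k - 2) * τ ^ (2 * d - k)) * K * (1 + θ + θ') := by
          ring
      _ ≤ _ := by gcongr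
  calc _ ≤ qq c h Z (n + 1 + 1) / 2 * (K * W * (X * s) ^ (k - 2)) := by gcongr
    _ = (qq c h Z (n + 1 + 1) / 2 * X ^ (k - 2) * K) * s ^ (k - 2) * W := by rw [mul_pow]; ring
    _ ≤ _ := by gcongr

lemma tail_sum {θ θ' C τ : ℝ} (T : TailOk c d h Z θ θ' C τ) (hp : ∀ n, 0 < h n)
    (hy : ∀ n, 0 < yy c h n) (hZ : 0 < Z) (hC : 0 ≤ C) (a b : ℕ → ℝ) (m s : ℝ) (hs : 0 ≤ s) (L : ℕ)
    (hE : ∑ n ∈ range (L + 4), qq c h Z n / 2 * ((a n - m) ^ 2 + (b n - m) ^ 2) ≤ s ^ 2)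
    {k : ℕ} (hk : 2 ≤ k) (hkd : k ≤ 2 * d) :
    ∑ j ∈ range L, qq c h Z (3 + j) / 2 *
      ((PA c h a b (3 + j) - m) ^ k + (PA c h b a (3 + j) - m) ^ k) ≤
      C / τ ^ (2 * d - k) * s ^ k := by
  have t0 := T.t0; have t0' := T.t0'; have tau0 := T.tau0
  have hq := qq_pos hp hy hZ
  set g : ℕ → ℝ := fun n => qq c h Z n / 2 * ((a n - m) ^ 2 + (b n - m) ^ 2) with hg
  have hg0 : ∀ n, 0 ≤ g n := fun n => by have := hq n; simp only [hg]; positivity
  set A := C / τ ^ (2 * d - k) / (1 + θ + θ') * s ^ (k - 2) with hA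
  have hA0 : 0 ≤ A := by positivity
  have h1 : ∀ j ∈ range L, qq c h Z (3 + j) / 2 *
      ((PA c h a b (3 + j) - m) ^ k + (PA c h b a (3 + j) - m) ^ k) ≤
      A * (g (2 + j) + θ * g (3 + j) + θ' * g (4 + j)) := by
    intro j hj
    have hj' := mem_range.1 hj
    have h3 : g (2 + j) + g (2 + j + 1) + g (2 + j + 2) ≤ s ^ 2 := by
      refine le_trans ?_ hE
      have : ({2 + j, 2 + j + 1, 2 + j + 2} : Finset ℕ) ⊆ range (L + 4) := by
        intro x hx; simp only [mem_insert, mem_singleton] at hx; rw [mem_range]; omega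
      refine le_trans (le_of_eq ?_) (sum_le_sum_of_subset_of_nonneg this fun i _ _ => hg0 i)
      rw [sum_insert (by simp), sum_insert (by simp), sum_singleton]; ring
    have u1 := hq (2 + j); have u2 := hq (2 + j + 1); have u3 := hq (2 + j + 2)
    have ea := tail_one T hp hy hZ a b m s hs (2 + j) (by omega) (by
      refine le_trans ?_ h3
      simp only [hg]
      have : 0 ≤ qq c h Z (2 + j) / 2 * (b (2 + j) - m) ^ 2 +
        qq c h Z (2 + j + 1) / 2 * (b (2 + j + 1) - m) ^ 2 +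
        qq c h Z (2 + j + 2) / 2 * (b (2 + j + 2) - m) ^ 2 := by positivity
      linarith) hk hkd
    have eb := tail_one T hp hy hZ b a m s hs (2 + j) (by omega) (by
      refine le_trans ?_ h3
      simp only [hg]
      have : 0 ≤ qq c h Z (2 + j) / 2 * (a (2 + j) - m) ^ 2 +
        qq c h Z (2 + j + 1) / 2 * (a (2 + j + 1) - m) ^ 2 +
        qq c h Z (2 + j + 2) / 2 * (a (2 + j + 2) - m) ^ 2 := by positivity
      linarith) hk hkd
    rw [← hA] at ea eb
    rw [show 3 + j = 2 + j + 1 by ring, show 4 + j = 2 + j + 2 by ring]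
    simp only [hg]
    nlinarith
  refine (sum_le_sum h1).trans ?_
  rw [← mul_sum, sum_add_distrib, sum_add_distrib, ← mul_sum, ← mul_sum]
  have s2 := (shift_le hg0 L 2 (by norm_num)).trans hE
  have s3 := (shift_le hg0 L 3 (by norm_num)).trans hE
  have s4 := (shift_le hg0 L 4 (by norm_num)).trans hE
  calc _ ≤ A * (s ^ 2 + θ * s ^ 2 + θ' * s ^ 2) := by gcongr
    _ = _ := by
      obtain ⟨j, rfl⟩ : ∃ j, k = 2 + j := ⟨k - 2, by omega⟩
      rw [hA, Nat.add_sub_cancel_left]; field_simp; ring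

end Pool.Agent.P.MP_23c5a6_pr
end

-- part Pool.Agent.P.MP_23c5a6_pr.HC
section

namespace Pool.Agent.P.MP_23c5a6_pr

open Finset Filter Topology

structure CenOk (c : ℕ) (h : ℕ → ℝ) (Z : ℝ) (D0 D1 D2 : PD) : Prop where
  o0 : D0.Ok
  o1 : D1.Ok
  o2 : D2.Ok
  p0 : qq c h Z 0 / 2 ≤ D0.p
  p1 : qq c h Z 1 / 2 ≤ D1.p
  p2 : qq c h Z 2 / 2 ≤ D2.p
  e0 : Z / yy c h 0 ^ 2 * ((1 + c) / yy c h 0 + (2 - c) ^ 2 * (h 1 / yy c h 1) / 2) - 1 ≤ D0.E ^ 2
  e1 : Z / yy c h 1 ^ 2 * (1 / ((1 + c) * yy c h 0) + h 1 / yy c h 1 / 2 + h 2 / yy c h 2 / 2) - 1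
    ≤ D1.E ^ 2
  e2 : Z / yy c h 2 ^ 2 * (h 1 / yy c h 1 / 2 + h 2 / yy c h 2 / 2 + h 3 / yy c h 3 / 2) - 1
    ≤ D2.E ^ 2
  f0 : Z / yy c h 0 ^ 2 * (c * (h 1 / yy c h 1) / 2) ≤ D0.O ^ 2
  f1 : Z / yy c h 1 ^ 2 * (c / (2 * yy c h 0) + h 1 / yy c h 1 / 2 + h 2 / yy c h 2 / 2) ≤ D1.O ^ 2
  f2 : Z / yy c h 2 ^ 2 * (h 1 / yy c h 1 / 2 + h 2 / yy c h 2 / 2 + h 3 / yy c h 3 / 2) ≤ D2.O ^ 2

def PolyOk (d : ℕ) (ε : ℝ) (D0 D1 D2 : PD) (C τ : ℝ) : Prop :=
  ∀ (m α β s : ℝ) (M : ℕ → ℝ), 0 ≤ m → 0 ≤ α → 0 ≤ β → 0 ≤ s → s ^ 2 = α ^ 2 + β ^ 2 →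
    M 2 ≤ D0.m2 α β + D1.m2 α β + D2.m2 α β + C / τ ^ (2 * d - 2) * s ^ 2 →
    M 3 ≤ D0.m3 α β + D1.m3 α β + D2.m3 α β + C / τ ^ (2 * d - 3) * s ^ 3 →
    M 4 ≤ D0.m4 α β + D1.m4 α β + D2.m4 α β + C / τ ^ (2 * d - 4) * s ^ 4 →
    (∀ k, 2 ≤ k → k ≤ 2 * d →
      M k ≤ (D0.mk' k + D1.mk' k + D2.mk' k + C / τ ^ (2 * d - k)) * s ^ k) →
    ∑ j ∈ range (2 * d - 1), ((2 * d).choose (2 + j) : ℝ) * m ^ (2 * d - (2 + j)) * M (2 + j) ≤
      (1 - ε) * ((m ^ 2 + s ^ 2) ^ d - m ^ (2 * d))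

variable {c d : ℕ} {h : ℕ → ℝ} {Z : ℝ}

lemma center (hc : c ≤ 1) (h0 : h 0 = 1) (hp : ∀ n, 0 < h n) (hy : ∀ n, 0 < yy c h n) (hZ : 0 < Z)
    {D0 D1 D2 : PD} (K : CenOk c h Z D0 D1 D2) (L : ℕ)
    (hQ : ∑ n ∈ range (L + 4), qq c h Z n ≤ 1) {a b : ℕ → ℝ} (hab : c = 0 → a 0 = b 0)
    {m A B : ℝ} (hm : m = ∑ n ∈ range (L + 4), qq c h Z n * ((a n + b n) / 2))
    (hA : A = ∑ n ∈ range (L + 4), qq c h Z n * ((a n + b n) / 2) ^ 2 - m ^ 2) (hA0 : 0 ≤ A)
    (hB : B = ∑ n ∈ range (L + 4), qq c h Z n * ((a n - b n) / 2) ^ 2) :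
    (((PA c h a b 0 - m + (PA c h b a 0 - m)) / 2) ^ 2 ≤ D0.E ^ 2 * A ∧
      ((PA c h a b 0 - m - (PA c h b a 0 - m)) / 2) ^ 2 ≤ D0.O ^ 2 * B) ∧
    (((PA c h a b 1 - m + (PA c h b a 1 - m)) / 2) ^ 2 ≤ D1.E ^ 2 * A ∧
      ((PA c h a b 1 - m - (PA c h b a 1 - m)) / 2) ^ 2 ≤ D1.O ^ 2 * B) ∧
    (((PA c h a b 2 - m + (PA c h b a 2 - m)) / 2) ^ 2 ≤ D2.E ^ 2 * A ∧
      ((PA c h a b 2 - m - (PA c h b a 2 - m)) / 2) ^ 2 ≤ D2.O ^ 2 * B) := by
  have hq := qq_pos hp hy hZ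
  have hB0 : 0 ≤ B := by rw [hB]; exact sum_nonneg fun i _ => by have := hq i; positivity
  have y0 := hy 0; have y1 := hy 1; have y2 := hy 2; have y3 := hy 3
  have p1 := hp 1; have p2 := hp 2; have p3 := hp 3
  have ev : ∀ (G : Finset ℕ) (P : ℕ → ℝ) (t E : ℝ), (∀ x ∈ G, x < 4) → ∑ i ∈ G, P i = 1 →
      t = ∑ i ∈ G, P i * ((a i + b i) / 2) - m → ∑ i ∈ G, P i ^ 2 / qq c h Z i - 1 ≤ E →
      t ^ 2 ≤ E * A := by
    intro G P t E hG hP ht hE
    have := cs_cent (F := range (L + 4)) (G := G)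
      (fun x hx => mem_range.2 (by have := hG x hx; omega)) hq hQ hP hm
    rw [← ht, ← hA] at this
    exact this.trans (mul_le_mul_of_nonneg_right hE hA0)
  have od : ∀ (G : Finset ℕ) (P : ℕ → ℝ) (t E : ℝ), (∀ x ∈ G, x < 4) →
      t = ∑ i ∈ G, P i * ((a i - b i) / 2) → ∑ i ∈ G, P i ^ 2 / qq c h Z i ≤ E →
      t ^ 2 ≤ E * B := by
    intro G P t E hG ht hE
    have := cs_plain (F := range (L + 4)) (G := G) (P := P) (v := fun i => (a i - b i) / 2)
      (fun x hx => mem_range.2 (by have := hG x hx; omega)) hq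
    rw [← ht, ← hB] at this
    exact this.trans (mul_le_mul_of_nonneg_right hE hB0)
  have e1 : yy c h 1 = 1 + h 1 + h 2 := by simp [yy, h0]
  have e2 : yy c h 2 = h 1 + h 2 + h 3 := by simp [yy]
  have e0 : yy c h 0 = 1 + c + (2 - c) * h 1 := by simp [yy]
  have hcc : (0 : ℝ) < 1 + c := by positivity
  refine ⟨⟨?_, ?_⟩, ⟨?_, ?_⟩, ⟨?_, ?_⟩⟩
  · apply ev {0, 1} (fun i => if i = 0 then (1 + c) / yy c h 0 else (2 - c) * h 1 / yy c h 0)
    · simp
    · simp; field_simp; rw [e0]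
    · simp [PA]; field_simp
      interval_cases c
      · rw [hab rfl]; simp; ring
      · simp; ring
    · refine le_trans (le_of_eq ?_) K.e0
      simp [qq, om, h0]; field_simp
  · apply od {1} (fun _ => c * h 1 / yy c h 0)
    · simp
    · simp [PA]; field_simp
      interval_cases c
      · rw [hab rfl]; simp; ring
      · simp; ring
    · refine le_trans (le_of_eq ?_) K.f0
      simp [qq, om]; field_simp
      interval_cases c <;> simp
  · apply ev {0, 1, 2} (fun i => h i / yy c h 1)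
    · simp
    · simp [h0]; field_simp; rw [e1]; ring
    · simp [PA]; field_simp; ring
    · refine le_trans (le_of_eq ?_) K.e1
      simp [qq, om, h0]; field_simp; ring
  · apply od {0, 1, 2} (fun i => if i = 0 then c / yy c h 1 else h i / yy c h 1)
    · simp
    · simp [PA, h0]; field_simp
      interval_cases c
      · rw [hab rfl]; simp; ring
      · simp; ring
    · refine le_trans (le_of_eq ?_) K.f1
      simp [qq, om, h0]; field_simp
      interval_cases c <;> simp <;> ring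
  · apply ev {1, 2, 3} (fun i => h i / yy c h 2)
    · simp
    · simp; field_simp; rw [e2]; ring
    · simp [PA]; field_simp; ring
    · refine le_trans (le_of_eq ?_) K.e2
      simp [qq, om]; field_simp; ring
  · apply od {1, 2, 3} (fun i => h i / yy c h 2)
    · simp
    · simp [PA]; field_simp; ring
    · refine le_trans (le_of_eq ?_) K.f2
      simp [qq, om]; field_simp; ring

lemma stat_half (hc : c ≤ 1) (h0 : h 0 = 1) (hy : ∀ n, 0 < yy c h n) (a b : ℕ → ℝ) (M : ℕ) :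
    ∑ n ∈ range (M + 1), qq c h Z n / 2 * (PA c h a b n + PA c h b a n) =
      ∑ n ∈ range (M + 1), qq c h Z n * ((a n + b n) / 2) +
        h M * h (M + 1) / Z * (a (M + 1) - a M + b (M + 1) - b M) := by
  induction M with
  | zero =>
    have := hy 0
    simp only [zero_add, sum_range_one, qq, om, PA, h0]
    field_simp
    simp only [yy]
    interval_cases c <;> simp <;> ring
  | succ M ih =>
    rw [sum_range_succ, ih, sum_range_succ _ (M + 1)]
    have := hy (M + 1)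
    simp only [qq, om, PA]
    field_simp
    simp only [yy]; ring

lemma sum_ext {f : ℕ → ℝ} {M L : ℕ} (hML : M ≤ L) (hf : ∀ n, M ≤ n → f n = 0) :
    ∑ n ∈ range L, f n = ∑ n ∈ range M, f n :=
  (sum_subset (range_mono hML) fun n _ hn => hf n (by simpa using hn)).symm

theorem hc_half (hc : c ≤ 1) (hd : 2 ≤ d) (h0 : h 0 = 1) (hp : ∀ n, 0 < h n)
    (hy : ∀ n, 0 < yy c h n) (hZ : 0 < Z) {D0 D1 D2 : PD} (K : CenOk c h Z D0 D1 D2)
    {θ θ' C τ ε : ℝ} (T : TailOk c d h Z θ θ' C τ) (hC : 0 ≤ C) (hε : 0 ≤ ε)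
    (R : PolyOk d ε D0 D1 D2 C τ) (hQ : ∀ M, ∑ n ∈ range M, qq c h Z n ≤ 1)
    (hQ1 : Tendsto (fun M => ∑ n ∈ range M, qq c h Z n) atTop (𝓝 1))
    {a b : ℕ → ℝ} (ha : ∀ n, 0 ≤ a n) (hb : ∀ n, 0 ≤ b n) (hab : c = 0 → a 0 = b 0) {M : ℕ}
    (hM : ∀ n, M ≤ n → a n = 0 ∧ b n = 0)
    (hn : ∑ n ∈ range M, qq c h Z n / 2 * (a n ^ 2 + b n ^ 2) = 1) {m : ℝ}
    (hm : m = ∑ n ∈ range M, qq c h Z n / 2 * (a n + b n)) (M' : ℕ) :
    ∑ n ∈ range M', qq c h Z n / 2 * (PA c h a b n ^ (2 * d) + PA c h b a n ^ (2 * d)) ≤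
      1 - ε * (1 - m ^ 2) := by
  have hq := qq_pos hp hy hZ
  have hm0 : 0 ≤ m := by
    rw [hm]; exact sum_nonneg fun i _ => by have := hq i; have := ha i; have := hb i; positivity
  have main : ∀ L, M + M' ≤ L → m ^ 2 ≤ 1 ∧
      ∑ n ∈ range M', qq c h Z n / 2 * (PA c h a b n ^ (2 * d) + PA c h b a n ^ (2 * d)) ≤
      m ^ (2 * d) * (∑ n ∈ range (L + 3), qq c h Z n) +
        (2 * d : ℕ) * m ^ (2 * d - 1) * (m - m * ∑ n ∈ range (L + 3), qq c h Z n) +
        (1 - ε) * (1 - m ^ (2 * d)) := by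
    intro L hL
    have hm' : ∀ L', M ≤ L' → m = ∑ n ∈ range L', qq c h Z n * ((a n + b n) / 2) := by
      intro L' hL'
      rw [hm, sum_ext hL' (fun n hn => by simp [hM n hn])]
      exact sum_congr rfl fun i _ => by ring
    have hn' : ∑ n ∈ range (L + 4), qq c h Z n / 2 * (a n ^ 2 + b n ^ 2) = 1 := by
      rw [← hn, sum_ext (show M ≤ L + 4 by omega) (fun n hn => by simp [hM n hn])]
    set A := ∑ n ∈ range (L + 4), qq c h Z n * ((a n + b n) / 2) ^ 2 - m ^ 2 with hA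
    set B := ∑ n ∈ range (L + 4), qq c h Z n * ((a n - b n) / 2) ^ 2 with hB
    have hB0 : 0 ≤ B := sum_nonneg fun i _ => by have := hq i; positivity
    have hA0 : 0 ≤ A := by
      have h1 := sum_sq_le_sum_mul_sum_of_sq_le_mul (range (L + 4))
        (r := fun n => qq c h Z n * ((a n + b n) / 2)) (f := qq c h Z)
        (g := fun n => qq c h Z n * ((a n + b n) / 2) ^ 2) (fun i _ => (hq i).le)
        (fun i _ => by have := hq i; positivity) (fun i _ => le_of_eq (by ring))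
      rw [← hm' _ (by omega)] at h1
      have h2 : 0 ≤ ∑ n ∈ range (L + 4), qq c h Z n * ((a n + b n) / 2) ^ 2 :=
        sum_nonneg fun i _ => by have := hq i; positivity
      have := mul_le_mul_of_nonneg_right (hQ (L + 4)) h2
      rw [hA]; linarith
    have hAB : A + B = 1 - m ^ 2 := by
      rw [hA, hB, ← hn', sub_add_eq_add_sub, ← sum_add_distrib]
      congr 1; exact sum_congr rfl fun i _ => by ring
    have hm1 : m ^ 2 ≤ 1 := by linarith
    refine ⟨hm1, ?_⟩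
    set α := √A
    set β := √B
    set s := √(1 - m ^ 2)
    have hα : α ^ 2 = A := Real.sq_sqrt hA0
    have hβ : β ^ 2 = B := Real.sq_sqrt hB0
    have hs : s ^ 2 = 1 - m ^ 2 := Real.sq_sqrt (by linarith)
    have hα0 : 0 ≤ α := Real.sqrt_nonneg _
    have hβ0 : 0 ≤ β := Real.sqrt_nonneg _
    have hs0 : 0 ≤ s := Real.sqrt_nonneg _
    have hss : s ^ 2 = α ^ 2 + β ^ 2 := by rw [hs, hα, hβ, hAB]
    have hE : ∑ n ∈ range (L + 4), qq c h Z n / 2 * ((a n - m) ^ 2 + (b n - m) ^ 2) ≤ s ^ 2 := by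
      have e : ∑ n ∈ range (L + 4), qq c h Z n / 2 * ((a n - m) ^ 2 + (b n - m) ^ 2) =
          ∑ n ∈ range (L + 4), qq c h Z n / 2 * (a n ^ 2 + b n ^ 2)
          - 2 * m * ∑ n ∈ range (L + 4), qq c h Z n * ((a n + b n) / 2)
          + m ^ 2 * ∑ n ∈ range (L + 4), qq c h Z n := by
        simp only [mul_sum, ← sum_add_distrib, ← sum_sub_distrib]
        exact sum_congr rfl fun i _ => by ring
      rw [e, hn', ← hm' _ (by omega), hs]
      have := mul_le_mul_of_nonneg_left (hQ (L + 4)) (sq_nonneg m)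
      nlinarith
    obtain ⟨⟨c0, c0'⟩, ⟨c1, c1'⟩, ⟨c2, c2'⟩⟩ :=
      center hc h0 hp hy hZ K L (hQ _) hab (hm' _ (by omega)) hA hA0 hB
    rw [← hα] at c0 c1 c2
    rw [← hβ] at c0' c1' c2'
    obtain ⟨u2, u3, u4, uk⟩ := PD.bounds K.o0 (half_pos (hq 0)).le K.p0 hα0 hβ0 hs0 hss c0 c0'
    obtain ⟨v2, v3, v4, vk⟩ := PD.bounds K.o1 (half_pos (hq 1)).le K.p1 hα0 hβ0 hs0 hss c1 c1'
    obtain ⟨w2, w3, w4, wk⟩ := PD.bounds K.o2 (half_pos (hq 2)).le K.p2 hα0 hβ0 hs0 hss c2 c2'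
    set Mom : ℕ → ℝ := fun k => ∑ n ∈ range (L + 3), qq c h Z n / 2 *
      ((PA c h a b n - m) ^ k + (PA c h b a n - m) ^ k) with hMom
    have hT := fun k hk hkd => tail_sum T hp hy hZ hC a b m s hs0 L hE (k := k) hk hkd
    have hsplit : ∀ k, Mom k =
        qq c h Z 0 / 2 * ((PA c h a b 0 - m) ^ k + (PA c h b a 0 - m) ^ k) +
        qq c h Z 1 / 2 * ((PA c h a b 1 - m) ^ k + (PA c h b a 1 - m) ^ k) +
        qq c h Z 2 / 2 * ((PA c h a b 2 - m) ^ k + (PA c h b a 2 - m) ^ k) +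
        ∑ j ∈ range L, qq c h Z (3 + j) / 2 *
          ((PA c h a b (3 + j) - m) ^ k + (PA c h b a (3 + j) - m) ^ k) := by
      intro k
      simp only [hMom]
      rw [add_comm L 3, sum_range_add]
      simp [sum_range_succ]
    have hpoly := R m α β s Mom hm0 hα0 hβ0 hs0 hss
      (by rw [hsplit]; linarith [hT 2 le_rfl (by omega)])
      (by rw [hsplit]; linarith [hT 3 (by norm_num) (by omega)])
      (by rw [hsplit]; linarith [hT 4 (by norm_num) (by omega)])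
      (fun k hk hkd => by
        rw [hsplit]; linarith [hT k hk hkd, uk k hk, vk k hk, wk k hk])
    rw [hs, add_sub_cancel, one_pow] at hpoly
    have hexp : ∑ n ∈ range (L + 3), qq c h Z n / 2 *
        (PA c h a b n ^ (2 * d) + PA c h b a n ^ (2 * d)) =
        ∑ k ∈ range (2 * d + 1), ((2 * d).choose k : ℝ) * m ^ (2 * d - k) * Mom k := by
      simp only [hMom, mul_sum]
      rw [sum_comm]
      refine sum_congr rfl fun n _ => ?_
      have e1 := add_pow (PA c h a b n - m) m (2 * d)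
      have e2 := add_pow (PA c h b a n - m) m (2 * d)
      rw [sub_add_cancel] at e1 e2
      rw [e1, e2, ← sum_add_distrib, mul_sum]
      exact sum_congr rfl fun k _ => by ring
    have hM0 : Mom 0 = ∑ n ∈ range (L + 3), qq c h Z n := by
      simp only [hMom]; exact sum_congr rfl fun k _ => by ring
    have hM1 : Mom 1 = m - m * ∑ n ∈ range (L + 3), qq c h Z n := by
      have := stat_half (Z := Z) hc h0 hy a b (L + 2)
      rw [(hM (L + 2) (by omega)).1, (hM (L + 2) (by omega)).2, (hM (L + 2 + 1) (by omega)).1,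
        (hM (L + 2 + 1) (by omega)).2, ← hm' _ (by omega)] at this
      simp only [sub_zero, add_zero, mul_zero] at this
      simp only [hMom]
      nth_rewrite 3 [← this]
      rw [mul_sum, ← sum_sub_distrib]
      exact sum_congr rfl fun k _ => by ring
    calc _ ≤ ∑ n ∈ range (L + 3), qq c h Z n / 2 *
        (PA c h a b n ^ (2 * d) + PA c h b a n ^ (2 * d)) := by
          apply sum_le_sum_of_subset_of_nonneg (range_mono (by omega))
          intro i _ _
          have := hq i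
          rw [pow_mul, pow_mul]; positivity
      _ ≤ _ := by
        rw [hexp, show 2 * d + 1 = 2 + (2 * d - 1) by omega, sum_range_add, sum_range_succ,
          sum_range_one, hM0, hM1]
        simp only [Nat.choose_zero_right, Nat.choose_one_right, Nat.cast_one, one_mul, tsub_zero]
        linarith
  have hm1 := (main _ le_rfl).1
  have hlim : Tendsto (fun L => m ^ (2 * d) * (∑ n ∈ range (L + 3), qq c h Z n) +
        (2 * d : ℕ) * m ^ (2 * d - 1) * (m - m * ∑ n ∈ range (L + 3), qq c h Z n) +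
        (1 - ε) * (1 - m ^ (2 * d))) atTop (𝓝 (m ^ (2 * d) * 1 +
        (2 * d : ℕ) * m ^ (2 * d - 1) * (m - m * 1) + (1 - ε) * (1 - m ^ (2 * d)))) := by
    have := (tendsto_add_atTop_iff_nat 3).2 hQ1
    exact ((this.const_mul _).add (((this.const_mul _).const_sub _).const_mul _)).add_const _
  have h1 := ge_of_tendsto hlim (eventually_atTop.2 ⟨M + M', fun L hL => (main L hL).2⟩)
  have h2 : m ^ (2 * d) ≤ m ^ 2 := by
    rw [pow_mul]; exact pow_le_of_le_one (sq_nonneg _) hm1 (by omega)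
  nlinarith

end Pool.Agent.P.MP_23c5a6_pr
end

-- part Pool.Agent.P.MP_23c5a6_pr.Cert
section

namespace Pool.Agent.P.MP_23c5a6_pr

open Finset Filter Topology

variable {c d : ℕ} {h : ℕ → ℝ}

lemma IsFix.pos (hc : c ≤ 1) (F : IsFix c d h) (n : ℕ) : 0 < h n := by
  have hy := yy_zero_ge hc F.inv
  induction n with
  | zero => rw [F.inv.h0]; norm_num
  | succ n ih =>
    rw [F.fix]
    have : 0 < yy c h (n + 1) := by
      have := F.inv.nn (n + 1); have := F.inv.nn (n + 2); simp only [yy]; linarith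
    positivity

lemma IsFix.ypos (hc : c ≤ 1) (F : IsFix c d h) (n : ℕ) : 0 < yy c h n := by
  cases n with
  | zero => linarith [yy_zero_ge hc F.inv]
  | succ n =>
    have := F.pos hc n; have := F.pos hc (n + 1); have := F.pos hc (n + 2)
    simp only [yy]; linarith

noncomputable def ZZ (c : ℕ) (h : ℕ → ℝ) : ℝ := ∑' n, 2 * om c n * (h n * yy c h n)

lemma term_nn (hc : c ≤ 1) (H : Inv h) (n : ℕ) : 0 ≤ 2 * om c n * (h n * yy c h n) := by
  have := H.nn n; have := yy_nn hc H n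
  have : 0 < om c n := by cases n <;> simp only [om] <;> positivity
  positivity

lemma term_le (hc : c ≤ 1) (H : Inv h) (j : ℕ) :
    2 * om c (j + 3) * (h (j + 3) * yy c h (j + 3)) ≤ 2 * (h 3 * yy c h 3) * (1 / 4) ^ j := by
  simp only [om, mul_one]
  induction j with
  | zero => simp
  | succ j ih =>
    have h1 := H.half (j + 3) (by omega)
    have h2 := yy_half (c := c) H (j + 3) (by omega)
    have h3 := mul_le_mul h1 h2 (yy_nn hc H _) (by have := H.nn (j + 3); positivity)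
    rw [pow_succ, show j + 1 + 3 = j + 3 + 1 by ring]
    linarith

lemma summable_term (hc : c ≤ 1) (H : Inv h) :
    Summable fun n => 2 * om c n * (h n * yy c h n) := by
  rw [← summable_nat_add_iff 3]
  exact Summable.of_nonneg_of_le (fun n => term_nn hc H _) (term_le hc H)
    ((summable_geometric_of_lt_one (by norm_num) (by norm_num)).mul_left _)

lemma ZZ_ge (hc : c ≤ 1) (H : Inv h) (M : ℕ) :
    ∑ n ∈ range M, 2 * om c n * (h n * yy c h n) ≤ ZZ c h :=
  (summable_term hc H).sum_le_tsum _ fun n _ => term_nn hc H n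

lemma ZZ_le (hc : c ≤ 1) (H : Inv h) : ZZ c h ≤ (1 + c) * yy c h 0 + 2 * (h 1 * yy c h 1) +
    2 * (h 2 * yy c h 2) + 8 / 3 * (h 3 * yy c h 3) := by
  unfold ZZ
  rw [← (summable_term hc H).sum_add_tsum_nat_add 3]
  have h1 := ((summable_nat_add_iff 3).2 (summable_term hc H)).tsum_le_tsum (term_le hc H)
    ((summable_geometric_of_lt_one (by norm_num) (by norm_num)).mul_left _)
  rw [tsum_mul_left, tsum_geometric_of_lt_one (by norm_num) (by norm_num)] at h1
  simp only [sum_range_succ, sum_range_zero, om, H.h0] at h1 ⊢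
  norm_num at h1 ⊢
  linarith

lemma ZZ_pos (hc : c ≤ 1) (H : Inv h) : 0 < ZZ c h := by
  have := ZZ_ge hc H 1
  have h1 := yy_zero_ge hc H
  simp only [sum_range_one, om, H.h0] at this
  have : (0 : ℝ) < 2 * ((1 + c) / 2) * (1 * yy c h 0) := by positivity
  linarith

lemma hasSum_qq (hc : c ≤ 1) (H : Inv h) : HasSum (qq c h (ZZ c h)) 1 := by
  have := (summable_term hc H).hasSum.div_const (ZZ c h)
  rw [show (∑' n, 2 * om c n * (h n * yy c h n)) = ZZ c h from rfl,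
    div_self (ZZ_pos hc H).ne'] at this
  exact this

lemma ratioA (hc : c ≤ 1) (hd : 2 ≤ d) (F : IsFix c d h) {r : ℝ} (h0 : 0 ≤ r) (h1 : r ≤ 1)
    (hr : ∀ k, 2 ≤ k → yy c h (k + 1) ≤ r * yy c h k) (k : ℕ) (hk : 2 ≤ k) :
    h (k + 1) ≤ r ^ 2 * h k := by
  have y0 := F.ypos hc 0
  calc h (k + 1) = (yy c h (k + 1) / yy c h 0) ^ d := F.fix _
    _ ≤ (r * (yy c h k / yy c h 0)) ^ d := by
      have := F.ypos hc (k + 1)
      rw [← mul_div_assoc]; gcongr; exact hr k hk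
    _ = r ^ d * h k := by rw [mul_pow, ← F.fix]
    _ ≤ _ := mul_le_mul_of_nonneg_right (pow_le_pow_of_le_one h0 h1 hd) (F.inv.nn k)

lemma ratioB {q : ℝ} (hq : ∀ k, 2 ≤ k → h (k + 1) ≤ q * h k) (k : ℕ) (hk : 3 ≤ k) :
    yy c h (k + 1) ≤ q * yy c h k := by
  obtain ⟨m, rfl⟩ : ∃ m, k = m + 1 := ⟨k - 1, by omega⟩
  have h1 := hq m (by omega); have h2 := hq (m + 1) (by omega); have h3 := hq (m + 2) (by omega)
  simp only [yy]; linarith

lemma ratios (hc : c ≤ 1) (hd : 2 ≤ d) (F : IsFix c d h) {ρ : ℝ} (r1 : 1 / 16 ≤ ρ) (r2 : ρ ≤ 1 / 4)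
    (h3 : yy c h 3 ≤ ρ * yy c h 2) : (∀ k, 2 ≤ k → yy c h (k + 1) ≤ ρ * yy c h k) ∧
    (∀ k, 2 ≤ k → h (k + 1) ≤ ρ ^ 2 * h k) ∧ ∀ k, 3 ≤ k → yy c h (k + 1) ≤ ρ ^ 2 * yy c h k := by
  have up : ∀ {q r : ℝ}, ρ ≤ r → q ≤ r → (∀ k, 3 ≤ k → yy c h (k + 1) ≤ q * yy c h k) →
      ∀ k, 2 ≤ k → yy c h (k + 1) ≤ r * yy c h k := by
    intro q r a b hq k hk
    rcases hk.eq_or_lt with rfl | hk
    · exact h3.trans (mul_le_mul_of_nonneg_right a (F.ypos hc _).le)
    · exact (hq k hk).trans (mul_le_mul_of_nonneg_right b (F.ypos hc _).le)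
  have s1 := ratioB (c := c) (ratioA hc hd F (r := 1 / 2) (by norm_num) (by norm_num)
    (fun k hk => by linarith [yy_half (c := c) F.inv k hk]))
  have s2 := ratioB (c := c) (ratioA hc hd F (r := 1 / 4) (by norm_num) (by norm_num)
    (up r2 (by norm_num) s1))
  have s3 := up le_rfl (by linarith) s2
  have s4 := ratioA hc hd F (by linarith) (by linarith) s3
  exact ⟨s3, s4, ratioB s4⟩

lemma tailOk_of (hc : c ≤ 1) (hd : 2 ≤ d) (F : IsFix c d h) {ρ θ θ' C τ Zl Zu yl0 yu2 yu3 : ℝ}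
    (r1 : 1 / 16 ≤ ρ) (r2 : ρ ≤ 1 / 4) (h3 : yy c h 3 ≤ ρ * yy c h 2) (t0 : 0 < θ) (t0' : 0 < θ')
    (tau0 : 0 < τ) (hZl : Zl ≤ ZZ c h) (hZu : ZZ c h ≤ Zu) (hl0 : 0 < yl0) (hy0 : yl0 ≤ yy c h 0)
    (hy2 : yy c h 2 ≤ yu2) (hy3 : yy c h 3 ≤ yu3)
    (hτ : τ ^ 2 * (yu2 * yu3 * (1 + ρ ^ 2 + ρ ^ 4)) ≤ Zl * (1 + ρ ^ (d - 1) + (ρ ^ 3) ^ (d - 1)))
    (hC : Zu ^ (d - 1) / yl0 ^ (2 * d) * (1 + ρ ^ (d - 1) + (ρ ^ 3) ^ (d - 1)) ^ (d - 1) *
      (1 + ρ ^ (d - 1) / θ + (ρ ^ 3) ^ (d - 1) / θ') * (1 + θ + θ') ≤ C) :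
    TailOk c d h (ZZ c h) θ θ' C τ := by
  refine ⟨t0, t0', tau0, fun n hn => ?_⟩
  obtain ⟨R2, Q2, R3⟩ := ratios hc hd F r1 r2 h3
  obtain ⟨e, rfl⟩ : ∃ e, d = e + 1 := ⟨d - 1, by omega⟩
  simp only [Nat.add_sub_cancel] at hτ hC
  have hρ : 0 < ρ := by linarith
  have hZ := ZZ_pos hc F.inv
  set Z := ZZ c h
  have y0 := F.ypos hc 0
  have ya := F.ypos hc n; have yb := F.ypos hc (n + 1); have yc := F.ypos hc (n + 2)
  have pa := F.pos hc n; have pb := F.pos hc (n + 1); have pc := F.pos hc (n + 2)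
  have hg : ∀ j, h j / yy c h j = yy c h j ^ e / yy c h 0 ^ (e + 1) := by
    intro j
    have := F.ypos hc j
    rw [F.fix j, div_pow]; field_simp; ring
  have g1 : h (n + 1) / yy c h (n + 1) ≤ ρ ^ e * (h n / yy c h n) := by
    rw [hg, hg, ← mul_div_assoc, ← mul_pow]; gcongr; exact R2 n hn
  have g2 : h (n + 2) / yy c h (n + 2) ≤ (ρ ^ 3) ^ e * (h n / yy c h n) := by
    rw [hg, hg, ← mul_div_assoc, ← mul_pow]; gcongr
    have a1 := R2 n hn
    have a2 := R3 (n + 1) (by omega)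
    calc yy c h (n + 2) ≤ ρ ^ 2 * yy c h (n + 1) := a2
      _ ≤ ρ ^ 2 * (ρ * yy c h n) := by gcongr
      _ = _ := by ring
  set r := ρ ^ e
  set r' := (ρ ^ 3) ^ e
  have hr : 0 < r := by positivity
  have hr' : 0 < r' := by positivity
  set mn := Z / yy c h (n + 1) ^ 2 * (h n / yy c h n) with hmn
  have hmn0 : 0 < mn := by positivity
  have hX : √(mn * (1 + r + r')) ^ 2 = mn * (1 + r + r') := Real.sq_sqrt (by positivity)
  refine ⟨√(mn * (1 + r + r')), mn * (1 + r / θ + r' / θ'), ?_, ?_, ?_, ?_⟩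
  · apply Real.le_sqrt_of_sq_le
    have b1 : yy c h (n + 1) ≤ h n * (1 + ρ ^ 2 + ρ ^ 4) := by
      have a1 := Q2 n hn
      have a2 := Q2 (n + 1) (by omega)
      have a3 := mul_le_mul_of_nonneg_left a1 (sq_nonneg ρ)
      simp only [yy]; nlinarith
    have b2 : yy c h (n + 1) ≤ yu3 := (yy_le_three F.inv hc _ (by omega)).trans hy3
    have b3 : yy c h n ≤ yu2 := by
      rcases hn.eq_or_lt with rfl | hn
      · exact hy2
      · have := yy_le_three F.inv hc _ hn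
        have := yy_half (c := c) F.inv 2 le_rfl
        have := F.ypos hc 2
        norm_num at *; linarith
    have u2 : 0 < yu2 := by linarith
    have u3 : 0 < yu3 := by linarith
    rw [← le_div_iff₀ (by positivity)] at hτ
    refine hτ.trans ?_
    rw [mul_div_right_comm]
    gcongr
    rw [hmn, div_mul_div_comm, div_le_div_iff₀ (by positivity) (by positivity)]
    calc Zl * (yy c h (n + 1) ^ 2 * yy c h n) ≤ Z * (yy c h (n + 1) ^ 2 * yy c h n) := by gcongr
      _ = Z * (yy c h n * yy c h (n + 1) * yy c h (n + 1)) := by ring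
      _ ≤ Z * (yu2 * yu3 * (h n * (1 + ρ ^ 2 + ρ ^ 4))) := by gcongr
      _ = _ := by ring
  · rw [hX, hmn, mul_assoc]; gcongr; linarith
  · rw [hmn, mul_assoc]; gcongr
    have a1 := div_le_div_of_nonneg_right g1 t0.le
    have a2 := div_le_div_of_nonneg_right g2 t0'.le
    calc _ ≤ h n / yy c h n + r * (h n / yy c h n) / θ + r' * (h n / yy c h n) / θ' := by linarith
      _ = _ := by ring
  · refine le_trans ?_ hC
    rw [show 2 * (e + 1) - 2 = 2 * e by omega, pow_mul, hX, mul_pow]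
    have key : qq c h Z (n + 1) / 2 * mn ^ (e + 1) ≤ Zu ^ e / yl0 ^ (2 * (e + 1)) := by
      have k1 : (h n / yy c h n) ^ (e + 1) = h n ^ e / yy c h 0 ^ (e + 1) := by
        have := F.fix n
        rw [div_pow, eq_div_iff (by positivity)] at this
        rw [div_pow, ← this]; field_simp; ring
      have k2 : qq c h Z (n + 1) / 2 * mn ^ (e + 1) =
          Z ^ e * (h n / yy c h (n + 1)) ^ e / yy c h 0 ^ (2 * (e + 1)) := by
        rw [hmn, mul_pow, k1]
        simp only [qq, om]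
        rw [F.fix (n + 1)]
        simp only [div_pow]
        field_simp; ring
      rw [k2]
      have k3 : (h n / yy c h (n + 1)) ^ e ≤ 1 := by
        apply pow_le_one₀ (by positivity)
        rw [div_le_one yb]; simp only [yy]; linarith
      have : 0 ≤ Zu := by linarith
      calc _ ≤ Z ^ e * 1 / yy c h 0 ^ (2 * (e + 1)) := by gcongr
        _ ≤ _ := by rw [mul_one]; gcongr
    calc _ = qq c h Z (n + 1) / 2 * mn ^ (e + 1) * (1 + r + r') ^ e * (1 + r / θ + r' / θ') *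
          (1 + θ + θ') := by ring
      _ ≤ _ := by gcongr

/-- half-line form of the strict `2 → 2d` hypercontractive inequality -/
def HCH (c d : ℕ) (h : ℕ → ℝ) (ε : ℝ) : Prop :=
  ∀ (a b : ℕ → ℝ) (M : ℕ) (m : ℝ), (∀ n, 0 ≤ a n) → (∀ n, 0 ≤ b n) → (c = 0 → a 0 = b 0) →
    (∀ n, M ≤ n → a n = 0 ∧ b n = 0) →
    ∑ n ∈ range M, qq c h (ZZ c h) n / 2 * (a n ^ 2 + b n ^ 2) = 1 →
    m = ∑ n ∈ range M, qq c h (ZZ c h) n / 2 * (a n + b n) → ∀ M' : ℕ,
    ∑ n ∈ range M', qq c h (ZZ c h) n / 2 *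
      (PA c h a b n ^ (2 * d) + PA c h b a n ^ (2 * d)) ≤ 1 - ε * (1 - m ^ 2)

def Good (c d : ℕ) : Prop := ∃ h ε, IsFix c d h ∧ 0 < ε ∧ HCH c d h ε

structure NumCert (c d : ℕ) (l1 u1 l2 u2 l3 u3 l4 u4 yl0 yl1 yl2 yl3 yu0 yu1 yu2 yu3 g1 g2 g3
    Zl Zu ρ θ θ' C τ : ℝ) (D0 D1 D2 : PD) : Prop where
  a0 : yl0 ≤ 1 + c + (2 - c) * l1
  a1 : yl1 ≤ 1 + l1 + l2
  a2 : yl2 ≤ l1 + l2 + l3
  a3 : yl3 ≤ l2 + l3 + l4
  b0 : 1 + c + (2 - c) * u1 ≤ yu0
  b1 : 1 + u1 + u2 ≤ yu1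
  b2 : u1 + u2 + u3 ≤ yu2
  b3 : u2 + u3 + u4 ≤ yu3
  c0 : 0 < yl0
  c1 : 0 < yl1
  c2 : 0 < yl2
  c3 : 0 < yl3
  l10 : 0 ≤ l1
  l20 : 0 ≤ l2
  hg1 : u1 / yl1 ≤ g1
  hg2 : u2 / yl2 ≤ g2
  hg3 : u3 / yl3 ≤ g3
  zl : Zl ≤ (1 + c) * yl0 + 2 * (l1 * yl1) + 2 * (l2 * yl2)
  zl0 : 0 < Zl
  zu : (1 + c) * yu0 + 2 * (u1 * yu1) + 2 * (u2 * yu2) + 8 / 3 * (u3 * yu3) ≤ Zu
  r1 : 1 / 16 ≤ ρ
  r2 : ρ ≤ 1 / 4
  r3 : yu3 ≤ ρ * yl2
  t0 : 0 < θ
  t0' : 0 < θ'
  tau0 : 0 < τ
  C0 : 0 ≤ C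
  hτ : τ ^ 2 * (yu2 * yu3 * (1 + ρ ^ 2 + ρ ^ 4)) ≤ Zl * (1 + ρ ^ (d - 1) + (ρ ^ 3) ^ (d - 1))
  hC : Zu ^ (d - 1) / yl0 ^ (2 * d) * (1 + ρ ^ (d - 1) + (ρ ^ 3) ^ (d - 1)) ^ (d - 1) *
      (1 + ρ ^ (d - 1) / θ + (ρ ^ 3) ^ (d - 1) / θ') * (1 + θ + θ') ≤ C
  o0 : D0.Ok
  o1 : D1.Ok
  o2 : D2.Ok
  p0 : (1 + c) * yu0 / Zl / 2 ≤ D0.p
  p1 : u1 * yu1 / Zl ≤ D1.p
  p2 : u2 * yu2 / Zl ≤ D2.p
  e0 : Zu / yl0 ^ 2 * ((1 + c) / yl0 + (2 - c) ^ 2 * g1 / 2) - 1 ≤ D0.E ^ 2
  e1 : Zu / yl1 ^ 2 * (1 / ((1 + c) * yl0) + g1 / 2 + g2 / 2) - 1 ≤ D1.E ^ 2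
  e2 : Zu / yl2 ^ 2 * (g1 / 2 + g2 / 2 + g3 / 2) - 1 ≤ D2.E ^ 2
  f0 : Zu / yl0 ^ 2 * (c * g1 / 2) ≤ D0.O ^ 2
  f1 : Zu / yl1 ^ 2 * (c / (2 * yl0) + g1 / 2 + g2 / 2) ≤ D1.O ^ 2
  f2 : Zu / yl2 ^ 2 * (g1 / 2 + g2 / 2 + g3 / 2) ≤ D2.O ^ 2

theorem hch_of (hc : c ≤ 1) (hd : 2 ≤ d) (F : IsFix c d h)
    {l1 u1 l2 u2 l3 u3 l4 u4 yl0 yl1 yl2 yl3 yu0 yu1 yu2 yu3 g1 g2 g3 Zl Zu ρ θ θ' C τ ε : ℝ}
    {D0 D1 D2 : PD} (B : InB l1 u1 l2 u2 l3 u3 l4 u4 h)
    (N : NumCert c d l1 u1 l2 u2 l3 u3 l4 u4 yl0 yl1 yl2 yl3 yu0 yu1 yu2 yu3 g1 g2 g3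
      Zl Zu ρ θ θ' C τ D0 D1 D2) (hε : 0 ≤ ε) (R : PolyOk d ε D0 D1 D2 C τ) : HCH c d h ε := by
  have h0 := F.inv.h0
  have hc2 : (0 : ℝ) ≤ 2 - c := by
    have : (c : ℝ) ≤ 1 := by exact_mod_cast hc
    linarith
  have hc0 : (0 : ℝ) ≤ c := Nat.cast_nonneg c
  obtain ⟨a1, b1, a2, b2, a3, b3, a4, b4⟩ := B
  have p1 := F.pos hc 1; have p2 := F.pos hc 2; have p3 := F.pos hc 3
  have y0 := F.ypos hc 0; have y1 := F.ypos hc 1; have y2 := F.ypos hc 2; have y3 := F.ypos hc 3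
  have L0 : yl0 ≤ yy c h 0 := N.a0.trans (by simp only [yy]; gcongr)
  have L1 : yl1 ≤ yy c h 1 := N.a1.trans (by simp only [yy, h0]; norm_num; linarith)
  have L2 : yl2 ≤ yy c h 2 := N.a2.trans (by simp only [yy]; norm_num; linarith)
  have L3 : yl3 ≤ yy c h 3 := N.a3.trans (by simp only [yy]; norm_num; linarith)
  have U0 : yy c h 0 ≤ yu0 := le_trans (by simp only [yy]; gcongr) N.b0
  have U1 : yy c h 1 ≤ yu1 := le_trans (by simp only [yy, h0]; norm_num; linarith) N.b1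
  have U2 : yy c h 2 ≤ yu2 := le_trans (by simp only [yy]; norm_num; linarith) N.b2
  have U3 : yy c h 3 ≤ yu3 := le_trans (by simp only [yy]; norm_num; linarith) N.b3
  have c0 := N.c0; have c1 := N.c1; have c2 := N.c2; have c3 := N.c3
  have l10 := N.l10; have l20 := N.l20; have zl0 := N.zl0
  have v1 : 0 < u1 := by linarith
  have v2 : 0 < u2 := by linarith
  have v3 : 0 < u3 := by linarith
  have w0 : 0 < yu0 := by linarith
  have w1 : 0 < yu1 := by linarith
  have w2 : 0 < yu2 := by linarith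
  have G1 : h 1 / yy c h 1 ≤ g1 := le_trans (by gcongr) N.hg1
  have G2 : h 2 / yy c h 2 ≤ g2 := le_trans (by gcongr) N.hg2
  have G3 : h 3 / yy c h 3 ≤ g3 := le_trans (by gcongr) N.hg3
  have hZl : Zl ≤ ZZ c h := by
    refine N.zl.trans (le_trans ?_ (ZZ_ge hc F.inv 3))
    simp only [sum_range_succ, sum_range_zero, om, h0]
    have e0 : (1 + c) * yl0 ≤ (1 + c) * yy c h 0 := by gcongr
    have e1 : l1 * yl1 ≤ h 1 * yy c h 1 := by gcongr
    have e2 : l2 * yl2 ≤ h 2 * yy c h 2 := by gcongr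
    linarith
  have hZu : ZZ c h ≤ Zu := (ZZ_le hc F.inv).trans (le_trans (by gcongr) N.zu)
  have hZ := ZZ_pos hc F.inv
  have zu0 : 0 < Zu := by linarith
  have T := tailOk_of hc hd F N.r1 N.r2
    (U3.trans (N.r3.trans (by have := N.r1; gcongr))) N.t0 N.t0' N.tau0
    hZl hZu c0 L0 U2 U3 N.hτ N.hC
  have K : CenOk c h (ZZ c h) D0 D1 D2 := by
    refine ⟨N.o0, N.o1, N.o2, le_trans ?_ N.p0, le_trans ?_ N.p1, le_trans ?_ N.p2,
      le_trans ?_ N.e0, le_trans ?_ N.e1, le_trans ?_ N.e2, le_trans ?_ N.f0, le_trans ?_ N.f1,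
      le_trans ?_ N.f2⟩
    · simp only [qq, om, h0]
      rw [show 2 * ((1 + (c : ℝ)) / 2) * (1 * yy c h 0) = (1 + c) * yy c h 0 by ring]; gcongr
    · simp only [qq, om]
      rw [show 2 * 1 * (h 1 * yy c h 1) / ZZ c h / 2 = h 1 * yy c h 1 / ZZ c h by ring]; gcongr
    · simp only [qq, om]
      rw [show 2 * 1 * (h 2 * yy c h 2) / ZZ c h / 2 = h 2 * yy c h 2 / ZZ c h by ring]; gcongr
    all_goals gcongr
  intro a b M m ha hb hab hM hn hm M'
  have hs := hasSum_qq hc F.inv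
  exact hc_half hc hd h0 (F.pos hc) (F.ypos hc) hZ K T N.C0 hε R
    (fun M => sum_le_hasSum _ (fun i _ => (qq_pos (F.pos hc) (F.ypos hc) hZ i).le) hs)
    hs.tendsto_sum_nat ha hb hab hM hn hm M'

end Pool.Agent.P.MP_23c5a6_pr
end

-- part Pool.Agent.P.MP_23c5a6_pr.Poly
section

namespace Pool.Agent.P.MP_23c5a6_pr

open Finset

lemma m2_le {D0 D1 D2 : PD} {T B α β s : ℝ} (hs : s ^ 2 = α ^ 2 + β ^ 2)
    (he : 2 * D0.p * D0.E ^ 2 + 2 * D1.p * D1.E ^ 2 + 2 * D2.p * D2.E ^ 2 + T ≤ B)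
    (ho : 2 * D0.p * D0.O ^ 2 + 2 * D1.p * D1.O ^ 2 + 2 * D2.p * D2.O ^ 2 + T ≤ B) :
    D0.m2 α β + D1.m2 α β + D2.m2 α β + T * s ^ 2 ≤ B * s ^ 2 := by
  have h1 := mul_le_mul_of_nonneg_right he (sq_nonneg α)
  have h2 := mul_le_mul_of_nonneg_right ho (sq_nonneg β)
  unfold PD.m2; rw [hs]; linarith

noncomputable def PD.c3 (D : PD) : ℝ := D.p * (2 * D.E ^ 3 + 6 * D.E * D.O ^ 2 * (2 / 5))

lemma PD.m3_le {D : PD} (hp : 0 ≤ D.p) (hE : 0 ≤ D.E) {α β s : ℝ} (hα : 0 ≤ α) (hs0 : 0 ≤ s)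
    (hs : s ^ 2 = α ^ 2 + β ^ 2) : D.m3 α β ≤ D.c3 * s ^ 3 := by
  have h1 : α ≤ s := le_of_sq_le_sq (by nlinarith [sq_nonneg β]) hs0
  have h2 : α ^ 3 ≤ s ^ 3 := by gcongr
  have h3 : α * β ^ 2 ≤ 2 / 5 * s ^ 3 := by
    have : β ^ 2 = s ^ 2 - α ^ 2 := by linarith
    rw [this]
    nlinarith [mul_nonneg (sq_nonneg (α - 3 / 5 * s)) (show 0 ≤ α + 6 / 5 * s by positivity),
      mul_nonneg (sq_nonneg s) (sub_nonneg.2 h1), mul_nonneg (sq_nonneg s) hα, pow_nonneg hs0 3]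
  unfold PD.m3 PD.c3
  calc _ ≤ D.p * (2 * D.E ^ 3 * s ^ 3 + 6 * D.E * D.O ^ 2 * (2 / 5 * s ^ 3)) := by gcongr
    _ = _ := by ring

lemma poly3 {D0 D1 D2 : PD} {C τ ε : ℝ} (B2 B3 B4 B5 B6 : ℝ)
    (p0 : 0 ≤ D0.p) (p1 : 0 ≤ D1.p) (p2 : 0 ≤ D2.p) (e0 : 0 ≤ D0.E) (e1 : 0 ≤ D1.E) (e2 : 0 ≤ D2.E)
    (he : 2 * D0.p * D0.E ^ 2 + 2 * D1.p * D1.E ^ 2 + 2 * D2.p * D2.E ^ 2 + C / τ ^ 4 ≤ B2)
    (ho : 2 * D0.p * D0.O ^ 2 + 2 * D1.p * D1.O ^ 2 + 2 * D2.p * D2.O ^ 2 + C / τ ^ 4 ≤ B2)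
    (h3 : D0.c3 + D1.c3 + D2.c3 + C / τ ^ 3 ≤ B3)
    (h4 : D0.mk' 4 + D1.mk' 4 + D2.mk' 4 + C / τ ^ 2 ≤ B4)
    (h5 : D0.mk' 5 + D1.mk' 5 + D2.mk' 5 + C / τ ^ 1 ≤ B5)
    (h6 : D0.mk' 6 + D1.mk' 6 + D2.mk' 6 + C / τ ^ 0 ≤ B6)
    (n3 : 0 ≤ B3)
    (n5 : 0 ≤ B5)
    (c1 : 15 * B2 + 20 * B3 / 2 ≤ (1 - ε) * 3)
    (c2 : 15 * B4 + 20 * B3 / 2 + 6 * B5 / 2 ≤ (1 - ε) * 3)
    (c3 : 1 * B6 + 6 * B5 / 2 ≤ (1 - ε) * 1)
    : PolyOk 3 ε D0 D1 D2 C τ := by
  intro m α β s M hm hα hβ hs0 hs k2 k3 _ kk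
  have a2 : M 2 ≤ B2 * s ^ 2 := k2.trans (m2_le hs he ho)
  have a3 : M 3 ≤ B3 * s ^ 3 := by
    have := PD.m3_le p0 e0 hα hs0 hs
    have := PD.m3_le p1 e1 hα hs0 hs
    have := PD.m3_le p2 e2 hα hs0 hs
    have := mul_le_mul_of_nonneg_right h3 (pow_nonneg hs0 3)
    norm_num at k3
    linarith
  have a4 : M 4 ≤ B4 * s ^ 4 := (kk 4 (by norm_num) (by norm_num)).trans
    (mul_le_mul_of_nonneg_right h4 (pow_nonneg hs0 _))
  have a5 : M 5 ≤ B5 * s ^ 5 := (kk 5 (by norm_num) (by norm_num)).trans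
    (mul_le_mul_of_nonneg_right h5 (pow_nonneg hs0 _))
  have a6 : M 6 ≤ B6 * s ^ 6 := (kk 6 (by norm_num) (by norm_num)).trans
    (mul_le_mul_of_nonneg_right h6 (pow_nonneg hs0 _))
  have b2 := mul_le_mul_of_nonneg_left a2 (pow_nonneg hm 4)
  have b3 := mul_le_mul_of_nonneg_left a3 (pow_nonneg hm 3)
  have b4 := mul_le_mul_of_nonneg_left a4 (pow_nonneg hm 2)
  have b5 := mul_le_mul_of_nonneg_left a5 (pow_nonneg hm 1)
  have b6 := mul_le_mul_of_nonneg_left a6 (pow_nonneg hm 0)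
  have o3 : 0 ≤ B3 * (m ^ 2 * s ^ 2 * (m - s) ^ 2) := by positivity
  have o5 : 0 ≤ B5 * (m ^ 0 * s ^ 4 * (m - s) ^ 2) := by positivity
  have d1 := mul_le_mul_of_nonneg_right c1 (show 0 ≤ m ^ 4 * s ^ 2 by positivity)
  have d2 := mul_le_mul_of_nonneg_right c2 (show 0 ≤ m ^ 2 * s ^ 4 by positivity)
  have d3 := mul_le_mul_of_nonneg_right c3 (show 0 ≤ m ^ 0 * s ^ 6 by positivity)
  simp only [sum_range_succ, sum_range_zero]
  norm_num [Nat.choose]
  linarith

lemma poly4 {D0 D1 D2 : PD} {C τ ε : ℝ} (B2 B3 B4 B5 B6 B7 B8 : ℝ)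
    (p0 : 0 ≤ D0.p) (p1 : 0 ≤ D1.p) (p2 : 0 ≤ D2.p) (e0 : 0 ≤ D0.E) (e1 : 0 ≤ D1.E) (e2 : 0 ≤ D2.E)
    (he : 2 * D0.p * D0.E ^ 2 + 2 * D1.p * D1.E ^ 2 + 2 * D2.p * D2.E ^ 2 + C / τ ^ 6 ≤ B2)
    (ho : 2 * D0.p * D0.O ^ 2 + 2 * D1.p * D1.O ^ 2 + 2 * D2.p * D2.O ^ 2 + C / τ ^ 6 ≤ B2)
    (h3 : D0.c3 + D1.c3 + D2.c3 + C / τ ^ 5 ≤ B3)
    (h4 : D0.mk' 4 + D1.mk' 4 + D2.mk' 4 + C / τ ^ 4 ≤ B4)
    (h5 : D0.mk' 5 + D1.mk' 5 + D2.mk' 5 + C / τ ^ 3 ≤ B5)
    (h6 : D0.mk' 6 + D1.mk' 6 + D2.mk' 6 + C / τ ^ 2 ≤ B6)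
    (h7 : D0.mk' 7 + D1.mk' 7 + D2.mk' 7 + C / τ ^ 1 ≤ B7)
    (h8 : D0.mk' 8 + D1.mk' 8 + D2.mk' 8 + C / τ ^ 0 ≤ B8)
    (n3 : 0 ≤ B3)
    (n5 : 0 ≤ B5)
    (n7 : 0 ≤ B7)
    (c1 : 28 * B2 + 56 * B3 / 2 ≤ (1 - ε) * 4)
    (c2 : 70 * B4 + 56 * B3 / 2 + 56 * B5 / 2 ≤ (1 - ε) * 6)
    (c3 : 28 * B6 + 56 * B5 / 2 + 8 * B7 / 2 ≤ (1 - ε) * 4)
    (c4 : 1 * B8 + 8 * B7 / 2 ≤ (1 - ε) * 1)
    : PolyOk 4 ε D0 D1 D2 C τ := by
  intro m α β s M hm hα hβ hs0 hs k2 k3 _ kk
  have a2 : M 2 ≤ B2 * s ^ 2 := k2.trans (m2_le hs he ho)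
  have a3 : M 3 ≤ B3 * s ^ 3 := by
    have := PD.m3_le p0 e0 hα hs0 hs
    have := PD.m3_le p1 e1 hα hs0 hs
    have := PD.m3_le p2 e2 hα hs0 hs
    have := mul_le_mul_of_nonneg_right h3 (pow_nonneg hs0 3)
    norm_num at k3
    linarith
  have a4 : M 4 ≤ B4 * s ^ 4 := (kk 4 (by norm_num) (by norm_num)).trans
    (mul_le_mul_of_nonneg_right h4 (pow_nonneg hs0 _))
  have a5 : M 5 ≤ B5 * s ^ 5 := (kk 5 (by norm_num) (by norm_num)).trans
    (mul_le_mul_of_nonneg_right h5 (pow_nonneg hs0 _))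
  have a6 : M 6 ≤ B6 * s ^ 6 := (kk 6 (by norm_num) (by norm_num)).trans
    (mul_le_mul_of_nonneg_right h6 (pow_nonneg hs0 _))
  have a7 : M 7 ≤ B7 * s ^ 7 := (kk 7 (by norm_num) (by norm_num)).trans
    (mul_le_mul_of_nonneg_right h7 (pow_nonneg hs0 _))
  have a8 : M 8 ≤ B8 * s ^ 8 := (kk 8 (by norm_num) (by norm_num)).trans
    (mul_le_mul_of_nonneg_right h8 (pow_nonneg hs0 _))
  have b2 := mul_le_mul_of_nonneg_left a2 (pow_nonneg hm 6)
  have b3 := mul_le_mul_of_nonneg_left a3 (pow_nonneg hm 5)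
  have b4 := mul_le_mul_of_nonneg_left a4 (pow_nonneg hm 4)
  have b5 := mul_le_mul_of_nonneg_left a5 (pow_nonneg hm 3)
  have b6 := mul_le_mul_of_nonneg_left a6 (pow_nonneg hm 2)
  have b7 := mul_le_mul_of_nonneg_left a7 (pow_nonneg hm 1)
  have b8 := mul_le_mul_of_nonneg_left a8 (pow_nonneg hm 0)
  have o3 : 0 ≤ B3 * (m ^ 4 * s ^ 2 * (m - s) ^ 2) := by positivity
  have o5 : 0 ≤ B5 * (m ^ 2 * s ^ 4 * (m - s) ^ 2) := by positivity
  have o7 : 0 ≤ B7 * (m ^ 0 * s ^ 6 * (m - s) ^ 2) := by positivity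
  have d1 := mul_le_mul_of_nonneg_right c1 (show 0 ≤ m ^ 6 * s ^ 2 by positivity)
  have d2 := mul_le_mul_of_nonneg_right c2 (show 0 ≤ m ^ 4 * s ^ 4 by positivity)
  have d3 := mul_le_mul_of_nonneg_right c3 (show 0 ≤ m ^ 2 * s ^ 6 by positivity)
  have d4 := mul_le_mul_of_nonneg_right c4 (show 0 ≤ m ^ 0 * s ^ 8 by positivity)
  simp only [sum_range_succ, sum_range_zero]
  norm_num [Nat.choose]
  linarith

lemma poly5 {D0 D1 D2 : PD} {C τ ε : ℝ} (B2 B3 B4 B5 B6 B7 B8 B9 B10 : ℝ)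
    (p0 : 0 ≤ D0.p) (p1 : 0 ≤ D1.p) (p2 : 0 ≤ D2.p) (e0 : 0 ≤ D0.E) (e1 : 0 ≤ D1.E) (e2 : 0 ≤ D2.E)
    (he : 2 * D0.p * D0.E ^ 2 + 2 * D1.p * D1.E ^ 2 + 2 * D2.p * D2.E ^ 2 + C / τ ^ 8 ≤ B2)
    (ho : 2 * D0.p * D0.O ^ 2 + 2 * D1.p * D1.O ^ 2 + 2 * D2.p * D2.O ^ 2 + C / τ ^ 8 ≤ B2)
    (h3 : D0.c3 + D1.c3 + D2.c3 + C / τ ^ 7 ≤ B3)
    (h4 : D0.mk' 4 + D1.mk' 4 + D2.mk' 4 + C / τ ^ 6 ≤ B4)
    (h5 : D0.mk' 5 + D1.mk' 5 + D2.mk' 5 + C / τ ^ 5 ≤ B5)
    (h6 : D0.mk' 6 + D1.mk' 6 + D2.mk' 6 + C / τ ^ 4 ≤ B6)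
    (h7 : D0.mk' 7 + D1.mk' 7 + D2.mk' 7 + C / τ ^ 3 ≤ B7)
    (h8 : D0.mk' 8 + D1.mk' 8 + D2.mk' 8 + C / τ ^ 2 ≤ B8)
    (h9 : D0.mk' 9 + D1.mk' 9 + D2.mk' 9 + C / τ ^ 1 ≤ B9)
    (h10 : D0.mk' 10 + D1.mk' 10 + D2.mk' 10 + C / τ ^ 0 ≤ B10)
    (n3 : 0 ≤ B3)
    (n5 : 0 ≤ B5)
    (n7 : 0 ≤ B7)
    (n9 : 0 ≤ B9)
    (c1 : 45 * B2 + 120 * B3 / 2 ≤ (1 - ε) * 5)
    (c2 : 210 * B4 + 120 * B3 / 2 + 252 * B5 / 2 ≤ (1 - ε) * 10)
    (c3 : 210 * B6 + 252 * B5 / 2 + 120 * B7 / 2 ≤ (1 - ε) * 10)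
    (c4 : 45 * B8 + 120 * B7 / 2 + 10 * B9 / 2 ≤ (1 - ε) * 5)
    (c5 : 1 * B10 + 10 * B9 / 2 ≤ (1 - ε) * 1)
    : PolyOk 5 ε D0 D1 D2 C τ := by
  intro m α β s M hm hα hβ hs0 hs k2 k3 _ kk
  have a2 : M 2 ≤ B2 * s ^ 2 := k2.trans (m2_le hs he ho)
  have a3 : M 3 ≤ B3 * s ^ 3 := by
    have := PD.m3_le p0 e0 hα hs0 hs
    have := PD.m3_le p1 e1 hα hs0 hs
    have := PD.m3_le p2 e2 hα hs0 hs
    have := mul_le_mul_of_nonneg_right h3 (pow_nonneg hs0 3)
    norm_num at k3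
    linarith
  have a4 : M 4 ≤ B4 * s ^ 4 := (kk 4 (by norm_num) (by norm_num)).trans
    (mul_le_mul_of_nonneg_right h4 (pow_nonneg hs0 _))
  have a5 : M 5 ≤ B5 * s ^ 5 := (kk 5 (by norm_num) (by norm_num)).trans
    (mul_le_mul_of_nonneg_right h5 (pow_nonneg hs0 _))
  have a6 : M 6 ≤ B6 * s ^ 6 := (kk 6 (by norm_num) (by norm_num)).trans
    (mul_le_mul_of_nonneg_right h6 (pow_nonneg hs0 _))
  have a7 : M 7 ≤ B7 * s ^ 7 := (kk 7 (by norm_num) (by norm_num)).trans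
    (mul_le_mul_of_nonneg_right h7 (pow_nonneg hs0 _))
  have a8 : M 8 ≤ B8 * s ^ 8 := (kk 8 (by norm_num) (by norm_num)).trans
    (mul_le_mul_of_nonneg_right h8 (pow_nonneg hs0 _))
  have a9 : M 9 ≤ B9 * s ^ 9 := (kk 9 (by norm_num) (by norm_num)).trans
    (mul_le_mul_of_nonneg_right h9 (pow_nonneg hs0 _))
  have a10 : M 10 ≤ B10 * s ^ 10 := (kk 10 (by norm_num) (by norm_num)).trans
    (mul_le_mul_of_nonneg_right h10 (pow_nonneg hs0 _))
  have b2 := mul_le_mul_of_nonneg_left a2 (pow_nonneg hm 8)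
  have b3 := mul_le_mul_of_nonneg_left a3 (pow_nonneg hm 7)
  have b4 := mul_le_mul_of_nonneg_left a4 (pow_nonneg hm 6)
  have b5 := mul_le_mul_of_nonneg_left a5 (pow_nonneg hm 5)
  have b6 := mul_le_mul_of_nonneg_left a6 (pow_nonneg hm 4)
  have b7 := mul_le_mul_of_nonneg_left a7 (pow_nonneg hm 3)
  have b8 := mul_le_mul_of_nonneg_left a8 (pow_nonneg hm 2)
  have b9 := mul_le_mul_of_nonneg_left a9 (pow_nonneg hm 1)
  have b10 := mul_le_mul_of_nonneg_left a10 (pow_nonneg hm 0)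
  have o3 : 0 ≤ B3 * (m ^ 6 * s ^ 2 * (m - s) ^ 2) := by positivity
  have o5 : 0 ≤ B5 * (m ^ 4 * s ^ 4 * (m - s) ^ 2) := by positivity
  have o7 : 0 ≤ B7 * (m ^ 2 * s ^ 6 * (m - s) ^ 2) := by positivity
  have o9 : 0 ≤ B9 * (m ^ 0 * s ^ 8 * (m - s) ^ 2) := by positivity
  have d1 := mul_le_mul_of_nonneg_right c1 (show 0 ≤ m ^ 8 * s ^ 2 by positivity)
  have d2 := mul_le_mul_of_nonneg_right c2 (show 0 ≤ m ^ 6 * s ^ 4 by positivity)
  have d3 := mul_le_mul_of_nonneg_right c3 (show 0 ≤ m ^ 4 * s ^ 6 by positivity)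
  have d4 := mul_le_mul_of_nonneg_right c4 (show 0 ≤ m ^ 2 * s ^ 8 by positivity)
  have d5 := mul_le_mul_of_nonneg_right c5 (show 0 ≤ m ^ 0 * s ^ 10 by positivity)
  simp only [sum_range_succ, sum_range_zero]
  norm_num [Nat.choose]
  linarith

lemma poly6 {D0 D1 D2 : PD} {C τ ε : ℝ} (B2 B3 B4 B5 B6 B7 B8 B9 B10 B11 B12 : ℝ)
    (p0 : 0 ≤ D0.p) (p1 : 0 ≤ D1.p) (p2 : 0 ≤ D2.p) (e0 : 0 ≤ D0.E) (e1 : 0 ≤ D1.E) (e2 : 0 ≤ D2.E)
    (he : 2 * D0.p * D0.E ^ 2 + 2 * D1.p * D1.E ^ 2 + 2 * D2.p * D2.E ^ 2 + C / τ ^ 10 ≤ B2)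
    (ho : 2 * D0.p * D0.O ^ 2 + 2 * D1.p * D1.O ^ 2 + 2 * D2.p * D2.O ^ 2 + C / τ ^ 10 ≤ B2)
    (h3 : D0.c3 + D1.c3 + D2.c3 + C / τ ^ 9 ≤ B3)
    (h4 : D0.mk' 4 + D1.mk' 4 + D2.mk' 4 + C / τ ^ 8 ≤ B4)
    (h5 : D0.mk' 5 + D1.mk' 5 + D2.mk' 5 + C / τ ^ 7 ≤ B5)
    (h6 : D0.mk' 6 + D1.mk' 6 + D2.mk' 6 + C / τ ^ 6 ≤ B6)
    (h7 : D0.mk' 7 + D1.mk' 7 + D2.mk' 7 + C / τ ^ 5 ≤ B7)
    (h8 : D0.mk' 8 + D1.mk' 8 + D2.mk' 8 + C / τ ^ 4 ≤ B8)
    (h9 : D0.mk' 9 + D1.mk' 9 + D2.mk' 9 + C / τ ^ 3 ≤ B9)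
    (h10 : D0.mk' 10 + D1.mk' 10 + D2.mk' 10 + C / τ ^ 2 ≤ B10)
    (h11 : D0.mk' 11 + D1.mk' 11 + D2.mk' 11 + C / τ ^ 1 ≤ B11)
    (h12 : D0.mk' 12 + D1.mk' 12 + D2.mk' 12 + C / τ ^ 0 ≤ B12)
    (n3 : 0 ≤ B3)
    (n5 : 0 ≤ B5)
    (n7 : 0 ≤ B7)
    (n9 : 0 ≤ B9)
    (n11 : 0 ≤ B11)
    (c1 : 66 * B2 + 220 * B3 / 2 ≤ (1 - ε) * 6)
    (c2 : 495 * B4 + 220 * B3 / 2 + 792 * B5 / 2 ≤ (1 - ε) * 15)
    (c3 : 924 * B6 + 792 * B5 / 2 + 792 * B7 / 2 ≤ (1 - ε) * 20)
    (c4 : 495 * B8 + 792 * B7 / 2 + 220 * B9 / 2 ≤ (1 - ε) * 15)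
    (c5 : 66 * B10 + 220 * B9 / 2 + 12 * B11 / 2 ≤ (1 - ε) * 6)
    (c6 : 1 * B12 + 12 * B11 / 2 ≤ (1 - ε) * 1)
    : PolyOk 6 ε D0 D1 D2 C τ := by
  intro m α β s M hm hα hβ hs0 hs k2 k3 _ kk
  have a2 : M 2 ≤ B2 * s ^ 2 := k2.trans (m2_le hs he ho)
  have a3 : M 3 ≤ B3 * s ^ 3 := by
    have := PD.m3_le p0 e0 hα hs0 hs
    have := PD.m3_le p1 e1 hα hs0 hs
    have := PD.m3_le p2 e2 hα hs0 hs
    have := mul_le_mul_of_nonneg_right h3 (pow_nonneg hs0 3)
    norm_num at k3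
    linarith
  have a4 : M 4 ≤ B4 * s ^ 4 := (kk 4 (by norm_num) (by norm_num)).trans
    (mul_le_mul_of_nonneg_right h4 (pow_nonneg hs0 _))
  have a5 : M 5 ≤ B5 * s ^ 5 := (kk 5 (by norm_num) (by norm_num)).trans
    (mul_le_mul_of_nonneg_right h5 (pow_nonneg hs0 _))
  have a6 : M 6 ≤ B6 * s ^ 6 := (kk 6 (by norm_num) (by norm_num)).trans
    (mul_le_mul_of_nonneg_right h6 (pow_nonneg hs0 _))
  have a7 : M 7 ≤ B7 * s ^ 7 := (kk 7 (by norm_num) (by norm_num)).trans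
    (mul_le_mul_of_nonneg_right h7 (pow_nonneg hs0 _))
  have a8 : M 8 ≤ B8 * s ^ 8 := (kk 8 (by norm_num) (by norm_num)).trans
    (mul_le_mul_of_nonneg_right h8 (pow_nonneg hs0 _))
  have a9 : M 9 ≤ B9 * s ^ 9 := (kk 9 (by norm_num) (by norm_num)).trans
    (mul_le_mul_of_nonneg_right h9 (pow_nonneg hs0 _))
  have a10 : M 10 ≤ B10 * s ^ 10 := (kk 10 (by norm_num) (by norm_num)).trans
    (mul_le_mul_of_nonneg_right h10 (pow_nonneg hs0 _))
  have a11 : M 11 ≤ B11 * s ^ 11 := (kk 11 (by norm_num) (by norm_num)).trans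
    (mul_le_mul_of_nonneg_right h11 (pow_nonneg hs0 _))
  have a12 : M 12 ≤ B12 * s ^ 12 := (kk 12 (by norm_num) (by norm_num)).trans
    (mul_le_mul_of_nonneg_right h12 (pow_nonneg hs0 _))
  have b2 := mul_le_mul_of_nonneg_left a2 (pow_nonneg hm 10)
  have b3 := mul_le_mul_of_nonneg_left a3 (pow_nonneg hm 9)
  have b4 := mul_le_mul_of_nonneg_left a4 (pow_nonneg hm 8)
  have b5 := mul_le_mul_of_nonneg_left a5 (pow_nonneg hm 7)
  have b6 := mul_le_mul_of_nonneg_left a6 (pow_nonneg hm 6)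
  have b7 := mul_le_mul_of_nonneg_left a7 (pow_nonneg hm 5)
  have b8 := mul_le_mul_of_nonneg_left a8 (pow_nonneg hm 4)
  have b9 := mul_le_mul_of_nonneg_left a9 (pow_nonneg hm 3)
  have b10 := mul_le_mul_of_nonneg_left a10 (pow_nonneg hm 2)
  have b11 := mul_le_mul_of_nonneg_left a11 (pow_nonneg hm 1)
  have b12 := mul_le_mul_of_nonneg_left a12 (pow_nonneg hm 0)
  have o3 : 0 ≤ B3 * (m ^ 8 * s ^ 2 * (m - s) ^ 2) := by positivity
  have o5 : 0 ≤ B5 * (m ^ 6 * s ^ 4 * (m - s) ^ 2) := by positivity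
  have o7 : 0 ≤ B7 * (m ^ 4 * s ^ 6 * (m - s) ^ 2) := by positivity
  have o9 : 0 ≤ B9 * (m ^ 2 * s ^ 8 * (m - s) ^ 2) := by positivity
  have o11 : 0 ≤ B11 * (m ^ 0 * s ^ 10 * (m - s) ^ 2) := by positivity
  have d1 := mul_le_mul_of_nonneg_right c1 (show 0 ≤ m ^ 10 * s ^ 2 by positivity)
  have d2 := mul_le_mul_of_nonneg_right c2 (show 0 ≤ m ^ 8 * s ^ 4 by positivity)
  have d3 := mul_le_mul_of_nonneg_right c3 (show 0 ≤ m ^ 6 * s ^ 6 by positivity)
  have d4 := mul_le_mul_of_nonneg_right c4 (show 0 ≤ m ^ 4 * s ^ 8 by positivity)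
  have d5 := mul_le_mul_of_nonneg_right c5 (show 0 ≤ m ^ 2 * s ^ 10 by positivity)
  have d6 := mul_le_mul_of_nonneg_right c6 (show 0 ≤ m ^ 0 * s ^ 12 by positivity)
  simp only [sum_range_succ, sum_range_zero]
  norm_num [Nat.choose]
  linarith

lemma poly7 {D0 D1 D2 : PD} {C τ ε : ℝ} (B2 B3 B4 B5 B6 B7 B8 B9 B10 B11 B12 B13 B14 : ℝ)
    (p0 : 0 ≤ D0.p) (p1 : 0 ≤ D1.p) (p2 : 0 ≤ D2.p) (e0 : 0 ≤ D0.E) (e1 : 0 ≤ D1.E) (e2 : 0 ≤ D2.E)
    (he : 2 * D0.p * D0.E ^ 2 + 2 * D1.p * D1.E ^ 2 + 2 * D2.p * D2.E ^ 2 + C / τ ^ 12 ≤ B2)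
    (ho : 2 * D0.p * D0.O ^ 2 + 2 * D1.p * D1.O ^ 2 + 2 * D2.p * D2.O ^ 2 + C / τ ^ 12 ≤ B2)
    (h3 : D0.c3 + D1.c3 + D2.c3 + C / τ ^ 11 ≤ B3)
    (h4 : D0.mk' 4 + D1.mk' 4 + D2.mk' 4 + C / τ ^ 10 ≤ B4)
    (h5 : D0.mk' 5 + D1.mk' 5 + D2.mk' 5 + C / τ ^ 9 ≤ B5)
    (h6 : D0.mk' 6 + D1.mk' 6 + D2.mk' 6 + C / τ ^ 8 ≤ B6)
    (h7 : D0.mk' 7 + D1.mk' 7 + D2.mk' 7 + C / τ ^ 7 ≤ B7)
    (h8 : D0.mk' 8 + D1.mk' 8 + D2.mk' 8 + C / τ ^ 6 ≤ B8)
    (h9 : D0.mk' 9 + D1.mk' 9 + D2.mk' 9 + C / τ ^ 5 ≤ B9)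
    (h10 : D0.mk' 10 + D1.mk' 10 + D2.mk' 10 + C / τ ^ 4 ≤ B10)
    (h11 : D0.mk' 11 + D1.mk' 11 + D2.mk' 11 + C / τ ^ 3 ≤ B11)
    (h12 : D0.mk' 12 + D1.mk' 12 + D2.mk' 12 + C / τ ^ 2 ≤ B12)
    (h13 : D0.mk' 13 + D1.mk' 13 + D2.mk' 13 + C / τ ^ 1 ≤ B13)
    (h14 : D0.mk' 14 + D1.mk' 14 + D2.mk' 14 + C / τ ^ 0 ≤ B14)
    (n3 : 0 ≤ B3)
    (n5 : 0 ≤ B5)
    (n7 : 0 ≤ B7)
    (n9 : 0 ≤ B9)
    (n11 : 0 ≤ B11)
    (n13 : 0 ≤ B13)
    (c1 : 91 * B2 + 364 * B3 / 2 ≤ (1 - ε) * 7)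
    (c2 : 1001 * B4 + 364 * B3 / 2 + 2002 * B5 / 2 ≤ (1 - ε) * 21)
    (c3 : 3003 * B6 + 2002 * B5 / 2 + 3432 * B7 / 2 ≤ (1 - ε) * 35)
    (c4 : 3003 * B8 + 3432 * B7 / 2 + 2002 * B9 / 2 ≤ (1 - ε) * 35)
    (c5 : 1001 * B10 + 2002 * B9 / 2 + 364 * B11 / 2 ≤ (1 - ε) * 21)
    (c6 : 91 * B12 + 364 * B11 / 2 + 14 * B13 / 2 ≤ (1 - ε) * 7)
    (c7 : 1 * B14 + 14 * B13 / 2 ≤ (1 - ε) * 1)
    : PolyOk 7 ε D0 D1 D2 C τ := by
  intro m α β s M hm hα hβ hs0 hs k2 k3 _ kk
  have a2 : M 2 ≤ B2 * s ^ 2 := k2.trans (m2_le hs he ho)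
  have a3 : M 3 ≤ B3 * s ^ 3 := by
    have := PD.m3_le p0 e0 hα hs0 hs
    have := PD.m3_le p1 e1 hα hs0 hs
    have := PD.m3_le p2 e2 hα hs0 hs
    have := mul_le_mul_of_nonneg_right h3 (pow_nonneg hs0 3)
    norm_num at k3
    linarith
  have a4 : M 4 ≤ B4 * s ^ 4 := (kk 4 (by norm_num) (by norm_num)).trans
    (mul_le_mul_of_nonneg_right h4 (pow_nonneg hs0 _))
  have a5 : M 5 ≤ B5 * s ^ 5 := (kk 5 (by norm_num) (by norm_num)).trans
    (mul_le_mul_of_nonneg_right h5 (pow_nonneg hs0 _))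
  have a6 : M 6 ≤ B6 * s ^ 6 := (kk 6 (by norm_num) (by norm_num)).trans
    (mul_le_mul_of_nonneg_right h6 (pow_nonneg hs0 _))
  have a7 : M 7 ≤ B7 * s ^ 7 := (kk 7 (by norm_num) (by norm_num)).trans
    (mul_le_mul_of_nonneg_right h7 (pow_nonneg hs0 _))
  have a8 : M 8 ≤ B8 * s ^ 8 := (kk 8 (by norm_num) (by norm_num)).trans
    (mul_le_mul_of_nonneg_right h8 (pow_nonneg hs0 _))
  have a9 : M 9 ≤ B9 * s ^ 9 := (kk 9 (by norm_num) (by norm_num)).trans
    (mul_le_mul_of_nonneg_right h9 (pow_nonneg hs0 _))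
  have a10 : M 10 ≤ B10 * s ^ 10 := (kk 10 (by norm_num) (by norm_num)).trans
    (mul_le_mul_of_nonneg_right h10 (pow_nonneg hs0 _))
  have a11 : M 11 ≤ B11 * s ^ 11 := (kk 11 (by norm_num) (by norm_num)).trans
    (mul_le_mul_of_nonneg_right h11 (pow_nonneg hs0 _))
  have a12 : M 12 ≤ B12 * s ^ 12 := (kk 12 (by norm_num) (by norm_num)).trans
    (mul_le_mul_of_nonneg_right h12 (pow_nonneg hs0 _))
  have a13 : M 13 ≤ B13 * s ^ 13 := (kk 13 (by norm_num) (by norm_num)).trans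
    (mul_le_mul_of_nonneg_right h13 (pow_nonneg hs0 _))
  have a14 : M 14 ≤ B14 * s ^ 14 := (kk 14 (by norm_num) (by norm_num)).trans
    (mul_le_mul_of_nonneg_right h14 (pow_nonneg hs0 _))
  have b2 := mul_le_mul_of_nonneg_left a2 (pow_nonneg hm 12)
  have b3 := mul_le_mul_of_nonneg_left a3 (pow_nonneg hm 11)
  have b4 := mul_le_mul_of_nonneg_left a4 (pow_nonneg hm 10)
  have b5 := mul_le_mul_of_nonneg_left a5 (pow_nonneg hm 9)
  have b6 := mul_le_mul_of_nonneg_left a6 (pow_nonneg hm 8)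
  have b7 := mul_le_mul_of_nonneg_left a7 (pow_nonneg hm 7)
  have b8 := mul_le_mul_of_nonneg_left a8 (pow_nonneg hm 6)
  have b9 := mul_le_mul_of_nonneg_left a9 (pow_nonneg hm 5)
  have b10 := mul_le_mul_of_nonneg_left a10 (pow_nonneg hm 4)
  have b11 := mul_le_mul_of_nonneg_left a11 (pow_nonneg hm 3)
  have b12 := mul_le_mul_of_nonneg_left a12 (pow_nonneg hm 2)
  have b13 := mul_le_mul_of_nonneg_left a13 (pow_nonneg hm 1)
  have b14 := mul_le_mul_of_nonneg_left a14 (pow_nonneg hm 0)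
  have o3 : 0 ≤ B3 * (m ^ 10 * s ^ 2 * (m - s) ^ 2) := by positivity
  have o5 : 0 ≤ B5 * (m ^ 8 * s ^ 4 * (m - s) ^ 2) := by positivity
  have o7 : 0 ≤ B7 * (m ^ 6 * s ^ 6 * (m - s) ^ 2) := by positivity
  have o9 : 0 ≤ B9 * (m ^ 4 * s ^ 8 * (m - s) ^ 2) := by positivity
  have o11 : 0 ≤ B11 * (m ^ 2 * s ^ 10 * (m - s) ^ 2) := by positivity
  have o13 : 0 ≤ B13 * (m ^ 0 * s ^ 12 * (m - s) ^ 2) := by positivity
  have d1 := mul_le_mul_of_nonneg_right c1 (show 0 ≤ m ^ 12 * s ^ 2 by positivity)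
  have d2 := mul_le_mul_of_nonneg_right c2 (show 0 ≤ m ^ 10 * s ^ 4 by positivity)
  have d3 := mul_le_mul_of_nonneg_right c3 (show 0 ≤ m ^ 8 * s ^ 6 by positivity)
  have d4 := mul_le_mul_of_nonneg_right c4 (show 0 ≤ m ^ 6 * s ^ 8 by positivity)
  have d5 := mul_le_mul_of_nonneg_right c5 (show 0 ≤ m ^ 4 * s ^ 10 by positivity)
  have d6 := mul_le_mul_of_nonneg_right c6 (show 0 ≤ m ^ 2 * s ^ 12 by positivity)
  have d7 := mul_le_mul_of_nonneg_right c7 (show 0 ≤ m ^ 0 * s ^ 14 by positivity)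
  simp only [sum_range_succ, sum_range_zero]
  norm_num [Nat.choose]
  linarith

lemma poly2 {D0 D1 D2 : PD} {C τ ε : ℝ} (Ae Ao c30 c12 T3 q40 q22 q04 : ℝ)
    (he : 2 * D0.p * D0.E ^ 2 + 2 * D1.p * D1.E ^ 2 + 2 * D2.p * D2.E ^ 2 + C / τ ^ 2 ≤ Ae)
    (ho : 2 * D0.p * D0.O ^ 2 + 2 * D1.p * D1.O ^ 2 + 2 * D2.p * D2.O ^ 2 + C / τ ^ 2 ≤ Ao)
    (h30 : 2 * D0.p * D0.E ^ 3 + 2 * D1.p * D1.E ^ 3 + 2 * D2.p * D2.E ^ 3 ≤ c30)
    (h12 : 6 * D0.p * D0.E * D0.O ^ 2 + 6 * D1.p * D1.E * D1.O ^ 2 + 6 * D2.p * D2.E * D2.O ^ 2 ≤ c12)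
    (hT : C / τ ≤ T3)
    (h40 : 2 * D0.p * D0.E ^ 4 + 2 * D1.p * D1.E ^ 4 + 2 * D2.p * D2.E ^ 4 + C ≤ q40)
    (h22 : 12 * D0.p * D0.E ^ 2 * D0.O ^ 2 + 12 * D1.p * D1.E ^ 2 * D1.O ^ 2 +
      12 * D2.p * D2.E ^ 2 * D2.O ^ 2 + 2 * C ≤ q22)
    (h04 : 2 * D0.p * D0.O ^ 4 + 2 * D1.p * D1.O ^ 4 + 2 * D2.p * D2.O ^ 4 + C ≤ q04)
    (hF : ∀ m α β s : ℝ, s ^ 2 = α ^ 2 + β ^ 2 →
      6 * m ^ 2 * (Ae * α ^ 2 + Ao * β ^ 2) + 4 * m * (c30 * α ^ 3 + c12 * (α * β ^ 2) + T3 * s ^ 3)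
        + (q40 * α ^ 4 + q22 * (α ^ 2 * β ^ 2) + q04 * β ^ 4) ≤
        (1 - ε) * (2 * m ^ 2 * s ^ 2 + s ^ 4)) : PolyOk 2 ε D0 D1 D2 C τ := by
  intro m α β s M hm hα hβ hs0 hs k2 k3 k4 _
  norm_num at k2 k3 k4
  have a2 : M 2 ≤ Ae * α ^ 2 + Ao * β ^ 2 := by
    have h1 := mul_le_mul_of_nonneg_right he (sq_nonneg α)
    have h2 := mul_le_mul_of_nonneg_right ho (sq_nonneg β)
    unfold PD.m2 at k2; rw [hs] at k2; linarith
  have a3 : M 3 ≤ c30 * α ^ 3 + c12 * (α * β ^ 2) + T3 * s ^ 3 := by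
    have h1 := mul_le_mul_of_nonneg_right h30 (pow_nonneg hα 3)
    have h2 := mul_le_mul_of_nonneg_right h12 (show 0 ≤ α * β ^ 2 by positivity)
    have h3 := mul_le_mul_of_nonneg_right hT (pow_nonneg hs0 3)
    unfold PD.m3 at k3; linarith
  have a4 : M 4 ≤ q40 * α ^ 4 + q22 * (α ^ 2 * β ^ 2) + q04 * β ^ 4 := by
    have h1 := mul_le_mul_of_nonneg_right h40 (pow_nonneg hα 4)
    have h2 := mul_le_mul_of_nonneg_right h22 (show 0 ≤ α ^ 2 * β ^ 2 by positivity)
    have h3 := mul_le_mul_of_nonneg_right h04 (pow_nonneg hβ 4)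
    have h4 : s ^ 4 = (α ^ 2 + β ^ 2) ^ 2 := by rw [← hs]; ring
    unfold PD.m4 at k4; rw [h4] at k4; linarith
  have b2 := mul_le_mul_of_nonneg_left a2 (pow_nonneg hm 2)
  have b3 := mul_le_mul_of_nonneg_left a3 hm
  have := hF m α β s hs
  simp only [sum_range_succ, sum_range_zero]
  norm_num [Nat.choose]
  linarith

theorem good_of {c d : ℕ} (hc : c ≤ 1) (hd : 2 ≤ d) (N0 : ℕ) (B : Bx)
    (h1 : (Bx.iter c d N0 ⟨0, 0, 0, 0, 0, 0, 0, 0⟩).sub B = true) (h2 : (B.step c d).sub B = true)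
    {l1 u1 l2 u2 l3 u3 l4 u4 w2 w3 κ yl0 yl1 yl2 yl3 yu0 yu1 yu2 yu3 g1 g2 g3 Zl Zu ρ θ θ' C τ ε : ℝ}
    {D0 D1 D2 : PD} (hB : ∀ h, B.Mem h → InB l1 u1 l2 u2 l3 u3 l4 u4 h)
    (K : ContrCert c d l1 u1 u2 u3 u4 w2 w3 κ)
    (N : NumCert c d l1 u1 l2 u2 l3 u3 l4 u4 yl0 yl1 yl2 yl3 yu0 yu1 yu2 yu3 g1 g2 g3
      Zl Zu ρ θ θ' C τ D0 D1 D2) (hε : 0 < ε) (R : PolyOk d ε D0 D1 D2 C τ) : Good c d := by
  obtain ⟨h, F, hb⟩ := exists_fix hc hd K fun N => hB _ (mem_eventually hc hd h1 h2 N)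
  exact ⟨h, ε, F, hε, hch_of hc hd F hb N hε.le R⟩

end Pool.Agent.P.MP_23c5a6_pr
end

-- part Pool.Agent.P.MP_23c5a6_pr.Num
section

namespace Pool.Agent.P.MP_23c5a6_pr

theorem good_0_2 : Good 0 2 := by
  refine good_of (by norm_num) (by norm_num) 19
    ⟨5992102960000000000000000000000000000000,
     5992126930000000000000000000000000000000,
     1025592870000000000000000000000000000000,
     1025613390000000000000000000000000000000,
     22739471700000000000000000000000000000,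
     22740836200000000000000000000000000000,
     10682508300000000000000000000000000,
     10746796300000000000000000000000000⟩
    (by decide +kernel) (by decide +kernel)
    (l1 := (74901287 / 125000000))
    (u1 := (599212693 / 1000000000))
    (l2 := (102559287 / 1000000000))
    (u2 := (102561339 / 1000000000))
    (l3 := (227394717 / 100000000000))
    (u3 := (113704181 / 50000000000))
    (l4 := (106825083 / 100000000000000))
    (u4 := (107467963 / 100000000000000))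
    (w2 := (3 / 4))
    (w3 := (1 / 20))
    (κ := (19 / 20))
    (yl0 := (4396841 / 2000000))
    (yl1 := (3403539 / 2000000))
    (yl2 := (70404353 / 100000000))
    (yl3 := (1048343 / 10000000))
    (yu0 := (10992127 / 5000000))
    (yu1 := (17017741 / 10000000))
    (yu2 := (17601203 / 25000000))
    (yu3 := (209673 / 2000000))
    (g1 := (880279 / 2500000))
    (g2 := (364187 / 2500000))
    (g3 := (1084609 / 50000000))
    (Zl := (1095567 / 250000))
    (Zu := (4382927 / 1000000))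
    (ρ := (149 / 1000))
    (θ := (2 / 5))
    (θ' := (1 / 20))
    (C := (4511 / 10000))
    (τ := (817 / 100))
    (ε := (1 / 1000))
    (D0 := ⟨(6271 / 25000), (1131 / 5000), 0, (2263 / 10000), (51167 / 1000000)⟩)
    (D1 := ⟨(2327 / 10000), (319 / 1250), (3069 / 5000), (831 / 1250), (9419 / 25000)⟩)
    (D2 := ⟨(8239 / 500000), (1139 / 1000), (379 / 250), (1897 / 1000), (22983 / 10000)⟩)
    (fun h hh => ?_) ?_ ?_ (by norm_num) ?_
  · unfold Bx.Mem at hh; convert hh using 1 <;> norm_num [SS]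
  · constructor <;> norm_num
  · constructor <;> first | (constructor <;> norm_num) | norm_num
  · apply poly2 (211 / 2000) (2579 / 10000) (389 / 6250) (3931 / 10000) (2761 / 50000) (5099 / 10000) (1561 / 1000) (6913 / 10000)
    iterate 8 norm_num
    intro m α β s hs
    have e1 : m ^ 2 * s ^ 2 = m ^ 2 * (α ^ 2 + β ^ 2) := by rw [hs]
    have e2 : s ^ 4 = (α ^ 2 + β ^ 2) ^ 2 := by rw [← hs]; ring
    have h1 := sq_nonneg ((17 / 10) * (m * s) - s ^ 2)
    have h2 := sq_nonneg (m * α + (-107 / 1000) * α ^ 2 + (-433 / 1000) * β ^ 2)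
    have h3 := sq_nonneg (m * β + (-11 / 10) * (α * β))
    have h4 := sq_nonneg (α ^ 2 + (-49 / 200) * β ^ 2)
    have h5 := sq_nonneg (m * α)
    have h6 := sq_nonneg (m * β)
    have h7 := sq_nonneg (α ^ 2)
    have h8 := sq_nonneg (β ^ 2)
    have h9 := sq_nonneg (α * β)
    linarith

theorem good_0_3 : Good 0 3 := by
  refine good_of (by norm_num) (by norm_num) 24
    ⟨4555357020000000000000000000000000000000,
     4555375250000000000000000000000000000000,
     149183035000000000000000000000000000000,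
     149186019000000000000000000000000000000,
     4757285250000000000000000000000000,
     4757761010000000000000000000000000,
     154241824000000000000,
     154318965000000000000⟩
    (by decide +kernel) (by decide +kernel)
    (l1 := (227767851 / 500000000))
    (u1 := (18221501 / 40000000))
    (l2 := (29836607 / 2000000000))
    (u2 := (149186019 / 10000000000))
    (l3 := (19029141 / 40000000000000))
    (u3 := (475776101 / 1000000000000000))
    (l4 := (4820057 / 312500000000000000000000000))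
    (u4 := (30863793 / 2000000000000000000000000000))
    (w2 := (1 / 5))
    (w3 := (1 / 1000))
    (κ := (9 / 10))
    (yl0 := (9555357 / 5000000))
    (yl1 := (735227 / 500000))
    (yl2 := (5880681 / 12500000))
    (yl3 := (14918779 / 1000000000))
    (yu0 := (19110751 / 10000000))
    (yu1 := (7352281 / 5000000))
    (yu2 := (47045661 / 100000000))
    (yu3 := (7459539 / 500000000))
    (g1 := (1548969 / 5000000))
    (g2 := (634221 / 20000000))
    (g3 := (3189109 / 100000000000))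
    (Zl := (816199 / 250000))
    (Zu := (3264809 / 1000000))
    (ρ := (1 / 16))
    (θ := (1 / 20))
    (θ' := (1 / 100))
    (C := (2521 / 10000))
    (τ := (43 / 2))
    (ε := (1 / 1000))
    (D0 := ⟨(7317 / 25000), (1471 / 10000), 0, (92 / 625), (21639 / 1000000)⟩)
    (D1 := ⟨(10259 / 50000), (2189 / 10000), (2539 / 5000), (553 / 1000), (25787 / 100000)⟩)
    (D2 := ⟨(10749 / 5000000), (1233 / 1000), (397 / 250), (2011 / 1000), (12609 / 5000)⟩)
    (fun h hh => ?_) ?_ ?_ (by norm_num) ?_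
  · unfold Bx.Mem at hh; convert hh using 1 <;> norm_num [SS]
  · constructor <;> norm_num
  · constructor <;> first | (constructor <;> norm_num) | norm_num
  · apply poly3 (1167 / 10000) (581 / 10000) (7703 / 100000) (1179 / 10000) (2197 / 5000) <;> norm_num [PD.c3, PD.mk']

theorem good_0_4 : Good 0 4 := by
  refine good_of (by norm_num) (by norm_num) 32
    ⟨3802597460000000000000000000000000000000,
     3802612680000000000000000000000000000000,
     22279214000000000000000000000000000000,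
     22280105300000000000000000000000000000,
     25646371200000000000000000000,
     25651501100000000000000000000,
     0,
     4000000⟩
    (by decide +kernel) (by decide +kernel)
    (l1 := (190129873 / 500000000))
    (u1 := (95065317 / 250000000))
    (l2 := (11139607 / 5000000000))
    (u2 := (222801053 / 100000000000))
    (l3 := (8014491 / 3125000000000000000))
    (u3 := (256515011 / 100000000000000000000))
    (l4 := 0)
    (u4 := (1 / 2500000000000000000000000000000000))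
    (w2 := (1 / 20))
    (w3 := (1 / 1000))
    (κ := (9 / 10))
    (yl0 := (8802597 / 5000000))
    (yl1 := (3456219 / 2500000))
    (yl2 := (19124383 / 50000000))
    (yl3 := (11139607 / 5000000000))
    (yu0 := (8802613 / 5000000))
    (yu1 := (13824893 / 10000000))
    (yu2 := (1195279 / 3125000))
    (yu3 := (11140053 / 5000000000))
    (g1 := (2750559 / 10000000))
    (g2 := (5825053 / 1000000000))
    (g3 := (230273 / 200000000000000))
    (Zl := (43963 / 15625))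
    (Zu := (1406821 / 500000))
    (ρ := (1 / 16))
    (θ := (1 / 20))
    (θ' := (1 / 100))
    (C := (2573 / 10000))
    (τ := (573 / 10))
    (ε := (1 / 1000))
    (D0 := ⟨(15643 / 50000), (613 / 5000), 0, (1227 / 10000), (15031 / 1000000)⟩)
    (D1 := ⟨(3737 / 20000), (2073 / 10000), (4547 / 10000), (2499 / 5000), (5169 / 25000)⟩)
    (D2 := ⟨(1893 / 6250000), (261 / 200), (411 / 250), (2099 / 1000), (6757 / 2500)⟩)
    (fun h hh => ?_) ?_ ?_ (by norm_num) ?_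
  · unfold Bx.Mem at hh; convert hh using 1 <;> norm_num [SS]
  · constructor <;> norm_num
  · constructor <;> first | (constructor <;> norm_num) | norm_num
  · apply poly4 (7891 / 100000) (1381 / 50000) (1333 / 50000) (2481 / 100000) (3669 / 100000) (7361 / 100000) (1993 / 5000) <;> norm_num [PD.c3, PD.mk']

theorem good_0_5 : Good 0 5 := by
  refine good_of (by norm_num) (by norm_num) 48
    ⟨3303101300000000000000000000000000000000,
     3303114530000000000000000000000000000000,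
     3128292490000000000000000000000000000,
     3128417630000000000000000000000000000,
     2372137910000000000000,
     2373086970000000000000,
     0,
     4000000⟩
    (by decide +kernel) (by decide +kernel)
    (l1 := (33031013 / 100000000))
    (u1 := (330311453 / 1000000000))
    (l2 := (312829249 / 1000000000000))
    (u2 := (312841763 / 1000000000000))
    (l3 := (237213791 / 1000000000000000000000000000))
    (u3 := (237308697 / 1000000000000000000000000000))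
    (l4 := 0)
    (u4 := (1 / 2500000000000000000000000000000000))
    (w2 := (1 / 100))
    (w3 := (1 / 1000))
    (κ := (9 / 10))
    (yl0 := (8303101 / 5000000))
    (yl1 := (13306229 / 10000000))
    (yl2 := (6612459 / 20000000))
    (yl3 := (7820731 / 25000000000))
    (yu0 := (1660623 / 1000000))
    (yu1 := (13306243 / 10000000))
    (yu2 := (3306243 / 10000000))
    (yu3 := (31284177 / 100000000000))
    (g1 := (2482383 / 10000000))
    (g2 := (591387 / 625000000))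
    (g3 := (7585887 / 10000000000000000000000))
    (Zl := (2539863 / 1000000))
    (Zu := (2539871 / 1000000))
    (ρ := (1 / 16))
    (θ := (1 / 20))
    (θ' := (1 / 100))
    (C := (2767 / 10000))
    (τ := 100)
    (ε := (1 / 1000))
    (D0 := ⟨(8173 / 25000), (1091 / 10000), 0, (273 / 2500), (11903 / 1000000)⟩)
    (D1 := ⟨(3461 / 20000), (129 / 625), (1057 / 2500), (941 / 2000), (4469 / 25000)⟩)
    (D2 := ⟨(10181 / 250000000), (1377 / 1000), (851 / 500), (219 / 100), (28969 / 10000)⟩)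
    (fun h hh => ?_) ?_ ?_ (by norm_num) ?_
  · unfold Bx.Mem at hh; convert hh using 1 <;> norm_num [SS]
  · constructor <;> norm_num
  · constructor <;> first | (constructor <;> norm_num) | norm_num
  · apply poly5 (6211 / 100000) (991 / 50000) (1493 / 100000) (8933 / 1000000) (8461 / 1000000) (333 / 25000) (2673 / 100000) (6009 / 100000) (4017 / 10000) <;> norm_num [PD.c3, PD.mk']

theorem good_0_6 : Good 0 6 := by
  refine good_of (by norm_num) (by norm_num) 87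
    ⟨2933573800000000000000000000000000000000,
     2933585540000000000000000000000000000000,
     399704062000000000000000000000000000,
     399720052000000000000000000000000000,
     2555059490000,
     2556087730000,
     0,
     4000000⟩
    (by decide +kernel) (by decide +kernel)
    (l1 := (14667869 / 50000000))
    (u1 := (146679277 / 500000000))
    (l2 := (199852031 / 5000000000000))
    (u2 := (99930013 / 2500000000000))
    (l3 := (255505949 / 1000000000000000000000000000000000000))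
    (u3 := (255608773 / 1000000000000000000000000000000000000))
    (l4 := 0)
    (u4 := (1 / 2500000000000000000000000000000000))
    (w2 := (1 / 200))
    (w3 := (1 / 1000))
    (κ := (9 / 10))
    (yl0 := (15867147 / 10000000))
    (yl1 := (12933973 / 10000000))
    (yl2 := (5867947 / 20000000))
    (yl3 := (19985203 / 500000000000))
    (yu0 := (3966793 / 2500000))
    (yu1 := (6466993 / 5000000))
    (yu2 := (29339853 / 100000000))
    (yu3 := (19986003 / 500000000000))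
    (g1 := (3629 / 16000))
    (g2 := (272477 / 2000000000))
    (g3 := (6394951 / 1000000000000000000000000000000))
    (Zl := (2345593 / 1000000))
    (Zu := (1466 / 625))
    (ρ := (1 / 16))
    (θ := (1 / 20))
    (θ' := (1 / 100))
    (C := (739 / 2500))
    (τ := 100)
    (ε := (1 / 1000))
    (D0 := ⟨(1057 / 3125), (2473 / 25000), 0, (2473 / 25000), (24463 / 2500000)⟩)
    (D1 := ⟨(16177 / 100000), (2069 / 10000), (3989 / 10000), (2247 / 5000), (15913 / 100000)⟩)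
    (D2 := ⟨(49999 / 10000000000), (1447 / 1000), (1759 / 1000), (1139 / 500), (30941 / 10000)⟩)
    (fun h hh => ?_) ?_ ?_ (by norm_num) ?_
  · unfold Bx.Mem at hh; convert hh using 1 <;> norm_num [SS]
  · constructor <;> norm_num
  · constructor <;> first | (constructor <;> norm_num) | norm_num
  · apply poly6 (161 / 3125) (1639 / 100000) (1063 / 100000) (1009 / 200000) (1467 / 500000) (1421 / 500000) (1187 / 250000) (201 / 20000) (141 / 6250) (5411 / 100000) (4121 / 10000) <;> norm_num [PD.c3, PD.mk']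

theorem good_0_7 : Good 0 7 := by
  refine good_of (by norm_num) (by norm_num) 296
    ⟨2645507810000000000000000000000000000000,
     2645518410000000000000000000000000000000,
     46404236800000000000000000000000000,
     46406093100000000000000000000000000,
     0,
     3000023,
     0,
     4000000⟩
    (by decide +kernel) (by decide +kernel)
    (l1 := (264550781 / 1000000000))
    (u1 := (264551841 / 1000000000))
    (l2 := (3625331 / 781250000000))
    (u2 := (464060931 / 100000000000000))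
    (l3 := 0)
    (u3 := (3000023 / 10000000000000000000000000000000000000000))
    (l4 := 0)
    (u4 := (1 / 2500000000000000000000000000000000))
    (w2 := (1 / 1000))
    (w3 := (1 / 1000))
    (κ := (97 / 100))
    (yl0 := (3058203 / 2000000))
    (yl1 := (6322777 / 5000000))
    (yl2 := (13227771 / 50000000))
    (yl3 := (11601059 / 2500000000000))
    (yu0 := (15291037 / 10000000))
    (yu1 := (2529113 / 2000000))
    (yu2 := (26455649 / 100000000))
    (yu3 := (23203047 / 5000000000000))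
    (g1 := (418411 / 2000000))
    (g2 := (1754117 / 100000000000))
    (g3 := (6464977 / 100000000000000000000000000000000000))
    (Zl := (1099091 / 500000))
    (Zu := (549547 / 250000))
    (ρ := (1 / 16))
    (θ := (1 / 20))
    (θ' := (1 / 100))
    (C := (3131 / 10000))
    (τ := 100)
    (ε := (1 / 1000))
    (D0 := ⟨(17391 / 50000), (4527 / 50000), 0, (1811 / 20000), (3279 / 400000)⟩)
    (D1 := ⟨(15219 / 100000), (2069 / 10000), (3793 / 10000), (4321 / 10000), (14387 / 100000)⟩)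
    (D2 := ⟨(55851 / 100000000000), (189 / 125), (1813 / 1000), (2361 / 1000), (3287 / 1000)⟩)
    (fun h hh => ?_) ?_ ?_ (by norm_num) ?_
  · unfold Bx.Mem at hh; convert hh using 1 <;> norm_num [SS]
  · constructor <;> norm_num
  · constructor <;> first | (constructor <;> norm_num) | norm_num
  · apply poly7 (219 / 5000) (141 / 10000) (2061 / 250000) (1793 / 500000) (821 / 500000) (9291 / 10000000) (9211 / 10000000) (13 / 8000) (3599 / 1000000) (4197 / 500000) (1981 / 100000) (249 / 5000) (4233 / 10000) <;> norm_num [PD.c3, PD.mk']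

theorem good_1_2 : Good 1 2 := by
  refine good_of (by norm_num) (by norm_num) 16
    ⟨3398635020000000000000000000000000000000,
     3398648620000000000000000000000000000000,
     242266863000000000000000000000000000000,
     242269771000000000000000000000000000000,
     1081616970000000000000000000000000000,
     1081655920000000000000000000000000000,
     21368201800000000000000000000000,
     21372048500000000000000000000000⟩
    (by decide +kernel) (by decide +kernel)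
    (l1 := (169931751 / 500000000))
    (u1 := (169932431 / 500000000))
    (l2 := (242266863 / 10000000000))
    (u2 := (242269771 / 10000000000))
    (l3 := (108161697 / 1000000000000))
    (u3 := (13520699 / 125000000000))
    (l4 := (106841009 / 50000000000000000))
    (u4 := (42744097 / 20000000000000000))
    (w2 := (1 / 2))
    (w3 := (1 / 100))
    (κ := (9 / 10))
    (yl0 := (4679727 / 2000000))
    (yl1 := (13640901 / 10000000))
    (yl2 := (18209917 / 50000000))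
    (yl3 := (486697 / 20000000))
    (yu0 := (23398649 / 10000000))
    (yu1 := (13640919 / 10000000))
    (yu2 := (36420001 / 100000000))
    (yu3 := (4867029 / 200000000))
    (g1 := (1245757 / 5000000))
    (g2 := (6652139 / 100000000))
    (g3 := (888977 / 200000000))
    (Zl := (2812291 / 500000))
    (Zu := (2812299 / 500000))
    (ρ := (3341 / 50000))
    (θ := (1 / 4))
    (θ' := (1 / 50))
    (C := (3261 / 10000))
    (τ := (259 / 10))
    (ε := (1 / 1000))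
    (D0 := ⟨(41601 / 100000), (3903 / 50000), (1789 / 5000), (3663 / 10000), (12803 / 100000)⟩)
    (D1 := ⟨(41213 / 500000), (877 / 2500), (53 / 50), (1117 / 1000), (2809 / 2500)⟩)
    (D2 := ⟨(1961 / 1250000), (1203 / 500), (1303 / 500), (3547 / 1000), (67913 / 10000)⟩)
    (fun h hh => ?_) ?_ ?_ (by norm_num) ?_
  · unfold Bx.Mem at hh; convert hh using 1 <;> norm_num [SS]
  · constructor <;> norm_num
  · constructor <;> first | (constructor <;> norm_num) | norm_num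
  · apply poly2 (4401 / 100000) (196 / 625) (2561 / 50000) (3737 / 10000) (63 / 5000) (2169 / 5000) (1533 / 1000) (3463 / 5000)
    iterate 8 norm_num
    intro m α β s hs
    have e1 : m ^ 2 * s ^ 2 = m ^ 2 * (α ^ 2 + β ^ 2) := by rw [hs]
    have e2 : s ^ 4 = (α ^ 2 + β ^ 2) ^ 2 := by rw [← hs]; ring
    have h1 := sq_nonneg ((1 / 2) * (m * s) - s ^ 2)
    have h2 := sq_nonneg (m * α + (-38 / 625) * α ^ 2 + (-191 / 500) * β ^ 2)
    have h3 := sq_nonneg (m * β + (-103 / 100) * (α * β))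
    have h4 := sq_nonneg (α ^ 2 + (-1) * β ^ 2)
    have h5 := sq_nonneg (m * α)
    have h6 := sq_nonneg (m * β)
    have h7 := sq_nonneg (α ^ 2)
    have h8 := sq_nonneg (β ^ 2)
    have h9 := sq_nonneg (α * β)
    linarith

theorem good_1_3 : Good 1 3 := by
  refine good_of (by norm_num) (by norm_num) 10
    ⟨1539014680000000000000000000000000000000,
     1539020840000000000000000000000000000000,
     3674139160000000000000000000000000000,
     3674212650000000000000000000000000000,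
     49634134600000000000000000000,
     49639098400000000000000000000,
     0,
     4122397⟩
    (by decide +kernel) (by decide +kernel)
    (l1 := (38475367 / 250000000))
    (u1 := (38475521 / 250000000))
    (l2 := (91853479 / 250000000000))
    (u2 := (73484253 / 200000000000))
    (l3 := (248170673 / 50000000000000000000))
    (u3 := (62048873 / 12500000000000000000))
    (l4 := 0)
    (u4 := (4122397 / 10000000000000000000000000000000000000000))
    (w2 := (1 / 100))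
    (w3 := (1 / 1000))
    (κ := (9 / 10))
    (yl0 := (10769507 / 5000000))
    (yl1 := (360709 / 312500))
    (yl2 := (1928361 / 12500000))
    (yl3 := (2296337 / 6250000000))
    (yu0 := (21539021 / 10000000))
    (yu1 := (1442837 / 1250000))
    (yu2 := (15426951 / 100000000))
    (yu3 := (36742127 / 100000000000))
    (g1 := (133333 / 1000000))
    (g2 := (1190847 / 500000000))
    (g3 := (1351041 / 100000000000000))
    (Zl := (4663203 / 1000000))
    (Zu := (4663207 / 1000000))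
    (ρ := (1 / 16))
    (θ := (1 / 20))
    (θ' := (1 / 100))
    (C := (2509 / 10000))
    (τ := 100)
    (ε := (1 / 1000))
    (D0 := ⟨(4619 / 10000), (1857 / 100000), (2589 / 10000), (649 / 2500), (6703 / 100000)⟩)
    (D1 := ⟨(7619 / 200000), (559 / 2500), (41 / 40), (21 / 20), (10507 / 10000)⟩)
    (D2 := ⟨(3039 / 250000000), (3507 / 1000), (3647 / 1000), (253 / 50), (13301 / 1000)⟩)
    (fun h hh => ?_) ?_ ?_ (by norm_num) ?_
  · unfold Bx.Mem at hh; convert hh using 1 <;> norm_num [SS]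
  · constructor <;> norm_num
  · constructor <;> first | (constructor <;> norm_num) | norm_num
  · apply poly3 (1423 / 10000) (2613 / 100000) (63 / 625) (691 / 5000) (1121 / 2000) <;> norm_num [PD.c3, PD.mk']

theorem good_1_4 : Good 1 4 := by
  refine good_of (by norm_num) (by norm_num) 9
    ⟨715991945000000000000000000000000000000,
     715994810000000000000000000000000000000,
     14270633300000000000000000000000000,
     14270918900000000000000000000000000,
     2251881840000000,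
     2252107060000000,
     0,
     4000000⟩
    (by decide +kernel) (by decide +kernel)
    (l1 := (143198389 / 2000000000))
    (u1 := (71599481 / 1000000000))
    (l2 := (142706333 / 100000000000000))
    (u2 := (142709189 / 100000000000000))
    (l3 := (28148523 / 125000000000000000000000000000000))
    (u3 := (112605353 / 500000000000000000000000000000000))
    (l4 := 0)
    (u4 := (1 / 2500000000000000000000000000000000))
    (w2 := (1 / 1000))
    (w3 := (1 / 1000))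
    (κ := (9 / 10))
    (yl0 := (20715991 / 10000000))
    (yl1 := (5358003 / 5000000))
    (yl2 := (71600621 / 1000000000))
    (yl3 := (14270633 / 10000000000000))
    (yu0 := (4143199 / 2000000))
    (yu1 := (1071601 / 1000000))
    (yu2 := (71600909 / 1000000000))
    (yu3 := (14270919 / 10000000000000))
    (g1 := (3340773 / 50000000))
    (g2 := (249141 / 12500000000))
    (g3 := (1578141 / 10000000000000000000000000))
    (Zl := (4296649 / 1000000))
    (Zu := (1074163 / 250000))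
    (ρ := (1 / 16))
    (θ := (1 / 20))
    (θ' := (1 / 100))
    (C := (2493 / 10000))
    (τ := 100)
    (ε := (1 / 1000))
    (D0 := ⟨(9643 / 20000), (6269 / 1000000), (1829 / 10000), (1831 / 10000), (33453 / 1000000)⟩)
    (D1 := ⟨(8929 / 500000), (1677 / 10000), (507 / 500), (257 / 250), (5141 / 5000)⟩)
    (D2 := ⟨(11891 / 500000000000), (5197 / 1000), (5293 / 1000), (3709 / 500), (3502 / 125)⟩)
    (fun h hh => ?_) ?_ ?_ (by norm_num) ?_
  · unfold Bx.Mem at hh; convert hh using 1 <;> norm_num [SS]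
  · constructor <;> norm_num
  · constructor <;> first | (constructor <;> norm_num) | norm_num
  · apply poly4 (6899 / 100000) (7817 / 1000000) (3997 / 100000) (127 / 3125) (4511 / 100000) (373 / 5000) (5147 / 10000) <;> norm_num [PD.c3, PD.mk']

theorem good_1_5 : Good 1 5 := by
  refine good_of (by norm_num) (by norm_num) 6
    ⟨339462373000000000000000000000000000000,
     339463732000000000000000000000000000000,
     12949605500000000000000000000000,
     12950123600000000000000000000000,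
     0,
     3000000,
     0,
     4000000⟩
    (by decide +kernel) (by decide +kernel)
    (l1 := (339462373 / 10000000000))
    (u1 := (84865933 / 2500000000))
    (l2 := (25899211 / 20000000000000000))
    (u2 := (32375309 / 25000000000000000))
    (l3 := 0)
    (u3 := (3 / 10000000000000000000000000000000000))
    (l4 := 0)
    (u4 := (1 / 2500000000000000000000000000000000))
    (w2 := (1 / 1000))
    (w3 := (1 / 1000))
    (κ := (9 / 10))
    (yl0 := (10169731 / 5000000))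
    (yl1 := (5169731 / 5000000))
    (yl2 := (16973119 / 500000000))
    (yl3 := (2589921 / 2000000000000000))
    (yu0 := (2542433 / 1250000))
    (yu1 := (1292433 / 1250000))
    (yu2 := (271571 / 8000000))
    (yu3 := (3237531 / 2500000000000000))
    (g1 := (1641593 / 50000000))
    (g2 := (3814893 / 100000000000000))
    (g3 := (2316673 / 10000000000000000000000000000000))
    (Zl := (4138089 / 1000000))
    (Zu := (4138091 / 1000000))
    (ρ := (1 / 16))
    (θ := (1 / 20))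
    (θ' := (1 / 100))
    (C := (2567 / 10000))
    (τ := 100)
    (ε := (1 / 1000))
    (D0 := ⟨(1536 / 3125), (89 / 40000), (641 / 5000), (1283 / 10000), (4109 / 250000)⟩)
    (D1 := ⟨(84819 / 10000000), (1229 / 10000), (126 / 125), (127 / 125), (10161 / 10000)⟩)
    (D2 := ⟨(83 / 7812500000000), (7613 / 1000), (3839 / 500), (541 / 50), (7369 / 125)⟩)
    (fun h hh => ?_) ?_ ?_ (by norm_num) ?_
  · unfold Bx.Mem at hh; convert hh using 1 <;> norm_num [SS]
  · constructor <;> norm_num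
  · constructor <;> first | (constructor <;> norm_num) | norm_num
  · apply poly5 (167 / 5000) (2617 / 1000000) (903 / 50000) (453 / 25000) (1839 / 100000) (377 / 20000) (21 / 1000) (2179 / 50000) (1279 / 2500) <;> norm_num [PD.c3, PD.mk']

theorem good_1_6 : Good 1 6 := by
  refine good_of (by norm_num) (by norm_num) 6
    ⟨164032978000000000000000000000000000000,
     164033636000000000000000000000000000000,
     2898138390000000000000000000,
     2898254320000000000000000000,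
     0,
     3000000,
     0,
     4000000⟩
    (by decide +kernel) (by decide +kernel)
    (l1 := (82016489 / 5000000000))
    (u1 := (41008409 / 2500000000))
    (l2 := (289813839 / 1000000000000000000000))
    (u2 := (36228179 / 125000000000000000000))
    (l3 := 0)
    (u3 := (3 / 10000000000000000000000000000000000))
    (l4 := 0)
    (u4 := (1 / 2500000000000000000000000000000000))
    (w2 := (1 / 1000))
    (w3 := (1 / 1000))
    (κ := (9 / 10))
    (yl0 := (315063 / 156250))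
    (yl1 := (158813 / 156250))
    (yl2 := (16403297 / 1000000000))
    (yl3 := (28981383 / 100000000000000000000))
    (yu0 := (10082017 / 5000000))
    (yu1 := (5082017 / 5000000))
    (yu2 := (4100841 / 250000000))
    (yu3 := (1811409 / 6250000000000000000))
    (g1 := (201733 / 12500000))
    (g2 := (883437 / 50000000000000000))
    (g3 := (258787 / 250000000000000000000000000))
    (Zl := (4066151 / 1000000))
    (Zu := (508269 / 125000))
    (ρ := (1 / 16))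
    (θ := (1 / 20))
    (θ' := (1 / 100))
    (C := (163 / 625))
    (τ := 100)
    (ε := (1 / 1000))
    (D0 := ⟨(4959 / 10000), (187 / 200000), (1123 / 12500), (1797 / 20000), (80713 / 10000000)⟩)
    (D1 := ⟨(41003 / 10000000), (8803 / 100000), (251 / 250), (126 / 125), (10081 / 10000)⟩)
    (D2 := ⟨(2923 / 2500000000000000000), 11, (221 / 20), (78 / 5), (12211 / 100)⟩)
    (fun h hh => ?_) ?_ ?_ (by norm_num) ?_
  · unfold Bx.Mem at hh; convert hh using 1 <;> norm_num [SS]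
  · constructor <;> norm_num
  · constructor <;> first | (constructor <;> norm_num) | norm_num
  · apply poly6 (407 / 25000) (4439 / 5000000) (1693 / 200000) (8473 / 1000000) (1067 / 125000) (2151 / 250000) (2169 / 250000) (4403 / 500000) (9839 / 1000000) (339 / 12500) (1027 / 2000) <;> norm_num [PD.c3, PD.mk']

theorem good_1_7 : Good 1 7 := by
  refine good_of (by norm_num) (by norm_num) 5
    ⟨80339269100000000000000000000000000000,
     80339590500000000000000000000000000000,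
     164094937000000000000000,
     164101502000000000000000,
     0,
     3000000,
     0,
     4000000⟩
    (by decide +kernel) (by decide +kernel)
    (l1 := (803392691 / 100000000000))
    (u1 := (160679181 / 20000000000))
    (l2 := (164094937 / 10000000000000000000000000))
    (u2 := (82050751 / 5000000000000000000000000))
    (l3 := 0)
    (u3 := (3 / 10000000000000000000000000000000000))
    (l4 := 0)
    (u4 := (1 / 2500000000000000000000000000000000))
    (w2 := (1 / 1000))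
    (w3 := (1 / 1000))
    (κ := (9 / 10))
    (yl0 := (20080339 / 10000000))
    (yl1 := (10080339 / 10000000))
    (yl2 := (80339269 / 10000000000))
    (yl3 := (16409493 / 1000000000000000000000000))
    (yu0 := (1004017 / 500000))
    (yu1 := (504017 / 500000))
    (yu2 := (80339591 / 10000000000))
    (yu3 := (16410151 / 1000000000000000000000000))
    (g1 := (796993 / 100000000))
    (g2 := (2042607 / 1000000000000000000000))
    (g3 := (1828211 / 100000000000000000000000))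
    (Zl := (504033 / 125000))
    (Zu := (2016133 / 500000))
    (ρ := (1 / 16))
    (θ := (1 / 20))
    (θ' := (1 / 100))
    (C := (263 / 1000))
    (τ := 100)
    (ε := (1 / 1000))
    (D0 := ⟨(249 / 500), (6471 / 10000000), (6313 / 100000), (3157 / 50000), (19927 / 5000000)⟩)
    (D1 := ⟨(4017 / 2000000), (6251 / 100000), (501 / 500), (251 / 250), (10041 / 10000)⟩)
    (D2 := ⟨(4087 / 125000000000000000000000), (63 / 4), (789 / 50), (223 / 10), (24901 / 100)⟩)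
    (fun h hh => ?_) ?_ ?_ (by norm_num) ?_
  · unfold Bx.Mem at hh; convert hh using 1 <;> norm_num [SS]
  · constructor <;> norm_num
  · constructor <;> first | (constructor <;> norm_num) | norm_num
  · apply poly7 (8003 / 1000000) (1533 / 5000000) (2041 / 500000) (1021 / 250000) (4099 / 1000000) (823 / 200000) (1033 / 250000) (1037 / 250000) (2083 / 500000) (1051 / 250000) (59 / 12500) (1789 / 100000) (1027 / 2000) <;> norm_num [PD.c3, PD.mk']

theorem good_all {c d : ℕ} (hc : c ≤ 1) (h2 : 2 ≤ d) (h7 : d ≤ 7) : Good c d := by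
  interval_cases c <;> interval_cases d
  exacts [good_0_2, good_0_3, good_0_4, good_0_5, good_0_6, good_0_7,
    good_1_2, good_1_3, good_1_4, good_1_5, good_1_6, good_1_7]

end Pool.Agent.P.MP_23c5a6_pr
end

-- part Pool.Agent.P.MP_23c5a6_pr.Zlev
section

namespace Pool.Agent.P.MP_23c5a6_pr

open Finset Filter Topology

def YY (x : ℤ → ℝ) (i : ℤ) : ℝ := x (i - 1) + x i + x (i + 1)

noncomputable def Pm (x v : ℤ → ℝ) (i : ℤ) : ℝ :=
  (x (i - 1) * v (i - 1) + x i * v i + x (i + 1) * v (i + 1)) / YY x i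

structure Chain (d : ℕ) (x pi : ℤ → ℝ) (ε : ℝ) : Prop where
  pos : ∀ i, 0 < x i
  Z : ∃ Z, 0 < Z ∧ ∀ i, pi i = x i * YY x i / Z
  sum : HasSum pi 1
  sq : Summable fun i => √(pi i)
  eps : 0 < ε
  hc : ∀ (v : ℤ → ℝ) (F G : Finset ℤ), (∀ i, 0 ≤ v i) → (∀ i, i ∉ F → v i = 0) →
    ∑ i ∈ F, pi i * v i ^ 2 = 1 →
    ∑ i ∈ G, pi i * Pm x v i ^ (2 * d) ≤ 1 - ε * (1 - (∑ i ∈ F, pi i * v i) ^ 2)

def idx (c : ℕ) (i : ℤ) : ℕ := if (c : ℤ) ≤ i then (i - c).toNat else (-i).toNat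

lemma idx_pos (c n : ℕ) : idx c (c + n) = n := by simp [idx]

lemma idx_neg {c : ℕ} (hc : c ≤ 1) (n : ℕ) : idx c (-n) = n := by
  unfold idx; split_ifs with h <;> omega

lemma int_cases {c : ℕ} (hc : c ≤ 1) (i : ℤ) : (∃ n : ℕ, i = c + n) ∨ ∃ n : ℕ, i = -n := by
  by_cases h : (c : ℤ) ≤ i
  · exact Or.inl ⟨(i - c).toNat, by omega⟩
  · exact Or.inr ⟨(-i).toNat, by omega⟩

lemma win_sum {c : ℕ} (hc : c ≤ 1) (f : ℤ → ℝ) (M : ℕ) :
    ∑ i ∈ Icc (-M : ℤ) (c + M), f i = ∑ n ∈ range (M + 1), om c n * (f (c + n) + f (-n)) := by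
  induction M with
  | zero =>
    interval_cases c
    · simp [om]; ring
    · have : Icc (0 : ℤ) 1 = {0, 1} := by decide
      simp [om, this]; ring
  | succ M ih =>
    rw [sum_range_succ, ← ih]
    have : Icc (-(M + 1 : ℕ) : ℤ) (c + (M + 1 : ℕ)) =
        insert (c + (M + 1 : ℕ) : ℤ) (insert (-(M + 1 : ℕ) : ℤ) (Icc (-M : ℤ) (c + M))) := by
      ext i; simp only [mem_Icc, mem_insert]; omega
    rw [this, sum_insert (by simp only [mem_Icc, mem_insert]; omega),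
      sum_insert (by simp only [mem_Icc]; omega)]
    simp only [om]; ring

lemma exists_win (c : ℕ) (F : Finset ℤ) : ∃ M : ℕ, F ⊆ Icc (-M : ℤ) (c + M) := by
  refine ⟨F.sup Int.natAbs, fun i hi => ?_⟩
  have := Finset.le_sup (f := Int.natAbs) hi
  rw [mem_Icc]; omega

variable {c d : ℕ} {h : ℕ → ℝ}

/-- extension of a half-line sequence to the integers -/
def xz (c : ℕ) (h : ℕ → ℝ) (i : ℤ) : ℝ := h (idx c i)

lemma xz_pos (n : ℕ) : xz c h (c + n) = h n := by rw [xz, idx_pos]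
lemma xz_neg (hc : c ≤ 1) (n : ℕ) : xz c h (-n) = h n := by rw [xz, idx_neg hc]

lemma Pm_num_pos (hc : c ≤ 1) (h0 : h 0 = 1) (v : ℤ → ℝ) (n : ℕ) :
    xz c h (c + n - 1) * v (c + n - 1) + xz c h (c + n) * v (c + n) +
      xz c h (c + n + 1) * v (c + n + 1) = match n with
      | 0 => c * v (-(0 : ℕ)) + (1 - c) * h 1 * v (-(1 : ℕ)) + v (c + (0 : ℕ)) + h 1 * v (c + (1 : ℕ))
      | n + 1 => h n * v (c + n) + h (n + 1) * v (c + (n + 1 : ℕ)) +
          h (n + 2) * v (c + (n + 2 : ℕ)) := by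
  cases n with
  | zero => interval_cases c <;> simp [xz, idx, h0]
  | succ n =>
    have e1 : (c : ℤ) + (n + 1 : ℕ) - 1 = c + n := by push_cast; ring
    have e2 : (c : ℤ) + (n + 1 : ℕ) + 1 = c + (n + 2 : ℕ) := by push_cast; ring
    rw [e1, e2, xz_pos, xz_pos, xz_pos]

lemma Pm_num_neg (hc : c ≤ 1) (h0 : h 0 = 1) (v : ℤ → ℝ) (n : ℕ) :
    xz c h (-n - 1) * v (-n - 1) + xz c h (-n) * v (-n) +
      xz c h (-n + 1) * v (-n + 1) = match n with
      | 0 => c * v (c + (0 : ℕ)) + (1 - c) * h 1 * v (c + (1 : ℕ)) + v (-(0 : ℕ)) + h 1 * v (-(1 : ℕ))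
      | n + 1 => h n * v (-n) + h (n + 1) * v (-(n + 1 : ℕ)) +
          h (n + 2) * v (-(n + 2 : ℕ)) := by
  cases n with
  | zero => interval_cases c <;> simp [xz, idx, h0] <;> ring
  | succ n =>
    have e1 : (-(n + 1 : ℕ) : ℤ) - 1 = -(n + 2 : ℕ) := by push_cast; ring
    have e2 : (-(n + 1 : ℕ) : ℤ) + 1 = -n := by push_cast; ring
    rw [e1, e2, xz_neg hc, xz_neg hc, xz_neg hc]; ring

lemma YY_pos' (hc : c ≤ 1) (h0 : h 0 = 1) (n : ℕ) : YY (xz c h) (c + n) = yy c h n := by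
  have := Pm_num_pos hc h0 (fun _ => 1) n
  simp only [mul_one] at this
  rw [YY, this]; cases n <;> simp only [yy]; ring

lemma YY_neg' (hc : c ≤ 1) (h0 : h 0 = 1) (n : ℕ) : YY (xz c h) (-n) = yy c h n := by
  have := Pm_num_neg hc h0 (fun _ => 1) n
  simp only [mul_one] at this
  rw [YY, this]; cases n <;> simp only [yy]; ring

lemma YY_xz (hc : c ≤ 1) (h0 : h 0 = 1) (i : ℤ) : YY (xz c h) i = yy c h (idx c i) := by
  rcases int_cases hc i with ⟨n, rfl⟩ | ⟨n, rfl⟩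
  · rw [YY_pos' hc h0, idx_pos]
  · rw [YY_neg' hc h0, idx_neg hc]

lemma Inv.geo (H : Inv h) (n : ℕ) : h n ≤ 2 * (1 / 2) ^ n := by
  rcases Nat.eq_zero_or_pos n with rfl | hn
  · rw [H.h0]; norm_num
  · induction n, hn using Nat.le_induction with
    | base => linarith [H.h1]
    | succ n hn ih => have := H.half n hn; rw [pow_succ]; linarith

lemma summable_idx (hc : c ≤ 1) {g : ℕ → ℝ} (hg : Summable g) : Summable fun i => g (idx c i) := by
  apply Summable.of_nat_of_neg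
  · rw [← summable_nat_add_iff c]
    refine hg.congr fun n => ?_
    rw [show ((n + c : ℕ) : ℤ) = c + n by push_cast; ring, idx_pos]
  · simpa only [idx_neg hc] using hg

lemma tendsto_win (c : ℕ) : Tendsto (fun M : ℕ => Icc (-M : ℤ) (c + M)) atTop atTop := by
  rw [tendsto_atTop]
  intro F
  obtain ⟨M, hM⟩ := exists_win c F
  filter_upwards [eventually_ge_atTop M] with N hN
  exact hM.trans (Icc_subset_Icc (by omega) (by omega))

theorem chain_of (hc : c ≤ 1) {ε : ℝ} (F : IsFix c d h) (hε : 0 < ε) (H : HCH c d h ε) :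
    Chain d (xz c h) (fun i => xz c h i * YY (xz c h) i / ZZ c h) ε := by
  have h0 := F.inv.h0
  have hZ := ZZ_pos hc F.inv
  set pi : ℤ → ℝ := fun i => xz c h i * YY (xz c h) i / ZZ c h with hpi
  have p1 : ∀ n : ℕ, om c n * pi (c + n) = qq c h (ZZ c h) n / 2 := by
    intro n; simp only [hpi, xz_pos, YY_pos' hc h0, qq]; ring
  have p2 : ∀ n : ℕ, om c n * pi (-n) = qq c h (ZZ c h) n / 2 := by
    intro n; simp only [hpi, xz_neg hc, YY_neg' hc h0, qq]; ring
  have ws : ∀ (f : ℤ → ℝ) (M : ℕ), ∑ i ∈ Icc (-M : ℤ) (c + M), pi i * f i =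
      ∑ n ∈ range (M + 1), qq c h (ZZ c h) n / 2 * (f (c + n) + f (-n)) := by
    intro f M
    rw [win_sum hc]
    refine sum_congr rfl fun n _ => ?_
    rw [mul_add, ← mul_assoc, ← mul_assoc, p1, p2]; ring
  have hle : ∀ n, h n * yy c h n / ZZ c h ≤ (6 / ZZ c h) * (1 / 2) ^ n := by
    intro n
    have a1 := F.inv.geo n
    have a2 : yy c h n ≤ 3 := by
      have := F.inv.le_one
      cases n with
      | zero => have := this 1; interval_cases c <;> simp [yy] <;> linarith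
      | succ n => simp only [yy]; linarith [this n, this (n + 1), this (n + 2)]
    have := mul_le_mul a1 a2 (F.ypos hc n).le (by positivity)
    rw [div_mul_eq_mul_div]
    exact div_le_div_of_nonneg_right (by linarith) hZ.le
  have hpe : ∀ i, pi i = h (idx c i) * yy c h (idx c i) / ZZ c h := by
    intro i; simp only [hpi, YY_xz hc h0, xz]
  have hnn : ∀ n, 0 ≤ h n * yy c h n / ZZ c h := fun n => by
    have := F.pos hc n; have := F.ypos hc n; positivity
  refine ⟨fun i => F.pos hc _, ⟨_, hZ, fun _ => rfl⟩, ?_, ?_, hε, ?_⟩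
  · have hs : Summable pi := by
      simp only [funext hpe]
      exact summable_idx hc (g := fun n => h n * yy c h n / ZZ c h)
        (Summable.of_nonneg_of_le hnn hle (summable_geometric_two.mul_left _))
    have t1 := hs.hasSum.comp (tendsto_win c)
    have t2 := (tendsto_add_atTop_iff_nat 1).2 (hasSum_qq hc F.inv).tendsto_sum_nat
    have : ∑' i, pi i = 1 := by
      refine tendsto_nhds_unique t1 (t2.congr fun M => ?_)
      have := ws (fun _ => 1) M
      simp only [mul_one] at this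
      simp only [Function.comp, this]
      exact sum_congr rfl fun n _ => by ring
    rw [← this]; exact hs.hasSum
  · simp only [hpe]
    refine summable_idx hc (g := fun n => √(h n * yy c h n / ZZ c h))
      (Summable.of_nonneg_of_le (fun n => Real.sqrt_nonneg _) (fun n => ?_)
        ((summable_geometric_of_lt_one (r := 3 / 4) (by norm_num) (by norm_num)).mul_left
          √(6 / ZZ c h)))
    apply Real.sqrt_le_iff.2
    refine ⟨by positivity, (hle n).trans ?_⟩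
    rw [mul_pow, Real.sq_sqrt (by positivity), ← pow_mul, mul_comm n 2, pow_mul]
    gcongr; norm_num
  · intro v F' G hv hF hn
    obtain ⟨M, hM⟩ := exists_win c F'
    obtain ⟨M', hM'⟩ := exists_win c G
    have ext : ∀ f : ℤ → ℝ, (∀ i, i ∉ F' → f i = 0) →
        ∑ i ∈ F', pi i * f i = ∑ i ∈ Icc (-M : ℤ) (c + M), pi i * f i := fun f hf =>
      sum_subset hM fun i _ hi => by rw [hf i hi, mul_zero]
    rw [ext _ (fun i hi => by rw [hF i hi]; ring), ws] at hn
    rw [ext _ hF, ws]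
    have key := H (fun n => v (c + n)) (fun n => v (-n)) (M + 1) _ (fun n => hv _) (fun n => hv _)
      (fun h => by simp [h]) (fun n hn => ⟨hF _ fun hh => by
        have := mem_Icc.1 (hM hh); omega, hF _ fun hh => by
        have := mem_Icc.1 (hM hh); omega⟩) hn rfl (M' + 1)
    refine le_trans ?_ key
    have hpi0 : ∀ i, 0 ≤ pi i := fun i => by rw [hpe]; exact hnn _
    refine (sum_le_sum_of_subset_of_nonneg hM' fun i _ _ => ?_).trans (le_of_eq ?_)
    · rw [pow_mul]; exact mul_nonneg (hpi0 i) (by positivity)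
    · rw [ws]
      refine sum_congr rfl fun n _ => ?_
      rw [Pm, Pm, Pm_num_pos hc h0, Pm_num_neg hc h0, YY_pos' hc h0, YY_neg' hc h0]
      cases n <;> rfl

end Pool.Agent.P.MP_23c5a6_pr
end

-- part Pool.Agent.P.MP_23c5a6_pr.Key
section

namespace Pool.Agent.P.MP_23c5a6_pr

open Finset Filter Topology

variable {d : ℕ} {x pi : ℤ → ℝ} {ε : ℝ}

lemma YY_pos (hx : ∀ i, 0 < x i) (i : ℤ) : 0 < YY x i := by
  have := hx (i - 1); have := hx i; have := hx (i + 1); unfold YY; linarith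

lemma Chain.pi_pos (C : Chain d x pi ε) (i : ℤ) : 0 < pi i := by
  obtain ⟨Z, hZ, h⟩ := C.Z
  have := C.pos i; have := YY_pos C.pos i
  rw [h]; positivity

lemma Pm_nn (hx : ∀ i, 0 < x i) {v : ℤ → ℝ} (hv : ∀ i, 0 ≤ v i) (i : ℤ) : 0 ≤ Pm x v i := by
  have := hx (i - 1); have := hx i; have := hx (i + 1); have := YY_pos hx i
  have := hv (i - 1); have := hv i; have := hv (i + 1)
  unfold Pm; positivity

lemma Pm_const (hx : ∀ i, 0 < x i) (a : ℝ) (i : ℤ) : Pm x (fun _ => a) i = a := by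
  have := YY_pos hx i
  unfold Pm; field_simp; rfl

def nb (F : Finset ℤ) : Finset ℤ := F.image (· + 1) ∪ F ∪ F.image (· - 1)

lemma not_mem_nb {F : Finset ℤ} {i : ℤ} (h : i ∉ nb F) : i - 1 ∉ F ∧ i ∉ F ∧ i + 1 ∉ F := by
  simp only [nb, mem_union, mem_image, not_or, not_exists, not_and] at h
  exact ⟨fun hh => h.1.1 _ hh (by ring), h.1.2, fun hh => h.2 _ hh (by ring)⟩

lemma Pm_zero {v : ℤ → ℝ} {F : Finset ℤ} (hF : ∀ i, i ∉ F → v i = 0) (i : ℤ) (hi : i ∉ nb F) :
    Pm x v i = 0 := by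
  obtain ⟨a, b, c⟩ := not_mem_nb hi
  simp [Pm, hF _ a, hF _ b, hF _ c]

lemma Chain.rev (C : Chain d x pi ε) {r : ℤ → ℝ} {F : Finset ℤ} (hF : ∀ i, i ∉ F → r i = 0)
    (g : ℤ → ℝ) : ∑' i, pi i * (Pm x r i * g i) = ∑' j, pi j * (r j * Pm x g j) := by
  obtain ⟨Z, hZ, h⟩ := C.Z
  have e1 : ∀ i, pi i * (Pm x r i * g i) = x i * x (i - 1) * r (i - 1) * g i / Z +
      x i * x i * r i * g i / Z + x i * x (i + 1) * r (i + 1) * g i / Z := by
    intro i; have := YY_pos C.pos i; rw [h, Pm]; field_simp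
  have e2 : ∀ j, pi j * (r j * Pm x g j) = x (j + 1) * x j * r j * g (j + 1) / Z +
      x j * x j * r j * g j / Z + x (j - 1) * x j * r j * g (j - 1) / Z := by
    intro i; have := YY_pos C.pos i; rw [h, Pm]; field_simp; ring
  have s1 : Summable fun j => x (j + 1) * x j * r j * g (j + 1) / Z :=
    summable_of_ne_finset_zero (s := F) fun i hi => by simp [hF i hi]
  have s2 : Summable fun j => x j * x j * r j * g j / Z :=
    summable_of_ne_finset_zero (s := F) fun i hi => by simp [hF i hi]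
  have s3 : Summable fun j => x (j - 1) * x j * r j * g (j - 1) / Z :=
    summable_of_ne_finset_zero (s := F) fun i hi => by simp [hF i hi]
  have t1 : Summable fun i => x i * x (i - 1) * r (i - 1) * g i / Z :=
    summable_of_ne_finset_zero (s := nb F) fun i hi => by simp [hF _ (not_mem_nb hi).1]
  have t3 : Summable fun i => x i * x (i + 1) * r (i + 1) * g i / Z :=
    summable_of_ne_finset_zero (s := nb F) fun i hi => by simp [hF _ (not_mem_nb hi).2.2]
  simp only [e1, e2]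
  rw [(t1.add s2).tsum_add t3, t1.tsum_add s2, (s1.add s2).tsum_add s3, s1.tsum_add s2]
  congr 1
  · congr 1
    rw [← (Equiv.addRight (1 : ℤ)).tsum_eq]; simp
  · rw [← (Equiv.subRight (1 : ℤ)).tsum_eq]; simp

lemma Chain.stat (C : Chain d x pi ε) {r : ℤ → ℝ} {F : Finset ℤ} (hF : ∀ i, i ∉ F → r i = 0) :
    ∑' i, pi i * Pm x r i = ∑' j, pi j * r j := by
  simpa [Pm_const C.pos] using C.rev hF (fun _ => 1)

lemma Pm_log (hx : ∀ i, 0 < x i) {v : ℤ → ℝ} {j : ℤ} (h1 : 0 < v (j - 1)) (h2 : 0 < v j)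
    (h3 : 0 < v (j + 1)) : 0 < Pm x v j ∧ Pm x (fun i => Real.log (v i)) j ≤ Real.log (Pm x v j) := by
  have a1 := hx (j - 1); have a2 := hx j; have a3 := hx (j + 1); have hY := YY_pos hx j
  have hA : 0 < Pm x v j := by unfold Pm; positivity
  refine ⟨hA, ?_⟩
  have k : ∀ {t : ℝ}, 0 < t → Real.log t ≤ Real.log (Pm x v j) + t / Pm x v j - 1 := by
    intro t ht
    have := Real.log_le_sub_one_of_pos (div_pos ht hA)
    rw [Real.log_div ht.ne' hA.ne'] at this; linarith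
  have b1 := mul_le_mul_of_nonneg_left (k h1) a1.le
  have b2 := mul_le_mul_of_nonneg_left (k h2) a2.le
  have b3 := mul_le_mul_of_nonneg_left (k h3) a3.le
  have e : x (j - 1) * (v (j - 1) / Pm x v j) + x j * (v j / Pm x v j) +
      x (j + 1) * (v (j + 1) / Pm x v j) = YY x j := by
    have : x (j - 1) * v (j - 1) + x j * v j + x (j + 1) * v (j + 1) = YY x j * Pm x v j := by
      unfold Pm; field_simp
    field_simp; linarith
  rw [Pm, div_le_iff₀ hY]
  unfold YY at *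
  linarith

lemma Pm_pos_of (hx : ∀ i, 0 < x i) {r : ℤ → ℝ} (hr : ∀ i, 0 ≤ r i) {j : ℤ} (hj : 0 < r j) :
    0 < Pm x r (j - 1) ∧ 0 < Pm x r j ∧ 0 < Pm x r (j + 1) := by
  have k : ∀ i, 0 ≤ x i * r i := fun i => mul_nonneg (hx i).le (hr i)
  have k0 : 0 < x j * r j := mul_pos (hx j) hj
  refine ⟨div_pos ?_ (YY_pos hx _), div_pos ?_ (YY_pos hx _), div_pos ?_ (YY_pos hx _)⟩
  · rw [sub_add_cancel]; linarith [k (j - 1 - 1), k (j - 1)]
  · linarith [k (j - 1), k (j + 1)]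
  · rw [add_sub_cancel_right]; linarith [k (j + 1 + 1), k (j + 1)]

theorem Chain.key (C : Chain d x pi ε) {r : ℤ → ℝ} (hr : ∀ i, 0 ≤ r i) {F : Finset ℤ}
    (hF : ∀ i, i ∉ F → r i = 0) (h1 : ∑' i, pi i * r i = 1) :
    d * ∑' i, pi i * (Pm x r i * Real.log (Pm x r i)) + ε * (1 - (∑' i, pi i * √(Pm x r i)) ^ 2) ≤
      ∑' i, pi i * (r i * Real.log (r i)) := by
  have hs := Pm_nn C.pos hr
  have hF' := Pm_zero (x := x) hF
  have hc := C.hc (fun i => √(Pm x r i)) (nb F) F (fun i => Real.sqrt_nonneg _)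
    (fun i hi => by simp [hF' i hi]) (by
      simp only [Real.sq_sqrt (hs _)]
      rw [← h1, ← C.stat hF, tsum_eq_sum (s := nb F) (fun i hi => by simp [hF' i hi])])
  rw [C.rev hF, tsum_eq_sum (s := F) (fun i hi => by simp [hF i hi]),
    tsum_eq_sum (s := nb F) (fun i hi => by simp [hF' i hi]),
    tsum_eq_sum (s := F) (fun i hi => by simp [hF i hi])]
  rw [tsum_eq_sum (s := F) (fun i hi => by simp [hF i hi])] at h1
  have pt : ∀ j ∈ F, d * (pi j * (r j * Pm x (fun i => Real.log (Pm x r i)) j)) ≤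
      pi j * (r j * Real.log (r j)) + (pi j * Pm x (fun i => √(Pm x r i)) j ^ (2 * d) - pi j * r j) := by
    intro j _
    have hp := C.pi_pos j
    rcases (hr j).eq_or_lt with h0 | h0
    · rw [← h0, pow_mul]; simp; positivity
    · obtain ⟨a1, a2, a3⟩ := Pm_pos_of C.pos hr h0
      obtain ⟨b1, b2⟩ := Pm_log C.pos (v := fun i => √(Pm x r i)) (j := j) (Real.sqrt_pos.2 a1)
        (Real.sqrt_pos.2 a2) (Real.sqrt_pos.2 a3)
      have e : Pm x (fun i => Real.log (Pm x r i)) j =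
          2 * Pm x (fun i => Real.log √(Pm x r i)) j := by
        simp only [Real.log_sqrt (hs _)]
        unfold Pm; ring
      set T := Pm x (fun i => √(Pm x r i)) j
      have c1 := Real.log_le_sub_one_of_pos (div_pos (pow_pos b1 (2 * d)) h0)
      rw [Real.log_div (pow_pos b1 _).ne' h0.ne', Real.log_pow] at c1
      have c2 := mul_le_mul_of_nonneg_left c1 h0.le
      have c3 : r j * (T ^ (2 * d) / r j - 1) = T ^ (2 * d) - r j := by field_simp
      have c4 := mul_le_mul_of_nonneg_left b2 (show 0 ≤ 2 * d * r j by positivity)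
      rw [c3] at c2
      push_cast at c2
      have c5 : d * (r j * Pm x (fun i => Real.log (Pm x r i)) j) ≤
          r j * Real.log (r j) + (T ^ (2 * d) - r j) := by rw [e]; linarith
      have := mul_le_mul_of_nonneg_left c5 hp.le
      linarith
  have := sum_le_sum pt
  rw [← mul_sum, sum_add_distrib, sum_sub_distrib, h1] at this
  linarith

lemma Chain.dev (C : Chain d x pi ε) {v : ℤ → ℝ} {F : Finset ℤ} (hF : ∀ i, i ∉ F → v i = 0)
    (h1 : ∑' i, pi i * v i ^ 2 = 1) (j : ℤ) :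
    pi j * (v j - ∑' i, pi i * v i) ^ 2 ≤ 1 - (∑' i, pi i * v i) ^ 2 := by
  set m := ∑' i, pi i * v i with hm
  have s1 : HasSum (fun i => pi i * v i ^ 2) 1 := by
    rw [← h1]
    exact (summable_of_ne_finset_zero (s := F) fun i hi => by simp [hF i hi]).hasSum
  have s2 : HasSum (fun i => pi i * v i) m :=
    (summable_of_ne_finset_zero (s := F) fun i hi => by simp [hF i hi]).hasSum
  have s3 : HasSum (fun i => pi i * (v i - m) ^ 2) (1 - m ^ 2) := by
    have := (s1.sub (s2.mul_left (2 * m))).add (C.sum.mul_left (m ^ 2))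
    rw [show 1 - 2 * m * m + m ^ 2 * 1 = 1 - m ^ 2 by ring] at this
    exact this.congr_fun (fun i => by ring)
  exact le_hasSum s3 j fun i _ => mul_nonneg (C.pi_pos i).le (sq_nonneg _)

end Pool.Agent.P.MP_23c5a6_pr
end

-- part Pool.Agent.P.MP_23c5a6_pr.Ent
section

namespace Pool.Agent.P.MP_23c5a6_pr

open Finset Filter Topology

/-- configurations on level `n` -/
def Lev (d : ℕ) : ℕ → Type
  | 0 => ℤ
  | n + 1 => Fin d → Lev d n

noncomputable instance (d n : ℕ) : DecidableEq (Lev d n) := Classical.decEq _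

noncomputable def mm (d : ℕ) (x : ℤ → ℝ) : (n : ℕ) → ℤ → Lev d n → ℝ
  | 0, i, ξ => if ξ = i then 1 else 0
  | n + 1, i, ξ => ∏ a, Pm x (fun j => mm d x n j (ξ a)) i

noncomputable def mp (d : ℕ) (x : ℤ → ℝ) (n : ℕ) (i : ℤ) (ξ : Lev d n) : ℝ :=
  Pm x (fun j => mm d x n j ξ) i

noncomputable def supp (d : ℕ) : (n : ℕ) → ℤ → Finset (Lev d n)
  | 0, i => {i}
  | n + 1, i => Fintype.piFinset fun _ : Fin d => supp d n (i - 1) ∪ supp d n i ∪ supp d n (i + 1)

noncomputable def supp' (d n : ℕ) (i : ℤ) : Finset (Lev d n) :=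
  supp d n (i - 1) ∪ supp d n i ∪ supp d n (i + 1)

variable {d : ℕ} {x pi : ℤ → ℝ} {ε : ℝ}

lemma mm_nn (hx : ∀ i, 0 < x i) : ∀ (n : ℕ) (i : ℤ) (ξ : Lev d n), 0 ≤ mm d x n i ξ
  | 0, i, ξ => by simp only [mm]; split_ifs <;> norm_num
  | n + 1, i, ξ => prod_nonneg fun a _ => Pm_nn hx (fun j => mm_nn hx n j _) _

lemma mp_nn (hx : ∀ i, 0 < x i) (n : ℕ) (i : ℤ) (ξ : Lev d n) : 0 ≤ mp d x n i ξ :=
  Pm_nn hx (fun j => mm_nn hx n j _) _

lemma mp_zero_of {n : ℕ} (h : ∀ i ξ, ξ ∉ supp d n i → mm d x n i ξ = 0) (i : ℤ) (ξ : Lev d n)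
    (hξ : ξ ∉ supp' d n i) : mp d x n i ξ = 0 := by
  simp only [supp', mem_union, not_or] at hξ
  simp [mp, Pm, h _ _ hξ.1.1, h _ _ hξ.1.2, h _ _ hξ.2]

lemma mm_zero : ∀ (n : ℕ) (i : ℤ) (ξ : Lev d n), ξ ∉ supp d n i → mm d x n i ξ = 0
  | 0, i, ξ => by
    intro h; simp only [supp] at h
    simp only [mm]; rw [if_neg]; intro hh; exact h (mem_singleton.2 hh)
  | n + 1, i, ξ => by
    intro h
    have : ∃ a, ξ a ∉ supp' d n i := by
      by_contra hh; push Not at hh; exact h (Fintype.mem_piFinset.2 hh)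
    obtain ⟨a, ha⟩ := this
    exact prod_eq_zero (mem_univ a) (mp_zero_of (mm_zero n) i _ ha)

lemma mp_zero (n : ℕ) (i : ℤ) (ξ : Lev d n) (hξ : ξ ∉ supp' d n i) : mp d x n i ξ = 0 :=
  mp_zero_of (mm_zero n) i ξ hξ

lemma sum_Pm {α : Type*} (G : Finset α) (f : ℤ → α → ℝ) (i : ℤ) :
    ∑ ξ ∈ G, Pm x (fun j => f j ξ) i = Pm x (fun j => ∑ ξ ∈ G, f j ξ) i := by
  simp only [Pm, ← sum_div, sum_add_distrib, mul_sum]

lemma mp_sum_of (hx : ∀ i, 0 < x i) {n : ℕ} (h : ∀ i, ∑ ξ ∈ supp d n i, mm d x n i ξ = 1) (i : ℤ) :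
    ∑ ξ ∈ supp' d n i, mp d x n i ξ = 1 := by
  have k : ∀ j, supp d n j ⊆ supp' d n i → ∑ ξ ∈ supp' d n i, mm d x n j ξ = 1 := fun j hj => by
    rw [← h j]; exact (sum_subset hj fun ξ _ hξ => mm_zero n j ξ hξ).symm
  have := YY_pos hx i
  simp only [mp, sum_Pm]
  rw [Pm, k _ (subset_union_left.trans subset_union_left),
    k _ (subset_union_right.trans subset_union_left), k _ subset_union_right]
  field_simp; rfl

lemma mm_sum (hx : ∀ i, 0 < x i) : ∀ (n : ℕ) (i : ℤ), ∑ ξ ∈ supp d n i, mm d x n i ξ = 1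
  | 0, i => (sum_singleton (fun ξ : Lev d 0 => mm d x 0 i ξ) i).trans (if_pos rfl)
  | n + 1, i => by
    have := prod_univ_sum (fun _ : Fin d => supp' d n i) (fun _ ξ => mp d x n i ξ)
    rw [mp_sum_of hx (mm_sum hx n)] at this
    simp only [prod_const_one] at this
    exact this.symm

lemma mp_sum (hx : ∀ i, 0 < x i) (n : ℕ) (i : ℤ) : ∑ ξ ∈ supp' d n i, mp d x n i ξ = 1 :=
  mp_sum_of hx (mm_sum hx n) i

lemma mm_fin (hd : 0 < d) : ∀ (n : ℕ) (ξ : Lev d n), ∃ F : Finset ℤ, ∀ i, i ∉ F → mm d x n i ξ = 0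
  | 0, ξ => ⟨{ξ}, fun i hi => by
      simp only [mm]; rw [if_neg]; intro hh; exact hi (mem_singleton.2 hh.symm)⟩
  | n + 1, ξ => by
    obtain ⟨F, hF⟩ := mm_fin hd n (ξ ⟨0, hd⟩)
    exact ⟨nb F, fun i hi => prod_eq_zero (mem_univ ⟨0, hd⟩) (Pm_zero hF i hi)⟩

noncomputable def QQ (d : ℕ) (x pi : ℤ → ℝ) (n : ℕ) (ξ : Lev d n) : ℝ := ∑' i, pi i * mm d x n i ξ

noncomputable def kl (u q : ℝ) : ℝ := u * Real.log (u / q) - u + q

lemma kl_nn {u q : ℝ} (hu : 0 ≤ u) (hq : 0 ≤ q) (h : 0 < u → 0 < q) : 0 ≤ kl u q := by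
  rcases hu.eq_or_lt with rfl | h0
  · simpa [kl] using hq
  · have hq0 := h h0
    have := Real.one_sub_inv_le_log_of_pos (div_pos h0 hq0)
    have h2 := mul_le_mul_of_nonneg_left this hu
    have : u * (1 - (u / q)⁻¹) = u - q := by field_simp
    unfold kl; linarith

/-- a nonnegative finitely supported vector dominated by `q` in the absolute continuity sense -/
structure Vec (u : ℤ → ℝ) (q : ℝ) : Prop where
  nn : ∀ i, 0 ≤ u i
  fin : ∃ F : Finset ℤ, ∀ i, i ∉ F → u i = 0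
  q0 : 0 ≤ q
  ac : ∀ i, 0 < u i → 0 < q

lemma Chain.hasSum_kl (C : Chain d x pi ε) {u : ℤ → ℝ} {q : ℝ} (V : Vec u q) :
    HasSum (fun i => pi i * kl (u i) q)
      (∑' i, pi i * (u i * Real.log (u i / q)) - ∑' i, pi i * u i + q) := by
  obtain ⟨F, hF⟩ := V.fin
  have s1 : Summable fun i => pi i * (u i * Real.log (u i / q)) :=
    summable_of_ne_finset_zero (s := F) fun i hi => by simp [hF i hi]
  have s2 : Summable fun i => pi i * u i :=
    summable_of_ne_finset_zero (s := F) fun i hi => by simp [hF i hi]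
  have := (s1.hasSum.sub s2.hasSum).add (C.sum.mul_right q)
  rw [one_mul] at this
  exact this.congr_fun fun i => by unfold kl; ring

lemma Chain.tsum_kl (C : Chain d x pi ε) {u : ℤ → ℝ} {q : ℝ} (V : Vec u q) :
    ∑' i, ENNReal.ofReal (pi i * kl (u i) q) =
      ENNReal.ofReal (∑' i, pi i * (u i * Real.log (u i / q)) - ∑' i, pi i * u i + q) := by
  rw [← (C.hasSum_kl V).tsum_eq, ENNReal.ofReal_tsum_of_nonneg
    (fun i => mul_nonneg (C.pi_pos i).le (kl_nn (V.nn i) V.q0 (V.ac i))) (C.hasSum_kl V).summable]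

lemma Chain.kl_sum_nn (C : Chain d x pi ε) {u : ℤ → ℝ} {q : ℝ} (V : Vec u q) :
    0 ≤ ∑' i, pi i * (u i * Real.log (u i / q)) - ∑' i, pi i * u i + q :=
  (C.hasSum_kl V).nonneg fun i => mul_nonneg (C.pi_pos i).le (kl_nn (V.nn i) V.q0 (V.ac i))

lemma Chain.vec_of (C : Chain d x pi ε) {u : ℤ → ℝ} (h1 : ∀ i, 0 ≤ u i)
    (h2 : ∃ F : Finset ℤ, ∀ i, i ∉ F → u i = 0) : Vec u (∑' i, pi i * u i) := by
  obtain ⟨F, hF⟩ := h2
  have s2 : Summable fun i => pi i * u i :=
    summable_of_ne_finset_zero (s := F) fun i hi => by simp [hF i hi]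
  refine ⟨h1, ⟨F, hF⟩, tsum_nonneg fun i => mul_nonneg (C.pi_pos i).le (h1 i), fun i hi => ?_⟩
  exact (mul_pos (C.pi_pos i) hi).trans_le
    (le_hasSum s2.hasSum i fun j _ => mul_nonneg (C.pi_pos j).le (h1 j))

lemma Chain.vec_mm (C : Chain d x pi ε) (hd : 0 < d) (n : ℕ) (ξ : Lev d n) :
    Vec (fun i => mm d x n i ξ) (QQ d x pi n ξ) :=
  C.vec_of (fun i => mm_nn C.pos n i ξ) (mm_fin hd n ξ)

lemma Chain.QQ_mp (C : Chain d x pi ε) (hd : 0 < d) (n : ℕ) (ξ : Lev d n) :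
    ∑' i, pi i * mp d x n i ξ = QQ d x pi n ξ := by
  obtain ⟨F, hF⟩ := mm_fin (x := x) hd n ξ
  exact C.stat hF

lemma Chain.vec_mp (C : Chain d x pi ε) (hd : 0 < d) (n : ℕ) (ξ : Lev d n) :
    Vec (fun i => mp d x n i ξ) (QQ d x pi n ξ) := by
  obtain ⟨F, hF⟩ := mm_fin (x := x) hd n ξ
  rw [← C.QQ_mp hd]
  exact C.vec_of (fun i => mp_nn C.pos n i ξ) ⟨nb F, Pm_zero hF⟩

lemma Chain.hasSum_QQ (C : Chain d x pi ε) (hd : 0 < d) (n : ℕ) : HasSum (QQ d x pi n) 1 := by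
  have h1 : ∀ i, HasSum (fun ξ => pi i * mm d x n i ξ) (pi i) := by
    intro i
    have := hasSum_sum_of_ne_finset_zero (L := SummationFilter.unconditional _)
      (f := fun ξ => pi i * mm d x n i ξ) (s := supp d n i)
      (fun ξ hξ => by simp [mm_zero n i ξ hξ])
    rwa [← mul_sum, mm_sum C.pos, mul_one] at this
  have h2 : Summable fun p : ℤ × Lev d n => pi p.1 * mm d x n p.1 p.2 := by
    rw [summable_prod_of_nonneg fun p => mul_nonneg (C.pi_pos _).le (mm_nn C.pos _ _ _)]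
    refine ⟨fun i => (h1 i).summable, ?_⟩
    simp only [(h1 _).tsum_eq]; exact C.sum.summable
  have h3 : HasSum (fun p : ℤ × Lev d n => pi p.1 * mm d x n p.1 p.2) 1 := by
    have := h2.hasSum
    rwa [h2.tsum_prod' fun i => (h1 i).summable, tsum_congr fun i => (h1 i).tsum_eq,
      C.sum.tsum_eq] at this
  have h4 := (Equiv.prodComm _ _).hasSum_iff.2 h3
  refine h4.prod_fiberwise fun ξ => ?_
  obtain ⟨F, hF⟩ := mm_fin (x := x) hd n ξ
  exact (summable_of_ne_finset_zero (s := F) fun i hi => by simp [hF i hi]).hasSum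

lemma tsum_kl_fix {α : Type*} {μ Q : α → ℝ} {G : Finset α} {p qs : ℝ} (hp : 0 ≤ p)
    (h0 : ∀ ξ, 0 ≤ μ ξ) (hG : ∀ ξ, ξ ∉ G → μ ξ = 0) (h1 : ∑ ξ ∈ G, μ ξ = 1) (hQ0 : ∀ ξ, 0 ≤ Q ξ)
    (hQ : HasSum Q qs) (ac : ∀ ξ, 0 < μ ξ → 0 < Q ξ) :
    ∑' ξ, ENNReal.ofReal (p * kl (μ ξ) (Q ξ)) =
      ENNReal.ofReal (p * (∑ ξ ∈ G, μ ξ * Real.log (μ ξ / Q ξ) - 1 + qs)) := by
  have s1 := hasSum_sum_of_ne_finset_zero (L := SummationFilter.unconditional _)
      (f := fun ξ => μ ξ * Real.log (μ ξ / Q ξ) - μ ξ) (s := G) (fun ξ hξ => by simp [hG ξ hξ])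
  rw [sum_sub_distrib, h1] at s1
  have s2 : HasSum (fun ξ => p * kl (μ ξ) (Q ξ)) _ := (s1.add hQ).mul_left p
  rw [← s2.tsum_eq, ENNReal.ofReal_tsum_of_nonneg
    (fun ξ => mul_nonneg hp (kl_nn (h0 ξ) (hQ0 ξ) (ac ξ))) s2.summable]

noncomputable def II (d : ℕ) (x pi : ℤ → ℝ) (n : ℕ) : ENNReal :=
  ∑' ξ, ∑' i, ENNReal.ofReal (pi i * kl (mm d x n i ξ) (QQ d x pi n ξ))

noncomputable def JJ (d : ℕ) (x pi : ℤ → ℝ) (n : ℕ) : ENNReal :=
  ∑' ξ, ∑' i, ENNReal.ofReal (pi i * kl (mp d x n i ξ) (QQ d x pi n ξ))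

noncomputable def hel (d : ℕ) (x pi : ℤ → ℝ) (n : ℕ) (ξ : Lev d n) : ℝ :=
  QQ d x pi n ξ * (1 - (∑' i, pi i * √(mp d x n i ξ / QQ d x pi n ξ)) ^ 2)

noncomputable def HH (d : ℕ) (x pi : ℤ → ℝ) (ε : ℝ) (n : ℕ) : ENNReal :=
  ∑' ξ, ENNReal.ofReal (ε * hel d x pi n ξ)

lemma Chain.dev' (C : Chain d x pi ε) (hd : 0 < d) (n : ℕ) (ξ : Lev d n) (j : ℤ) :
    QQ d x pi n ξ * (pi j * (√(mp d x n j ξ / QQ d x pi n ξ) -
      ∑' i, pi i * √(mp d x n i ξ / QQ d x pi n ξ)) ^ 2) ≤ hel d x pi n ξ := by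
  have V := C.vec_mp hd n ξ
  rcases V.q0.eq_or_lt with h0 | h0
  · unfold hel; rw [← h0]; simp
  · obtain ⟨F, hF⟩ := V.fin
    refine mul_le_mul_of_nonneg_left (C.dev (F := F)
      (v := fun i => √(mp d x n i ξ / QQ d x pi n ξ)) (fun i hi => by simp [hF i hi]) ?_ j) h0.le
    have : ∀ i, pi i * √(mp d x n i ξ / QQ d x pi n ξ) ^ 2 = pi i * mp d x n i ξ / QQ d x pi n ξ :=
      fun i => by rw [Real.sq_sqrt (div_nonneg (V.nn i) V.q0)]; ring
    simp only [this]
    rw [tsum_div_const, C.QQ_mp hd, div_self h0.ne']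

lemma Chain.hel_nn (C : Chain d x pi ε) (hd : 0 < d) (n : ℕ) (ξ : Lev d n) : 0 ≤ hel d x pi n ξ :=
  le_trans (mul_nonneg (C.vec_mp hd n ξ).q0 (mul_nonneg (C.pi_pos 0).le (sq_nonneg _)))
    (C.dev' hd n ξ 0)

lemma Chain.step2 (C : Chain d x pi ε) (hd : 0 < d) (n : ℕ) :
    d * JJ d x pi n + HH d x pi ε n ≤ II d x pi n := by
  unfold JJ HH II
  rw [← ENNReal.tsum_mul_left, ← ENNReal.tsum_add]
  refine ENNReal.tsum_le_tsum fun ξ => ?_
  have V := C.vec_mm hd n ξ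
  have V' := C.vec_mp hd n ξ
  have h1 := C.kl_sum_nn V'
  rw [C.tsum_kl V, C.tsum_kl V', ← ENNReal.ofReal_natCast, ← ENNReal.ofReal_mul (by positivity),
    ← ENNReal.ofReal_add (by positivity) (mul_nonneg C.eps.le (C.hel_nn hd n ξ))]
  apply ENNReal.ofReal_le_ofReal
  rw [C.QQ_mp hd, show (∑' i, pi i * mm d x n i ξ) = QQ d x pi n ξ from rfl, sub_add_cancel,
    sub_add_cancel]
  unfold hel
  set Q := QQ d x pi n ξ
  rcases V.q0.eq_or_lt with h0 | h0
  · rw [← h0]; simp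
  · obtain ⟨F, hF⟩ := V.fin
    have hP : ∀ i, Pm x (fun j => mm d x n j ξ / Q) i = mp d x n i ξ / Q := by
      intro i; simp only [mp, Pm]; ring
    have := C.key (r := fun j => mm d x n j ξ / Q) (fun i => div_nonneg (V.nn i) V.q0) (F := F)
      (fun i hi => by simp [hF i hi]) (by
        simp only [← mul_div_assoc]
        rw [tsum_div_const]; exact div_self h0.ne')
    simp only [hP] at this
    have e : ∀ u : ℤ → ℝ, ∑' i, pi i * (u i * Real.log (u i / Q)) =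
        Q * ∑' i, pi i * (u i / Q * Real.log (u i / Q)) := by
      intro u; rw [← tsum_mul_left]; congr 1; ext i; field_simp
    rw [e, e (fun i => mm d x n i ξ)]
    have := mul_le_mul_of_nonneg_left this h0.le
    linarith

lemma sum_pi_mul {α : Type*} [DecidableEq α] (S : Finset α) (μ g : α → ℝ) (h1 : ∑ ξ ∈ S, μ ξ = 1)
    (a : Fin d) : ∑ ξ ∈ Fintype.piFinset (fun _ : Fin d => S), (∏ b, μ (ξ b)) * g (ξ a) =
      ∑ ξ ∈ S, μ ξ * g ξ := by
  have := prod_univ_sum (fun _ : Fin d => S) (fun b ξ => μ ξ * if b = a then g ξ else 1)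
  simp only [prod_mul_distrib, prod_ite_eq', mem_univ, if_true] at this
  rw [← this, ← mul_prod_erase univ _ (mem_univ a), prod_eq_one, mul_one]
  · simp
  · intro b hb; simp [ne_of_mem_erase hb, h1]

lemma sum_prod_le {α : Type*} {Q : α → ℝ} (h0 : ∀ ξ, 0 ≤ Q ξ) (h1 : ∀ G : Finset α, ∑ ξ ∈ G, Q ξ ≤ 1)
    (G : Finset (Fin d → α)) : ∑ ξ ∈ G, ∏ a, Q (ξ a) ≤ 1 := by
  classical
  set S := G.biUnion fun ξ => univ.image ξ
  have hs : G ⊆ Fintype.piFinset fun _ : Fin d => S := fun ξ hξ =>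
    Fintype.mem_piFinset.2 fun a => mem_biUnion.2 ⟨ξ, hξ, mem_image_of_mem _ (mem_univ a)⟩
  refine (sum_le_sum_of_subset_of_nonneg hs fun ξ _ _ => prod_nonneg fun a _ => h0 _).trans ?_
  rw [← prod_univ_sum (fun _ : Fin d => S) (fun _ ξ => Q ξ)]
  exact prod_le_one (fun a _ => sum_nonneg fun ξ _ => h0 ξ) fun a _ => h1 S

lemma Chain.step1 (C : Chain d x pi ε) (hd : 0 < d) (n : ℕ) :
    II d x pi (n + 1) ≤ d * JJ d x pi n := by
  set Q' : Lev d (n + 1) → ℝ := fun ξ => ∏ a, QQ d x pi n (ξ a) with hQ'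
  have q0 : ∀ ξ, 0 ≤ QQ d x pi n ξ := fun ξ => (C.vec_mp hd n ξ).q0
  have q0' : ∀ ξ, 0 ≤ Q' ξ := fun ξ => prod_nonneg fun a _ => q0 _
  have hle : ∀ G : Finset (Lev d (n + 1)), ∑ ξ ∈ G, Q' ξ ≤ 1 :=
    sum_prod_le q0 fun G => sum_le_hasSum G (fun ξ _ => q0 ξ) (C.hasSum_QQ hd n)
  have hsum : Summable Q' := summable_of_sum_le q0' hle
  have hqs : ∑' ξ, Q' ξ ≤ 1 := hsum.tsum_le_of_sum_le hle
  have mpp : ∀ i (ξ : Lev d (n + 1)), 0 < mm d x (n + 1) i ξ → ∀ a, 0 < mp d x n i (ξ a) := by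
    intro i ξ h a
    refine (mp_nn C.pos n i _).lt_of_ne fun hh => h.ne' ?_
    exact prod_eq_zero (mem_univ a) hh.symm
  have ac : ∀ i ξ, 0 < mm d x (n + 1) i ξ → 0 < Q' ξ := fun i ξ h =>
    prod_pos fun a _ => (C.vec_mp hd n _).ac i (mpp i ξ h a)
  have s1 : II d x pi (n + 1) ≤
      ∑' ξ, ∑' i, ENNReal.ofReal (pi i * kl (mm d x (n + 1) i ξ) (Q' ξ)) := by
    refine ENNReal.tsum_le_tsum fun ξ => ?_
    have V := C.vec_mm hd (n + 1) ξ
    have V' : Vec (fun i => mm d x (n + 1) i ξ) (Q' ξ) := ⟨V.nn, V.fin, q0' ξ, fun i => ac i ξ⟩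
    rw [C.tsum_kl V, C.tsum_kl V']
    apply ENNReal.ofReal_le_ofReal
    obtain ⟨F, hF⟩ := V.fin
    have hQ : QQ d x pi (n + 1) ξ = ∑ i ∈ F, pi i * mm d x (n + 1) i ξ :=
      tsum_eq_sum fun i hi => by simp [hF i hi]
    rw [tsum_eq_sum (s := F) (fun i hi => by simp [hF i hi]),
      tsum_eq_sum (s := F) (fun i hi => by simp [hF i hi]),
      tsum_eq_sum (s := F) (fun i hi => by simp [hF i hi]), ← hQ]
    set Q := QQ d x pi (n + 1) ξ
    have pt : ∀ i ∈ F, pi i * (mm d x (n + 1) i ξ * Real.log (mm d x (n + 1) i ξ / Q)) ≤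
        pi i * (mm d x (n + 1) i ξ * Real.log (mm d x (n + 1) i ξ / Q' ξ)) +
          pi i * mm d x (n + 1) i ξ * (Q' ξ / Q - 1) := by
      intro i _
      rcases (V.nn i).eq_or_lt with h0 | h0
      · rw [← h0]; simp
      · have a1 := V.ac i h0
        have a2 := V'.ac i h0
        have a3 := Real.log_le_sub_one_of_pos (div_pos a2 a1)
        rw [Real.log_div a2.ne' a1.ne'] at a3
        rw [Real.log_div h0.ne' a1.ne', Real.log_div h0.ne' a2.ne']
        have := mul_le_mul_of_nonneg_left a3 (mul_pos (C.pi_pos i) h0).le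
        linarith
    have := sum_le_sum pt
    rw [sum_add_distrib, ← sum_mul, ← hQ] at this
    have h2 : Q * (Q' ξ / Q - 1) ≤ Q' ξ - Q := by
      rcases V.q0.eq_or_lt with h0 | h0
      · rw [← h0]; simpa using q0' ξ
      · apply le_of_eq; field_simp
    linarith
  refine s1.trans ?_
  unfold JJ
  rw [ENNReal.tsum_comm, ENNReal.tsum_comm (f := fun ξ i =>
    ENNReal.ofReal (pi i * kl (mp d x n i ξ) (QQ d x pi n ξ))), ← ENNReal.tsum_mul_left]
  refine ENNReal.tsum_le_tsum fun i => ?_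
  rw [tsum_kl_fix (C.pi_pos i).le (mm_nn C.pos _ i) (mm_zero _ i) (mm_sum C.pos _ i) q0'
      hsum.hasSum (ac i),
    tsum_kl_fix (C.pi_pos i).le (mp_nn C.pos _ i) (mp_zero _ i) (mp_sum C.pos _ i) q0
      (C.hasSum_QQ hd n) (fun ξ => (C.vec_mp hd n ξ).ac i),
    ← ENNReal.ofReal_natCast, ← ENNReal.ofReal_mul (by positivity)]
  apply ENNReal.ofReal_le_ofReal
  have e : ∑ ξ ∈ supp d (n + 1) i, mm d x (n + 1) i ξ * Real.log (mm d x (n + 1) i ξ / Q' ξ) =
      d * ∑ ξ ∈ supp' d n i, mp d x n i ξ * Real.log (mp d x n i ξ / QQ d x pi n ξ) := by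
    have e1 : ∀ ξ : Lev d (n + 1), mm d x (n + 1) i ξ * Real.log (mm d x (n + 1) i ξ / Q' ξ) =
        ∑ a, (∏ b, mp d x n i (ξ b)) * Real.log (mp d x n i (ξ a) / QQ d x pi n (ξ a)) := by
      intro ξ
      rw [← mul_sum]
      rcases (mm_nn C.pos (n + 1) i ξ).eq_or_lt with h0 | h0
      · have h0' : ∏ b, mp d x n i (ξ b) = 0 := h0.symm
        rw [← h0, h0']; simp
      · congr 1
        rw [← Real.log_prod fun a _ =>
          (div_pos (mpp i ξ h0 a) ((C.vec_mp hd n _).ac i (mpp i ξ h0 a))).ne', prod_div_distrib]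
        rfl
    simp only [e1]
    rw [sum_comm]
    have := fun a : Fin d => sum_pi_mul (supp' d n i) (mp d x n i)
      (fun ξ => Real.log (mp d x n i ξ / QQ d x pi n ξ)) (mp_sum C.pos n i) a
    refine (sum_congr rfl fun a _ => this a).trans ?_
    simp
  rw [e]
  have := mul_le_mul_of_nonneg_left hqs (C.pi_pos i).le
  nlinarith

lemma Chain.II_zero (C : Chain d x pi ε) (hd : 0 < d) : II d x pi 0 ≠ ⊤ := by
  have : II d x pi 0 ≤ ∑' i, ENNReal.ofReal (2 * √(pi i)) := by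
    refine ENNReal.tsum_le_tsum fun (ξ : ℤ) => ?_
    rw [C.tsum_kl (C.vec_mm hd 0 ξ)]
    apply ENNReal.ofReal_le_ofReal
    have h0 : ∀ i, i ≠ ξ → mm d x 0 i ξ = 0 := fun i hi => if_neg (Ne.symm hi)
    have h1 : mm d x 0 ξ ξ = 1 := if_pos rfl
    have hQ : QQ d x pi 0 ξ = pi ξ := by
      unfold QQ; rw [tsum_eq_single ξ fun i hi => by simp [h0 i hi], h1, mul_one]
    rw [show (∑' i, pi i * mm d x 0 i ξ) = QQ d x pi 0 ξ from rfl, sub_add_cancel,
      tsum_eq_single ξ fun i hi => by simp [h0 i hi], h1, hQ, one_mul]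
    have hp := C.pi_pos ξ
    have hs := Real.sqrt_pos.2 hp
    have a1 := Real.log_le_sub_one_of_pos (one_div_pos.2 hs)
    have a2 : Real.log (1 / pi ξ) = 2 * Real.log (1 / √(pi ξ)) := by
      rw [one_div, one_div, Real.log_inv, Real.log_inv, Real.log_sqrt hp.le]; ring
    have a3 : pi ξ * (1 / √(pi ξ)) = √(pi ξ) := by
      field_simp; exact (Real.sq_sqrt hp.le).symm
    have := mul_le_mul_of_nonneg_left a1 hp.le
    rw [a2]; linarith
  refine ne_top_of_le_ne_top ?_ this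
  rw [← ENNReal.ofReal_tsum_of_nonneg (fun i => by positivity) (C.sq.mul_left 2)]
  exact ENNReal.ofReal_ne_top

lemma Chain.HH_tendsto (C : Chain d x pi ε) (hd : 0 < d) :
    Tendsto (HH d x pi ε) atTop (𝓝 0) := by
  apply ENNReal.tendsto_atTop_zero_of_tsum_ne_top
  have h : ∀ n, II d x pi n + ∑ k ∈ range n, HH d x pi ε k ≤ II d x pi 0 := by
    intro n
    induction n with
    | zero => simp
    | succ n ih =>
      rw [sum_range_succ]
      calc _ ≤ d * JJ d x pi n + (∑ k ∈ range n, HH d x pi ε k + HH d x pi ε n) := by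
            gcongr; exact C.step1 hd n
        _ = (d * JJ d x pi n + HH d x pi ε n) + ∑ k ∈ range n, HH d x pi ε k := by ring
        _ ≤ II d x pi n + ∑ k ∈ range n, HH d x pi ε k := by gcongr; exact C.step2 hd n
        _ ≤ _ := ih
  refine ne_top_of_le_ne_top (C.II_zero hd) ?_
  exact ENNReal.tsum_le_of_sum_range_le fun n => le_add_self.trans (h n)

/-- asymptotic closeness in total variation -/
def Cl {d : ℕ} (f g : (n : ℕ) → Lev d n → ℝ) : Prop :=
  ∀ η : ℝ, 0 < η → ∀ᶠ n in atTop, ∀ G : Finset (Lev d n), ∑ ξ ∈ G, |f n ξ - g n ξ| ≤ η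

lemma sum_le_one_of {α : Type*} {μ : α → ℝ} {S : Finset α} (h0 : ∀ ξ, 0 ≤ μ ξ)
    (hS : ∀ ξ, ξ ∉ S → μ ξ = 0) (h1 : ∑ ξ ∈ S, μ ξ = 1) (G : Finset α) : ∑ ξ ∈ G, μ ξ ≤ 1 := by
  classical
  rw [← h1, sum_subset (subset_union_right (s₁ := G)) fun ξ _ hξ => hS ξ hξ]
  exact sum_le_sum_of_subset_of_nonneg subset_union_left fun ξ _ _ => h0 ξ

theorem Chain.nonrec (C : Chain d x pi ε) (hd : 0 < d) (i j : ℤ) :
    Cl (fun n => mp d x n i) (fun n => mp d x n j) := by
  intro η hη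
  have pi1 := C.pi_pos i; have pj := C.pi_pos j; have he := C.eps
  set K := 2 * (1 / pi i + 1 / pi j) with hK
  have hK0 : 0 < K := by positivity
  have := (ENNReal.tendsto_nhds_zero.1 (C.HH_tendsto hd)) (ENNReal.ofReal (ε * η ^ 2 / (4 * K)))
    (ENNReal.ofReal_pos.2 (by positivity))
  filter_upwards [this] with n hn G
  have h1 : ∑ ξ ∈ G, ε * hel d x pi n ξ ≤ ε * η ^ 2 / (4 * K) := by
    rw [← ENNReal.ofReal_le_ofReal_iff (by positivity), ENNReal.ofReal_sum_of_nonneg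
      fun ξ _ => mul_nonneg he.le (C.hel_nn hd n ξ)]
    exact (ENNReal.sum_le_tsum G).trans hn
  have pt : ∀ ξ ∈ G, |mp d x n i ξ - mp d x n j ξ| ≤
      2 * K / (η * ε) * (ε * hel d x pi n ξ) + η / 4 * (mp d x n i ξ + mp d x n j ξ) := by
    intro ξ _
    have V := C.vec_mp hd n ξ
    have a1 := C.dev' hd n ξ i
    have a2 := C.dev' hd n ξ j
    have hh := C.hel_nn hd n ξ
    set Q := QQ d x pi n ξ
    set m := ∑' i, pi i * √(mp d x n i ξ / Q)
    rcases V.q0.eq_or_lt with h0 | h0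
    · have z : ∀ k, mp d x n k ξ = 0 := fun k =>
        ((V.nn k).eq_or_lt.resolve_right fun hk => (V.ac k hk).ne h0).symm
      rw [z, z]; simp; positivity
    · have b1 : mp d x n i ξ = Q * √(mp d x n i ξ / Q) ^ 2 := by
        rw [Real.sq_sqrt (div_nonneg (V.nn i) V.q0)]; field_simp
      have b2 : mp d x n j ξ = Q * √(mp d x n j ξ / Q) ^ 2 := by
        rw [Real.sq_sqrt (div_nonneg (V.nn j) V.q0)]; field_simp
      have n1 := Real.sqrt_nonneg (mp d x n i ξ / Q)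
      have n2 := Real.sqrt_nonneg (mp d x n j ξ / Q)
      generalize √(mp d x n i ξ / Q) = u at *
      generalize √(mp d x n j ξ / Q) = w at *
      have c1 : Q * (u - m) ^ 2 ≤ 1 / pi i * hel d x pi n ξ := by
        rw [one_div_mul_eq_div, le_div_iff₀ pi1]; linarith
      have c2 : Q * (w - m) ^ 2 ≤ 1 / pi j * hel d x pi n ξ := by
        rw [one_div_mul_eq_div, le_div_iff₀ pj]; linarith
      have c3 : Q * (u - w) ^ 2 ≤ K * hel d x pi n ξ := by
        have := mul_nonneg h0.le (sq_nonneg (u + w - 2 * m))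
        rw [hK]; nlinarith
      have c4 : |u ^ 2 - w ^ 2| ≤ 2 / η * (u - w) ^ 2 + η / 4 * (u ^ 2 + w ^ 2) := by
        rw [show u ^ 2 - w ^ 2 = (u - w) * (u + w) by ring, abs_mul, abs_of_nonneg (by positivity :
          0 ≤ u + w), ← sq_abs (u - w)]
        have t1 : |u - w| * (u + w) ≤ 2 / η * |u - w| ^ 2 + η / 8 * (u + w) ^ 2 := by
          have := mul_nonneg (show 0 ≤ 2 / η by positivity) (sq_nonneg (|u - w| - η / 4 * (u + w)))
          have e : 2 / η * (|u - w| - η / 4 * (u + w)) ^ 2 =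
            2 / η * |u - w| ^ 2 + η / 8 * (u + w) ^ 2 - |u - w| * (u + w) := by field_simp; ring
          linarith
        nlinarith [mul_nonneg hη.le (sq_nonneg (u - w))]
      rw [b1, b2, ← mul_sub, abs_mul, abs_of_pos h0]
      have c5 := mul_le_mul_of_nonneg_left c4 h0.le
      have c6 := mul_le_mul_of_nonneg_left c3 (show 0 ≤ 2 / η by positivity)
      have e : 2 * K / (η * ε) * (ε * hel d x pi n ξ) = 2 / η * (K * hel d x pi n ξ) := by
        field_simp
      rw [e]; linarith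
  refine (sum_le_sum pt).trans ?_
  rw [sum_add_distrib, ← mul_sum, ← mul_sum _ _ (η / 4), sum_add_distrib]
  have s1 := sum_le_one_of (mp_nn C.pos n i) (mp_zero n i) (mp_sum C.pos n i) G
  have s2 := sum_le_one_of (mp_nn C.pos n j) (mp_zero n j) (mp_sum C.pos n j) G
  calc _ ≤ 2 * K / (η * ε) * (ε * η ^ 2 / (4 * K)) + η / 4 * (1 + 1) := by gcongr
    _ = η := by field_simp; ring

end Pool.Agent.P.MP_23c5a6_pr
end

-- part Pool.Agent.P.MP_23c5a6_pr.Tree
section

namespace Pool.Agent.P.MP_23c5a6_pr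

open Finset Filter Topology

variable {d : ℕ}

def sub {α : Type*} (f : List (Fin d) → α) (a : Fin d) : List (Fin d) → α := fun w => f (a :: w)

def graft (i : ℤ) (g : Fin d → List (Fin d) → ℤ) : List (Fin d) → ℤ
  | [] => i
  | a :: w => g a w

def LipB (n : ℕ) (f : List (Fin d) → ℤ) : Prop :=
  ∀ (v : List (Fin d)) (a : Fin d), v.length < n → |f (v ++ [a]) - f v| ≤ 1

lemma Lip.lipB {f : List (Fin d) → ℤ} (h : Lip f) (n : ℕ) : LipB n f := fun v a _ => h v a

lemma lipB_succ {n : ℕ} {f : List (Fin d) → ℤ} :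
    LipB (n + 1) f ↔ ∀ a, |f [a] - f []| ≤ 1 ∧ LipB n (sub f a) := by
  constructor
  · intro h a
    exact ⟨h [] a (by simp), fun v b hv => h (a :: v) b (by simpa using hv)⟩
  · intro h v b hv
    cases v with
    | nil => exact (h b).1
    | cons a w => exact (h a).2 w b (by simpa using hv)

noncomputable instance : DecidableEq (List (Fin d) → ℤ) := Classical.decEq _

noncomputable def conf (d : ℕ) : ℕ → ℤ → Finset (List (Fin d) → ℤ)
  | 0, i => {graft i fun _ _ => 0}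
  | n + 1, i => (Fintype.piFinset fun _ : Fin d =>
      conf d n (i - 1) ∪ conf d n i ∪ conf d n (i + 1)).image (graft i)

lemma graft_sub (f : List (Fin d) → ℤ) : graft (f []) (sub f) = f := by
  ext v; cases v <;> rfl

lemma mem_conf : ∀ {n : ℕ} {i : ℤ} {f : List (Fin d) → ℤ},
    f ∈ conf d n i ↔ f [] = i ∧ LipB n f ∧ ∀ v : List (Fin d), n < v.length → f v = 0
  | 0, i, f => by
    simp only [conf, mem_singleton]
    constructor
    · rintro rfl
      refine ⟨rfl, fun v a hv => by omega, fun v hv => ?_⟩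
      cases v with
      | nil => simp at hv
      | cons a w => rfl
    · rintro ⟨rfl, -, h⟩
      ext v
      cases v with
      | nil => rfl
      | cons a w => exact h _ (by simp)
  | n + 1, i, f => by
    simp only [conf, mem_image, Fintype.mem_piFinset, mem_union, mem_conf, lipB_succ]
    constructor
    · rintro ⟨g, hg, rfl⟩
      refine ⟨rfl, fun a => ?_, fun v hv => ?_⟩
      · have e1 : graft i g [a] = g a [] := rfl
        have e2 : graft i g [] = i := rfl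
        rw [e1, e2]
        rcases hg a with (h | h) | h <;> exact ⟨by rw [h.1]; simp, h.2.1⟩
      · cases v with
        | nil => simp at hv
        | cons a w =>
          have hw : n < w.length := by simpa using hv
          rcases hg a with (h | h) | h <;> exact h.2.2 w hw
    · rintro ⟨rfl, h1, h2⟩
      refine ⟨sub f, fun a => ?_, graft_sub f⟩
      have h3 : ∀ v : List (Fin d), n < v.length → sub f a v = 0 := fun v hv =>
        h2 _ (by simpa using hv)
      have h4 := abs_le.1 (h1 a).1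
      have e : sub f a [] = f [a] := rfl
      rcases (show f [a] = f [] - 1 ∨ f [a] = f [] ∨ f [a] = f [] + 1 by omega) with h | h | h
      · exact Or.inl (Or.inl ⟨h, (h1 a).2, h3⟩)
      · exact Or.inl (Or.inr ⟨h, (h1 a).2, h3⟩)
      · exact Or.inr ⟨h, (h1 a).2, h3⟩

lemma conf_disj {n : ℕ} {i j : ℤ} (h : i ≠ j) : Disjoint (conf d n i) (conf d n j) :=
  disjoint_left.2 fun _ h1 h2 => h ((mem_conf.1 h1).1.symm.trans (mem_conf.1 h2).1)

lemma sum_conf_succ (n : ℕ) (i : ℤ) (φ : Fin d → (List (Fin d) → ℤ) → ℝ) :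
    ∑ f ∈ conf d (n + 1) i, ∏ a, φ a (sub f a) = ∏ a, (∑ f ∈ conf d n (i - 1), φ a f +
      ∑ f ∈ conf d n i, φ a f + ∑ f ∈ conf d n (i + 1), φ a f) := by
  rw [conf, sum_image]
  · have := prod_univ_sum (fun _ : Fin d => conf d n (i - 1) ∪ conf d n i ∪ conf d n (i + 1)) φ
    refine this.symm.trans (prod_congr rfl fun a _ => ?_)
    rw [sum_union, sum_union (conf_disj (by omega))]
    rw [disjoint_union_left]; exact ⟨conf_disj (by omega), conf_disj (by omega)⟩
  · intro g _ g' _ h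
    ext a w
    exact congrFun h (a :: w)

noncomputable def WW : ℕ → (List (Fin d) → ℤ → ℝ) → (ℤ → ℝ) → ℤ → ℝ
  | 0, e, b, i => e [] i * b i
  | n + 1, e, b, i => e [] i *
      ∏ a, (WW n (sub e a) b (i - 1) + WW n (sub e a) b i + WW n (sub e a) b (i + 1))

noncomputable def wt : ℕ → (List (Fin d) → ℤ → ℝ) → (ℤ → ℝ) → (List (Fin d) → ℤ) → ℝ
  | 0, e, b, f => e [] (f []) * b (f [])
  | n + 1, e, b, f => e [] (f []) * ∏ a, wt n (sub e a) b (sub f a)

lemma sum_wt : ∀ (n : ℕ) (e : List (Fin d) → ℤ → ℝ) (b : ℤ → ℝ) (i : ℤ),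
    ∑ f ∈ conf d n i, wt n e b f = WW n e b i
  | 0, e, b, i => by simp [conf, wt, WW, graft]
  | n + 1, e, b, i => by
    rw [sum_congr rfl (g := fun f => e [] i * ∏ a, wt n (sub e a) b (sub f a))
      fun f hf => by rw [wt, (mem_conf.1 hf).1], ← mul_sum,
      sum_conf_succ n i (fun a f => wt n (sub e a) b f)]
    simp only [sum_wt n, WW]

open Classical in
noncomputable def ind (E : List (Fin d) → ℤ → Prop) : List (Fin d) → ℤ → ℝ :=
  fun v j => if E v j then 1 else 0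

open Classical in
lemma wt_ind : ∀ (n : ℕ) (E : List (Fin d) → ℤ → Prop) (b : ℤ → ℝ) (f : List (Fin d) → ℤ),
    wt n (ind E) b f = if ∀ v : List (Fin d), v.length ≤ n → E v (f v) then wt n 1 b f else 0
  | 0, E, b, f => by
    have : (∀ v : List (Fin d), v.length ≤ 0 → E v (f v)) ↔ E [] (f []) := by simp
    simp only [this, wt, ind]; split_ifs <;> simp
  | n + 1, E, b, f => by
    have e1 : ∀ a, sub (ind E) a = ind (sub E a) := fun a => rfl
    have e2 : ∀ a : Fin d, sub (1 : List (Fin d) → ℤ → ℝ) a = 1 := fun a => rfl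
    simp only [wt, e1, e2, wt_ind n, Pi.one_apply, one_mul]
    split_ifs with h
    · rw [ind, if_pos (h [] (by simp)), one_mul]
      refine prod_congr rfl fun a _ => if_pos fun v hv => h (a :: v) (by simpa using hv)
    · push Not at h
      obtain ⟨v, hv, hE⟩ := h
      cases v with
      | nil => rw [ind, if_neg hE, zero_mul]
      | cons a w =>
        rw [prod_eq_zero (mem_univ a), mul_zero]
        exact if_neg fun hh => hE (hh w (by simpa using hv))

open Classical in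
lemma wt_leaf (S : Set ℤ) : ∀ (n : ℕ) (f : List (Fin d) → ℤ),
    wt n 1 (S.indicator 1) f = if ∀ v : List (Fin d), v.length = n → f v ∈ S then 1 else 0
  | 0, f => by
    have : (∀ v : List (Fin d), v.length = 0 → f v ∈ S) ↔ f [] ∈ S := by simp
    simp only [this, wt, Set.indicator]; split_ifs <;> simp
  | n + 1, f => by
    have e2 : ∀ a : Fin d, sub (1 : List (Fin d) → ℤ → ℝ) a = 1 := fun a => rfl
    simp only [wt, e2, wt_leaf S n, Pi.one_apply, one_mul]
    split_ifs with h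
    · exact prod_eq_one fun a _ => if_pos fun v hv => h (a :: v) (by simpa using hv)
    · push Not at h
      obtain ⟨v, hv, hE⟩ := h
      cases v with
      | nil => simp at hv
      | cons a w =>
        exact prod_eq_zero (mem_univ a) (if_neg fun hh => hE (hh w (by simpa using hv)))

lemma wt_congr (b : ℤ → ℝ) : ∀ (n : ℕ) (f g : List (Fin d) → ℤ),
    (∀ v : List (Fin d), v.length = n → f v = g v) → wt n 1 b f = wt n 1 b g
  | 0, f, g, h => by simp [wt, h [] rfl]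
  | n + 1, f, g, h => by
    have e2 : ∀ a : Fin d, sub (1 : List (Fin d) → ℤ → ℝ) a = 1 := fun a => rfl
    simp only [wt, e2, Pi.one_apply, one_mul]
    exact prod_congr rfl fun a _ => wt_congr b n _ _ fun v hv => h (a :: v) (by simpa using hv)

lemma wt_pos {b : ℤ → ℝ} (hb : ∀ i, 0 < b i) : ∀ (n : ℕ) (f : List (Fin d) → ℤ), 0 < wt n 1 b f
  | 0, f => by simpa [wt] using hb _
  | n + 1, f => by
    have e2 : ∀ a : Fin d, sub (1 : List (Fin d) → ℤ → ℝ) a = 1 := fun a => rfl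
    simp only [wt, e2, Pi.one_apply, one_mul]
    exact prod_pos fun a _ => wt_pos hb n _

lemma WW_nn {b : ℤ → ℝ} (hb : ∀ i, 0 ≤ b i) : ∀ (n : ℕ) (e : List (Fin d) → ℤ → ℝ),
    (∀ v j, 0 ≤ e v j) → ∀ i, 0 ≤ WW n e b i
  | 0, e, he, i => mul_nonneg (he _ _) (hb _)
  | n + 1, e, he, i => mul_nonneg (he _ _) (prod_nonneg fun a _ => by
      have := WW_nn hb n (sub e a) fun v j => he _ _
      exact add_nonneg (add_nonneg (this _) (this _)) (this _))

lemma WW_le {b : ℤ → ℝ} (hb : ∀ i, 0 ≤ b i) : ∀ (n : ℕ) (e : List (Fin d) → ℤ → ℝ),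
    (∀ v j, 0 ≤ e v j) → (∀ v j, e v j ≤ 1) → ∀ i, WW n e b i ≤ WW n (1 : List (Fin d) → ℤ → ℝ) b i
  | 0, e, he, he', i => mul_le_mul_of_nonneg_right (he' _ _) (hb _)
  | n + 1, e, he, he', i => by
    have h0 : ∀ a, 0 ≤ WW n (sub e a) b (i - 1) + WW n (sub e a) b i + WW n (sub e a) b (i + 1) :=
      fun a => by
        have := WW_nn hb n (sub e a) fun v j => he _ _
        exact add_nonneg (add_nonneg (this _) (this _)) (this _)
    refine mul_le_mul (he' _ _) (prod_le_prod (fun a _ => h0 a) fun a _ => ?_)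
      (prod_nonneg fun a _ => h0 a) zero_le_one
    have := WW_le hb n (sub e a) (fun v j => he _ _) fun v j => he' _ _
    exact add_le_add (add_le_add (this _) (this _)) (this _)

lemma WW_semi (b : ℤ → ℝ) (M : ℕ) : ∀ (k : ℕ) (e : List (Fin d) → ℤ → ℝ),
    (∀ v : List (Fin d), k < v.length → e v = 1) →
    WW (M + k) e b = WW k e (WW M (1 : List (Fin d) → ℤ → ℝ) b)
  | 0, e, he => by
    ext i
    cases M with
    | zero => simp [WW]
    | succ M =>
      have : ∀ a, sub e a = sub 1 a := fun a => funext fun w => he _ (by simp)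
      simp [WW, this]
  | k + 1, e, he => by
    ext i
    have := fun a => WW_semi b M k (sub e a) fun v hv => he _ (by simpa using hv)
    simp only [WW, Nat.add_eq, this]

lemma WW_smul (b : ℤ → ℝ) (l : ℝ) : ∀ (k : ℕ) (e : List (Fin d) → ℤ → ℝ) (i : ℤ),
    WW k e (fun j => l * b j) i = l ^ (d ^ k) * WW k e b i
  | 0, e, i => by simp [WW]; ring
  | k + 1, e, i => by
    simp only [WW, WW_smul b l k, ← mul_add, prod_mul_distrib, prod_const, card_univ,
      Fintype.card_fin, ← pow_mul, pow_succ]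
    ring

lemma WW_tendsto {b : ℕ → ℤ → ℝ} {b' : ℤ → ℝ} (h : ∀ i, Tendsto (fun M => b M i) atTop (𝓝 (b' i))) :
    ∀ (k : ℕ) (e : List (Fin d) → ℤ → ℝ) (i : ℤ),
    Tendsto (fun M => WW k e (b M) i) atTop (𝓝 (WW k e b' i))
  | 0, e, i => (h i).const_mul _
  | k + 1, e, i => Tendsto.const_mul _ (tendsto_finsetProd _ fun a _ =>
      ((WW_tendsto h k _ _).add (WW_tendsto h k _ _)).add (WW_tendsto h k _ _))

lemma root_bound (hd : 0 < d) : ∀ (n : ℕ) (f : List (Fin d) → ℤ), LipB n f →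
    |f (List.replicate n ⟨0, hd⟩) - f []| ≤ n
  | 0, f, _ => by simp
  | n + 1, f, h => by
    obtain ⟨h1, h2⟩ := lipB_succ.1 h ⟨0, hd⟩
    have := root_bound hd n _ h2
    simp only [sub] at this
    rw [List.replicate_succ, abs_le] at *
    push_cast; constructor <;> linarith [this.1, this.2, h1.1, h1.2]

def ball (d : ℕ) : ℕ → Finset (List (Fin d))
  | 0 => {[]}
  | n + 1 => insert [] (univ.biUnion fun a => (ball d n).image (a :: ·))

lemma mem_ball : ∀ {n : ℕ} {v : List (Fin d)}, v ∈ ball d n ↔ v.length ≤ n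
  | 0, v => by simp [ball]
  | n + 1, [] => by simp [ball]
  | n + 1, a :: w => by simp [ball, mem_ball (n := n)]

lemma prod_ball (n : ℕ) (g : List (Fin d) → ℝ) :
    ∏ v ∈ ball d (n + 1), g v = g [] * ∏ a, ∏ w ∈ ball d n, g (a :: w) := by
  rw [ball, prod_insert (by simp), prod_biUnion]
  · congr 1
    exact prod_congr rfl fun a _ => prod_image fun _ _ _ _ h => by simpa using h
  · intro a _ b _ hab
    simp only [Function.onFun, disjoint_left, mem_image]
    rintro _ ⟨w, -, rfl⟩ ⟨w', -, h⟩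
    simp at h; exact hab h.1.symm

lemma exists_ball (U : Finset (List (Fin d))) : ∃ k, ∀ u ∈ U, u.length ≤ k :=
  ⟨U.sup List.length, fun _ hu => Finset.le_sup (f := List.length) hu⟩

def trunc (n : ℕ) (f : List (Fin d) → ℤ) : List (Fin d) → ℤ :=
  fun v => if v.length ≤ n then f v else 0

lemma trunc_mem {n : ℕ} {f : List (Fin d) → ℤ} (h : LipB n f) : trunc n f ∈ conf d n (f []) := by
  refine mem_conf.2 ⟨by simp [trunc], fun v a hv => ?_, fun v hv => if_neg (by omega)⟩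
  have h1 : (v ++ [a]).length ≤ n := by simp; omega
  simp only [trunc, if_pos h1, if_pos hv.le]; exact h v a hv

end Pool.Agent.P.MP_23c5a6_pr
end

-- part Pool.Agent.P.MP_23c5a6_pr.Meas
section

namespace Pool.Agent.P.MP_23c5a6_pr

open Finset Filter Topology MeasureTheory

variable {d : ℕ}

lemma meas_cyl (U : Finset (List (Fin d))) (η : List (Fin d) → ℤ) : MeasurableSet (cyl U η) := by
  have : cyl U η = ⋂ u ∈ U, (fun f : List (Fin d) → ℤ => f u) ⁻¹' {η u} := by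
    ext f; simp [cyl]
  rw [this]
  exact Finset.measurableSet_biInter _ fun u _ => measurable_pi_apply u (measurableSet_singleton _)

lemma meas_Lip : MeasurableSet {f : List (Fin d) → ℤ | Lip f} := by
  have : {f : List (Fin d) → ℤ | Lip f} = ⋂ v, ⋂ a, (fun f : List (Fin d) → ℤ =>
      (f (v ++ [a]), f v)) ⁻¹' {p : ℤ × ℤ | |p.1 - p.2| ≤ 1} := by
    ext f; simp [Lip]
  rw [this]
  exact MeasurableSet.iInter fun v => MeasurableSet.iInter fun a =>
    ((measurable_pi_apply _).prodMk (measurable_pi_apply _)) (MeasurableSet.of_discrete)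

lemma ext_ball (n : ℕ) {μ ν : Measure (List (Fin d) → ℤ)} [IsFiniteMeasure μ]
    (h : ∀ m, n ≤ m → ∀ ζ, μ (cyl (ball d m) ζ) = ν (cyl (ball d m) ζ)) : μ = ν := by
  have key : ∀ m, n ≤ m → μ.map (ball d m).restrict = ν.map (ball d m).restrict := by
    intro m hm
    apply Measure.ext_of_singleton
    intro a
    rw [Measure.map_apply (Finset.measurable_restrict _) (measurableSet_singleton _),
      Measure.map_apply (Finset.measurable_restrict _) (measurableSet_singleton _)]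
    have : (ball d m).restrict (π := fun _ => ℤ) ⁻¹' {a} =
        cyl (ball d m) (fun v => if h : v ∈ ball d m then a ⟨v, h⟩ else 0) := by
      ext f
      simp only [Set.mem_preimage, Set.mem_singleton_iff, cyl, Set.mem_ofPred_eq]
      constructor
      · rintro rfl u hu; rw [dif_pos hu]; rfl
      · intro hf; ext u; have := hf u.1 u.2; rw [dif_pos u.2] at this; exact this
    rw [this]; exact h m hm _
  have key2 : ∀ m, n ≤ m → ∀ S, MeasurableSet S →
      μ ((ball d m).restrict ⁻¹' S) = ν ((ball d m).restrict ⁻¹' S) := by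
    intro m hm S hS
    rw [← Measure.map_apply (Finset.measurable_restrict _) hS, key m hm,
      Measure.map_apply (Finset.measurable_restrict _) hS]
  refine ext_of_generate_finite _ generateFrom_measurableCylinders.symm
    isPiSystem_measurableCylinders (fun t ht => ?_) ?_
  · obtain ⟨s, S, hS, rfl⟩ := (mem_measurableCylinders t).1 ht
    obtain ⟨k, hk⟩ := exists_ball s
    have hs : s ⊆ ball d (max n k) := fun u hu => mem_ball.2 ((hk u hu).trans (le_max_right _ _))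
    exact key2 (max n k) (le_max_left _ _) (Finset.restrict₂ (π := fun _ => ℤ) hs ⁻¹' S)
      (Finset.measurable_restrict₂ hs hS)
  · exact key2 n le_rfl Set.univ MeasurableSet.univ

lemma exists_law {p : ℤ → ℝ} (h0 : ∀ j, 0 ≤ p j) (h1 : HasSum p 1) :
    ∃ μ : Measure ℤ, IsProbabilityMeasure μ ∧ ∀ j, μ {j} = ENNReal.ofReal (p j) := by
  have : HasSum (fun j => ENNReal.ofReal (p j)) 1 := by
    rw [ENNReal.summable.hasSum_iff, ← ENNReal.ofReal_tsum_of_nonneg h0 h1.summable, h1.tsum_eq,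
      ENNReal.ofReal_one]
  refine ⟨PMF.toMeasure ⟨_, this⟩, inferInstance, fun j => ?_⟩
  rw [PMF.toMeasure_apply_singleton _ _ (measurableSet_singleton _)]; rfl

def GG : ℤ → (List (Fin d) → ℤ → ℤ) → List (Fin d) → ℤ
  | i, _, [] => i
  | i, U, a :: w => GG (U [a] i) (sub U a) w

lemma GG_concat : ∀ (v : List (Fin d)) (a : Fin d) (i : ℤ) (U : List (Fin d) → ℤ → ℤ),
    GG i U (v ++ [a]) = U (v ++ [a]) (GG i U v)
  | [], _, _, _ => rfl
  | b :: w, a, i, U => GG_concat w a (U [b] i) (sub U b)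

def FF (ω : List (Fin d) × ℤ → ℤ) : List (Fin d) → ℤ := GG (ω ([], 0)) fun v i => ω (v, i)

lemma FF_concat (ω : List (Fin d) × ℤ → ℤ) (v : List (Fin d)) (a : Fin d) :
    FF ω (v ++ [a]) = ω (v ++ [a], FF ω v) := GG_concat v a _ _

lemma measurable_FF : Measurable (FF (d := d)) := by
  refine measurable_pi_iff.2 fun v => ?_
  induction v using List.reverseRecOn with
  | nil => exact measurable_pi_apply _
  | append_singleton v a ih =>
    simp only [FF_concat]
    have : Measurable fun p : (List (Fin d) × ℤ → ℤ) × ℤ => p.1 (v ++ [a], p.2) :=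
      measurable_from_prod_countable_left fun j => measurable_pi_apply (v ++ [a], j)
    exact this.comp (measurable_id.prodMk ih)

def par (ζ : List (Fin d) → ℤ) (v : List (Fin d)) : ℤ := if v = [] then 0 else ζ v.dropLast

lemma FF_mem {n : ℕ} {ζ : List (Fin d) → ℤ} {ω : List (Fin d) × ℤ → ℤ} :
    FF ω ∈ cyl (ball d n) ζ ↔ ∀ v ∈ ball d n, ω (v, par ζ v) = ζ v := by
  simp only [cyl, Set.mem_ofPred_eq, mem_ball]
  constructor
  · intro h v hv
    induction v using List.reverseRecOn with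
    | nil => exact h [] hv
    | append_singleton v a _ =>
      have := h v (by simp at hv; omega)
      rw [← h _ hv, FF_concat, this]; simp [par]
  · intro h v hv
    induction v using List.reverseRecOn with
    | nil => exact h [] hv
    | append_singleton v a ih =>
      rw [FF_concat, ih (by simp at hv; omega), ← h _ hv]; simp [par]

noncomputable def tp (x : ℤ → ℝ) (i j : ℤ) : ℝ := if |j - i| ≤ 1 then x j / YY x i else 0

lemma hasSum_tp {x : ℤ → ℝ} (hx : ∀ i, 0 < x i) (i : ℤ) : HasSum (tp x i) 1 := by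
  have := hasSum_sum_of_ne_finset_zero (L := SummationFilter.unconditional _) (f := tp x i)
    (s := {i - 1, i, i + 1}) (fun j hj => if_neg fun h => hj (by
      simp only [mem_insert, mem_singleton]; rw [abs_le] at h; omega))
  rw [sum_insert (by simp; omega), sum_insert (by simp), sum_singleton] at this
  have h := YY_pos hx i
  convert this using 1
  simp [tp]; field_simp; unfold YY; ring

noncomputable def kap (d : ℕ) (g : ℝ) : ℕ → ℝ
  | 0 => 1
  | n + 1 => kap d g n ^ d * g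

lemma kap_pos {g : ℝ} (hg : 0 < g) : ∀ n, 0 < kap d g n
  | 0 => one_pos
  | n + 1 => mul_pos (pow_pos (kap_pos hg n) _) hg

noncomputable def TT (x : ℤ → ℝ) (ζ : List (Fin d) → ℤ) (v : List (Fin d)) : ℝ :=
  if v = [] then 1 else tp x (ζ v.dropLast) (ζ v)

lemma prod_TT {x : ℤ → ℝ} (hx : ∀ i, 0 < x i) {g : ℝ} (hg : ∀ i, YY x i ^ d = g * x i) :
    ∀ (n : ℕ) (ζ : List (Fin d) → ℤ), LipB n ζ →
      x (ζ []) * kap d g n * ∏ v ∈ ball d n, TT x ζ v = wt n 1 x ζ
  | 0, ζ, _ => by simp [ball, TT, kap, wt]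
  | n + 1, ζ, h => by
    have e2 : ∀ a : Fin d, sub (1 : List (Fin d) → ℤ → ℝ) a = 1 := fun a => rfl
    have e1 : ∀ a w, TT x ζ (a :: w) =
        (if w = [] then x (ζ [a]) / YY x (ζ []) else 1) * TT x (sub ζ a) w := by
      intro a w
      cases w with
      | nil => simp [TT, tp, (lipB_succ.1 h a).1]
      | cons b w => simp [TT, sub]
    have hY := YY_pos hx (ζ [])
    have h0 : ([] : List (Fin d)) ∈ ball d n := mem_ball.2 (by simp)
    rw [prod_ball, wt]
    simp only [e1, e2, prod_mul_distrib, prod_ite_eq', h0, if_true, Pi.one_apply, one_mul,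
      ← fun a => prod_TT hx hg n _ (lipB_succ.1 h a).2, prod_div_distrib, prod_const, card_univ,
      Fintype.card_fin, hg, kap]
    have hg0 : g ≠ 0 := by
      intro h0; have := hg 0; rw [h0, zero_mul] at this; exact (pow_pos (YY_pos hx 0) d).ne' this
    have := (hx (ζ [])).ne'
    simp only [TT, if_true, sub]
    field_simp

structure Mk (x : ℤ → ℝ) (g X : ℝ) (μ : Measure (List (Fin d) → ℤ)) : Prop where
  prob : IsProbabilityMeasure μ
  lip : ∀ᵐ f ∂μ, Lip f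
  cy : ∀ n ζ, LipB n ζ → μ.real (cyl (ball d n) ζ) = wt n 1 x ζ / (kap d g n * X)

theorem exists_Mk {x : ℤ → ℝ} (hx : ∀ i, 0 < x i) {g X : ℝ} (hg : ∀ i, YY x i ^ d = g * x i)
    (hX : HasSum x X) : ∃ μ : Measure (List (Fin d) → ℤ), Mk x g X μ := by
  have hX0 : 0 < X := (hx 0).trans_le (le_hasSum hX 0 fun j _ => (hx j).le)
  have hg0 : 0 < g := by
    have h1 := pow_pos (YY_pos hx 0) d
    rw [hg 0] at h1; exact (mul_pos_iff_of_pos_right (hx 0)).1 h1
  set p : List (Fin d) × ℤ → ℤ → ℝ := fun q j => if q.1 = [] then x j / X else tp x q.2 j with hp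
  have hp0 : ∀ q j, 0 ≤ p q j := by
    intro q j; have := hx j; have := YY_pos hx q.2
    simp only [hp, tp]; split_ifs <;> positivity
  have hp1 : ∀ q, HasSum (p q) 1 := by
    intro q
    by_cases h : q.1 = []
    · simp only [hp, h, if_true]; rw [← div_self hX0.ne']; exact hX.div_const X
    · simp only [hp, h, if_false]; exact hasSum_tp hx _
  choose law hl1 hl2 using fun q => exists_law (hp0 q) (hp1 q)
  refine ⟨(Measure.infinitePi law).map FF, Measure.isProbabilityMeasure_map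
    measurable_FF.aemeasurable, ?_, fun n ζ hζ => ?_⟩
  · rw [ae_map_iff measurable_FF.aemeasurable meas_Lip]
    have : ∀ᵐ ω ∂Measure.infinitePi law, ∀ q : List (Fin d) × ℤ, q.1 ≠ [] → |ω q - q.2| ≤ 1 := by
      rw [ae_all_iff]
      intro q
      by_cases h : q.1 = []
      · simp [h]
      · simp only [ne_eq, h, not_false_eq_true, forall_const]
        apply (measurePreserving_eval_infinitePi law q).quasiMeasurePreserving.ae
          (p := fun j => |j - q.2| ≤ 1)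
        rw [ae_iff_of_countable]
        intro j hj
        by_contra hh
        apply hj
        rw [hl2]; simp [hp, h, tp, hh]
    filter_upwards [this] with ω hω v a
    rw [FF_concat]; exact hω (v ++ [a], FF ω v) (by simp)
  · rw [Measure.real, Measure.map_apply measurable_FF (meas_cyl _ _)]
    have inj : Set.InjOn (fun v => (v, par ζ v)) (ball d n : Set (List (Fin d))) :=
      fun _ _ _ _ h => (Prod.mk.inj h).1
    have : FF ⁻¹' cyl (ball d n) ζ = Set.pi (((ball d n).image fun v => (v, par ζ v) : Finset _) : Set _)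
        fun q => {ζ q.1} := by
      ext ω; simp [FF_mem]
    rw [this, Measure.infinitePi_pi _ fun _ _ => measurableSet_singleton _, prod_image inj]
    simp only [hl2]
    rw [← ENNReal.ofReal_prod_of_nonneg fun _ _ => hp0 _ _,
      ENNReal.toReal_ofReal (prod_nonneg fun _ _ => hp0 _ _), ← prod_TT hx hg n ζ hζ]
    have e : ∀ v, p (v, par ζ v) (ζ v) = (if v = [] then x (ζ []) / X else 1) * TT x ζ v := by
      intro v
      by_cases h : v = [] <;> simp [hp, h, TT, par]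
    have h0 : ([] : List (Fin d)) ∈ ball d n := mem_ball.2 (by simp)
    simp only [e, prod_mul_distrib, prod_ite_eq', h0, if_true]
    have := kap_pos (d := d) hg0 n
    field_simp

end Pool.Agent.P.MP_23c5a6_pr
end

-- part Pool.Agent.P.MP_23c5a6_pr.Limit
section

namespace Pool.Agent.P.MP_23c5a6_pr

open Finset Filter Topology MeasureTheory

variable {d : ℕ}

def Ev (n : ℕ) (E : List (Fin d) → ℤ → Prop) (i : ℤ) : Set (List (Fin d) → ℤ) :=
  {f | f [] = i ∧ ∀ v : List (Fin d), v.length ≤ n → E v (f v)}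

open Classical in
lemma meas_Ev {ν : Measure (List (Fin d) → ℤ)} [IsFiniteMeasure ν] (hν : ∀ᵐ f ∂ν, Lip f) (n : ℕ)
    (E : List (Fin d) → ℤ → Prop) (i : ℤ) : ν.real (Ev n E i) = ∑ ζ ∈ conf d n i,
      if ∀ v : List (Fin d), v.length ≤ n → E v (ζ v) then ν.real (cyl (ball d n) ζ) else 0 := by
  rw [← sum_filter, ← measureReal_biUnion_finset _ (fun ζ _ => meas_cyl _ ζ)]
  · apply measureReal_congr
    rw [eventuallyEq_set]
    filter_upwards [hν] with f hf
    simp only [Set.mem_iUnion, mem_filter, Ev, Set.mem_ofPred_eq, cyl, mem_ball]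
    constructor
    · rintro ⟨rfl, h⟩
      exact ⟨trunc n f, ⟨trunc_mem (hf.lipB n), fun v hv => by rw [trunc, if_pos hv]; exact h v hv⟩,
        fun v hv => by rw [trunc, if_pos hv]⟩
    · rintro ⟨ζ, ⟨h1, h2⟩, h3⟩
      exact ⟨(h3 [] (by simp)).trans (mem_conf.1 h1).1, fun v hv => by rw [h3 v hv]; exact h2 v hv⟩
  · intro ζ h1 ζ' h2 hne
    rw [Function.onFun, Set.disjoint_left]
    intro f a1 a2
    apply hne
    ext v
    by_cases hv : v.length ≤ n
    · rw [← a1 v (mem_ball.2 hv), a2 v (mem_ball.2 hv)]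
    · rw [(mem_conf.1 (mem_filter.1 h1).1).2.2 v (by omega),
        (mem_conf.1 (mem_filter.1 h2).1).2.2 v (by omega)]

lemma hasSum_root {ν : Measure (List (Fin d) → ℤ)} [IsFiniteMeasure ν] {A : Set (List (Fin d) → ℤ)}
    (hA : MeasurableSet A) : HasSum (fun i => ν.real (A ∩ {f | f [] = i})) (ν.real A) := by
  have h1 : A = ⋃ i, A ∩ {f | f [] = i} := by ext f; simp
  have h2 : ν A = ∑' i, ν (A ∩ {f | f [] = i}) := by
    conv_lhs => rw [h1]
    apply measure_iUnion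
    · intro i j hij
      rw [Function.onFun, Set.disjoint_left]
      intro f a b; exact hij (a.2.symm.trans b.2)
    · exact fun i => hA.inter (measurable_pi_apply (X := fun _ : List (Fin d) => ℤ) []
        (measurableSet_singleton i))
  have := ENNReal.hasSum_toReal (f := fun i => ν (A ∩ {f | f [] = i})) (h2 ▸ measure_ne_top _ _)
  rwa [← ENNReal.tsum_toReal_eq (fun _ => measure_ne_top _ _), ← h2] at this

lemma Mk.ev {x : ℤ → ℝ} {g X : ℝ} {μ : Measure (List (Fin d) → ℤ)} (H : Mk x g X μ) (n : ℕ)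
    (E : List (Fin d) → ℤ → Prop) (i : ℤ) :
    μ.real (Ev n E i) = WW n (ind E) x i / (kap d g n * X) := by
  have := H.prob
  rw [meas_Ev H.lip, ← sum_wt, sum_div]
  refine sum_congr rfl fun ζ hζ => ?_
  rw [wt_ind]
  split_ifs
  · exact H.cy n ζ (mem_conf.1 hζ).2.1
  · simp

lemma count_eq (hd : 0 < d) (c N : ℕ) (U : Finset (List (Fin d))) (η : List (Fin d) → ℤ)
    (hU : ∀ u ∈ U, u.length ≤ N) : ((finLip d N (Set.Icc 0 c) ∩ cyl U η).ncard : ℝ) =
      ∑' i, WW N (ind fun v j => v ∈ U → j = η v) ((Set.Icc (0 : ℤ) c).indicator 1) i := by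
  classical
  set P : (List (Fin d) → ℤ) → Prop := fun f => (∀ v : List (Fin d), v.length ≤ N → v ∈ U → f v = η v) ∧
    ∀ v : List (Fin d), v.length = N → f v ∈ Set.Icc (0 : ℤ) c with hP
  have hw : ∀ i, WW N (ind fun v j => v ∈ U → j = η v) ((Set.Icc (0 : ℤ) c).indicator 1) i =
      ∑ f ∈ conf d N i, if P f then 1 else 0 := by
    intro i
    rw [← sum_wt]
    refine sum_congr rfl fun f _ => ?_
    rw [wt_ind, wt_leaf]
    by_cases h1 : ∀ v : List (Fin d), v.length ≤ N → v ∈ U → f v = η v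
    · by_cases h2 : ∀ v : List (Fin d), v.length = N → f v ∈ Set.Icc (0 : ℤ) c
      · rw [if_pos h1, if_pos h2, if_pos ⟨h1, h2⟩]
      · rw [if_pos h1, if_neg h2, if_neg fun h => h2 h.2]
    · rw [if_neg h1, if_neg fun h => h1 h.1]
  have hb : ∀ i, ∀ f ∈ conf d N i, P f → i ∈ Icc (-N : ℤ) (c + N) := by
    intro i f hf hPf
    obtain ⟨rfl, h2, -⟩ := mem_conf.1 hf
    have h3 := abs_le.1 (root_bound hd N f h2)
    have h4 := hPf.2 (List.replicate N ⟨0, hd⟩) (by simp)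
    rw [Set.mem_Icc] at h4
    rw [mem_Icc]; omega
  have hs : finLip d N (Set.Icc 0 c) ∩ cyl U η =
      ↑(((Icc (-N : ℤ) (c + N)).biUnion (conf d N)).filter P) := by
    ext f
    simp only [Set.mem_inter_iff, coe_filter, mem_biUnion, Set.mem_ofPred_eq, finLip, cyl]
    constructor
    · rintro ⟨⟨h1, h2, h3⟩, h4⟩
      have hf : f ∈ conf d N (f []) := mem_conf.2 ⟨rfl, h1, h3⟩
      have hPf : P f := ⟨fun v _ hv => h4 v hv, h2⟩
      exact ⟨⟨_, hb _ f hf hPf, hf⟩, hPf⟩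
    · rintro ⟨⟨i, -, hf⟩, h1, h2⟩
      obtain ⟨-, h3, h4⟩ := mem_conf.1 hf
      exact ⟨⟨h3, h2, h4⟩, fun u hu => h1 u (hU u hu) hu⟩
  rw [hs, Set.ncard_coe_finset, card_filter, tsum_eq_sum (s := Icc (-N : ℤ) (c + N))]
  · push_cast
    rw [sum_biUnion fun i _ j _ hij => conf_disj hij]
    exact sum_congr rfl fun i _ => (hw i).symm
  · intro i hi
    rw [hw]
    exact sum_eq_zero fun f hf => if_neg fun h => hi (hb i f hf h)

variable {c : ℕ}

noncomputable def Zn (d c M : ℕ) : ℤ → ℝ :=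
  WW M (1 : List (Fin d) → ℤ → ℝ) ((Set.Icc (0 : ℤ) c).indicator 1)

lemma idx_zero (hc : c ≤ 1) : idx c 0 = 0 := by simpa using idx_neg hc 0

lemma WW_one_succ (n : ℕ) (b : ℤ → ℝ) (i : ℤ) : WW (n + 1) (1 : List (Fin d) → ℤ → ℝ) b i =
    YY (WW n (1 : List (Fin d) → ℤ → ℝ) b) i ^ d := by
  have e2 : ∀ a : Fin d, sub (1 : List (Fin d) → ℤ → ℝ) a = 1 := fun a => rfl
  simp [WW, e2, YY]

lemma Zn_eq (hc : c ≤ 1) (hd : 2 ≤ d) (M : ℕ) :
    0 < Zn d c M 0 ∧ ∀ i, Zn d c M i = Zn d c M 0 * xz c (orb c d M) i := by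
  induction M with
  | zero =>
    have h0 : Zn d c 0 0 = 1 := by simp [Zn, WW]
    refine ⟨by rw [h0]; norm_num, fun i => ?_⟩
    rw [h0]
    simp only [Zn, WW, xz, orb, Set.indicator, Set.mem_Icc, Pi.one_apply, one_mul, idx]
    split_ifs <;> first | rfl | omega
  | succ M ih =>
    have I := inv_orb hc hd M
    have e : ∀ i, Zn d c (M + 1) i = (Zn d c M 0 * yy c (orb c d M) (idx c i)) ^ d := by
      intro i
      rw [← YY_xz hc I.h0]
      refine (WW_one_succ M _ i).trans ?_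
      congr 1
      change YY (Zn d c M) i = _
      simp only [YY]
      rw [ih.2 (i - 1), ih.2 i, ih.2 (i + 1)]; ring
    have hy := yy_zero_ge hc I
    have h0 := ih.1
    refine ⟨by rw [e, idx_zero hc]; positivity, fun i => ?_⟩
    rw [e, e, idx_zero hc]
    simp only [xz, orb, Phi]
    rw [← mul_pow]; congr 1; field_simp

lemma WW_fix {x : ℤ → ℝ} {g : ℝ} (hg : ∀ i, YY x i ^ d = g * x i) (n : ℕ) :
    ∀ i, WW n (1 : List (Fin d) → ℤ → ℝ) x i = kap d g n * x i := by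
  induction n with
  | zero => simp [WW, kap]
  | succ n ih =>
    intro i
    rw [WW_one_succ, kap, mul_assoc, ← hg, ← mul_pow]
    congr 1; simp only [YY, ih]; ring

lemma ind_nn (E : List (Fin d) → ℤ → Prop) (v j) : 0 ≤ ind E v j := by
  unfold ind; split_ifs <;> norm_num

lemma ind_le (E : List (Fin d) → ℤ → Prop) (v j) : ind E v j ≤ 1 := by
  unfold ind; split_ifs <;> norm_num

theorem Mk.limit (hc : c ≤ 1) (hd : 2 ≤ d) {h : ℕ → ℝ} (F : IsFix c d h) {g X : ℝ}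
    (hg : ∀ i, YY (xz c h) i ^ d = g * xz c h i) (hg0 : 0 < g) (hX : HasSum (xz c h) X)
    {μ : Measure (List (Fin d) → ℤ)} (H : Mk (xz c h) g X μ) :
    IsLocalLimit d (Set.Icc 0 c) μ := by
  refine ⟨H.prob, fun U η => ?_⟩
  have := H.prob
  obtain ⟨k, hk⟩ := exists_ball U
  have hX0 : 0 < X := (F.pos hc _).trans_le (le_hasSum hX 0 fun j _ => (F.pos hc _).le)
  have hκ := kap_pos (d := d) hg0 k
  have hb : Summable fun i => 2 * (1 / 2 : ℝ) ^ idx c i :=
    summable_idx hc (g := fun n => 2 * (1 / 2 : ℝ) ^ n) (summable_geometric_two.mul_left 2)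
  have hx : ∀ i, Tendsto (fun M => xz c (orb c d M) i) atTop (𝓝 (xz c h i)) := fun i => F.lim _
  have hind : ∀ i, 0 ≤ (Set.Icc (0 : ℤ) c).indicator (1 : ℤ → ℝ) i := fun i =>
    Set.indicator_nonneg (fun _ _ => zero_le_one) i
  have key : ∀ e : List (Fin d) → ℤ → ℝ, (∀ v j, 0 ≤ e v j) → (∀ v j, e v j ≤ 1) →
      (∀ v : List (Fin d), k < v.length → e v = 1) →
      Tendsto (fun M => ∑' i, WW (M + k) e ((Set.Icc (0 : ℤ) c).indicator 1) i / Zn d c (M + k) 0)
        atTop (𝓝 (∑' i, WW k e (xz c h) i / kap d g k)) := by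
    intro e e0 e1 e2
    refine tendsto_tsum_of_dominated_convergence hb (fun i => ?_) (Eventually.of_forall fun M i => ?_)
    · have a1 : ∀ M, Zn d c M = fun j => Zn d c M 0 * xz c (orb c d M) j :=
        fun M => funext (Zn_eq hc hd M).2
      have a2 : ∀ M, WW (M + k) e ((Set.Icc (0 : ℤ) c).indicator 1) i / Zn d c (M + k) 0 =
          WW k e (xz c (orb c d M)) i / WW k (1 : List (Fin d) → ℤ → ℝ) (xz c (orb c d M)) 0 := by
        intro M
        have := (Zn_eq hc hd M).1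
        rw [Zn, WW_semi _ M k e e2, WW_semi _ M k 1 fun _ _ => rfl]
        change WW k e (Zn d c M) i / WW k 1 (Zn d c M) 0 = _
        rw [a1 M, WW_smul, WW_smul, mul_div_mul_left _ _ (by positivity)]
      simp only [a2]
      have a3 : kap d g k = WW k (1 : List (Fin d) → ℤ → ℝ) (xz c h) 0 := by
        rw [WW_fix hg, xz, idx_zero hc, F.inv.h0, mul_one]
      rw [a3]
      exact (WW_tendsto hx k e i).div (WW_tendsto hx k 1 0) (a3 ▸ hκ.ne')
    · have z0 := (Zn_eq hc hd (M + k)).1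
      rw [Real.norm_of_nonneg (div_nonneg (WW_nn hind _ e e0 i) z0.le), div_le_iff₀ z0]
      refine (WW_le hind _ e e0 e1 i).trans ?_
      change Zn d c (M + k) i ≤ _
      rw [(Zn_eq hc hd (M + k)).2 i, mul_comm]
      exact mul_le_mul_of_nonneg_right ((inv_orb hc hd _).geo _) z0.le
  set E : List (Fin d) → ℤ → Prop := fun v j => v ∈ U → j = η v with hE
  have k1 := key (ind E) (ind_nn E) (ind_le E) fun v hv => funext fun j =>
    if_pos fun hu => absurd (hk v hu) (by omega)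
  have k2 := key 1 (fun _ _ => zero_le_one) (fun _ _ => le_rfl) fun _ _ => rfl
  have t2 : ∑' i, WW k (1 : List (Fin d) → ℤ → ℝ) (xz c h) i / kap d g k = X := by
    simp only [WW_fix hg, mul_div_cancel_left₀ _ hκ.ne']; exact hX.tsum_eq
  have t1 : (∑' i, WW k (ind E) (xz c h) i / kap d g k) / X = μ.real (cyl U η) := by
    rw [← (hasSum_root (meas_cyl U η)).tsum_eq, ← tsum_div_const]
    refine tsum_congr fun i => ?_
    rw [div_div, ← H.ev]
    congr 1; ext f
    simp only [Ev, cyl, hE, Set.mem_inter_iff, Set.mem_ofPred_eq]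
    exact ⟨fun h => ⟨fun u hu => h.2 u (hk u hu) hu, h.1⟩, fun h => ⟨h.2, fun u _ hu => h.1 u hu⟩⟩
  rw [t2] at k2
  rw [← tendsto_add_atTop_iff_nat k, ← t1]
  refine (k1.div k2 hX0.ne').congr fun M => ?_
  have z0 := (Zn_eq hc hd (M + k)).1
  have c1 := count_eq (by omega) c (M + k) U η fun u hu => (hk u hu).trans (by omega)
  have c2 := count_eq (d := d) (by omega) c (M + k) ∅ η (by simp)
  have e1 : cyl (∅ : Finset (List (Fin d))) η = Set.univ := by ext; simp [cyl]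
  have e2 : (ind fun (v : List (Fin d)) j => v ∈ (∅ : Finset _) → j = η v) = 1 := by
    ext v j; simp [ind]
  rw [e1, Set.inter_univ, e2] at c2
  simp only [Pi.div_apply]
  rw [c1, c2, tsum_div_const, tsum_div_const, div_div_div_cancel_right₀ z0.ne']

lemma limit_unique {S : Set ℤ} {μ ν : Measure (List (Fin d) → ℤ)} (h1 : IsLocalLimit d S μ)
    (h2 : IsLocalLimit d S ν) : μ = ν := by
  have := h1.1; have := h2.1
  refine ext_ball 0 fun m _ ζ => ?_
  exact (measureReal_eq_measureReal_iff (measure_ne_top _ _) (measure_ne_top _ _)).1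
    (tendsto_nhds_unique (h1.2 _ ζ) (h2.2 _ ζ))

end Pool.Agent.P.MP_23c5a6_pr
end

-- part Pool.Agent.P.MP_23c5a6_pr.Gibbs
section

namespace Pool.Agent.P.MP_23c5a6_pr

open Finset Filter Topology MeasureTheory

variable {d : ℕ}

def pw (U : Finset (List (Fin d))) (η f : List (Fin d) → ℤ) : List (Fin d) → ℤ :=
  fun v => if v ∈ U then η v else f v

def Unif (ν : Measure (List (Fin d) → ℤ)) : Prop :=
  ∀ n ζ ζ', LipB (n + 1) ζ → LipB (n + 1) ζ' → (∀ v : List (Fin d), v.length = n + 1 → ζ v = ζ' v) →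
    ν.real (cyl (ball d (n + 1)) ζ) = ν.real (cyl (ball d (n + 1)) ζ')

lemma lip_pw {U : Finset (List (Fin d))} {m : ℕ} (hU : ∀ u ∈ U, u.length < m)
    {η ζ f : List (Fin d) → ℤ} (hf : Lip f) (hζ : LipB m ζ)
    (h : ∀ v : List (Fin d), v.length ≤ m → pw U η f v = ζ v) : Lip (pw U η f) := by
  intro v a
  by_cases hv : v.length < m
  · rw [h v hv.le, h (v ++ [a]) (by simp; omega)]; exact hζ v a hv
  · have h1 : v ∉ U := fun hh => hv (hU v hh)
    have h2 : v ++ [a] ∉ U := fun hh => by have := hU _ hh; simp at this; omega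
    simp only [pw, if_neg h1, if_neg h2]; exact hf v a

lemma LipB.congr {m : ℕ} {f g : List (Fin d) → ℤ} (hf : LipB m f)
    (h : ∀ v : List (Fin d), v.length ≤ m → f v = g v) : LipB m g := by
  intro v a hv
  rw [← h v hv.le, ← h (v ++ [a]) (by simp; omega)]; exact hf v a hv

abbrev mU (U : Finset (List (Fin d))) : MeasurableSpace (List (Fin d) → ℤ) :=
  cylinderEvents (X := fun _ : List (Fin d) => ℤ) {v | v ∉ U}

lemma measurable_pw' (U : Finset (List (Fin d))) (η : List (Fin d) → ℤ) :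
    Measurable[mU U] (pw U η) := by
  refine (@measurable_pi_iff _ _ _ (mU U) _ _).2 fun v => ?_
  by_cases hv : v ∈ U
  · simp only [pw, if_pos hv]; exact measurable_const
  · simp only [pw, if_neg hv]; exact measurable_cylinderEvent_apply (X := fun _ => ℤ) hv

lemma measurable_pw (U : Finset (List (Fin d))) (η : List (Fin d) → ℤ) : Measurable (pw U η) :=
  (measurable_pw' U η).mono cylinderEvents_le_pi le_rfl

lemma mU_inv {U : Finset (List (Fin d))} {s : Set (List (Fin d) → ℤ)} (hs : MeasurableSet[mU U] s)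
    (η f : List (Fin d) → ℤ) : pw U η f ∈ s ↔ f ∈ s := by
  have hle : mU U ≤ MeasurableSpace.comap (pw U η) ⊤ := by
    refine iSup₂_le fun v hv => ?_
    rintro _ ⟨t, -, rfl⟩
    refine ⟨(fun f => f v) ⁻¹' t, trivial, ?_⟩
    ext f; simp [pw, if_neg hv]
  obtain ⟨t, -, rfl⟩ := hle s hs
  have : pw U η (pw U η f) = pw U η f := by ext v; simp only [pw]; split_ifs <;> rfl
  simp [this]

def AA (U : Finset (List (Fin d))) (η η' : List (Fin d) → ℤ) : Set (List (Fin d) → ℤ) :=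
  cyl U η ∩ pw U η' ⁻¹' {f | Lip f}

lemma meas_AA (U : Finset (List (Fin d))) (η η' : List (Fin d) → ℤ) : MeasurableSet (AA U η η') :=
  (meas_cyl U η).inter (measurable_pw U η' meas_Lip)

lemma swap {μ : Measure (List (Fin d) → ℤ)} [IsFiniteMeasure μ] (hl : ∀ᵐ f ∂μ, Lip f) (hu : Unif μ)
    (U : Finset (List (Fin d))) (η η' : List (Fin d) → ℤ) :
    (μ.restrict (AA U η η')).map (pw U η') = μ.restrict (AA U η' η) := by
  obtain ⟨k, hk⟩ := exists_ball U
  refine ext_ball (k + 1) fun m hm ζ => ?_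
  have hU : ∀ u ∈ U, u.length < m := fun u hu => by have := hk u hu; omega
  rw [Measure.map_apply (measurable_pw _ _) (meas_cyl _ _),
    Measure.restrict_apply (measurable_pw _ _ (meas_cyl _ _)), Measure.restrict_apply (meas_cyl _ _)]
  set C : Prop := (∀ u ∈ U, ζ u = η' u) ∧ LipB m ζ ∧ LipB m (pw U η ζ) with hC
  have e1 : ∀ f, Lip f → (f ∈ pw U η' ⁻¹' cyl (ball d m) ζ ∩ AA U η η' ↔
      C ∧ f ∈ cyl (ball d m) (pw U η ζ)) := by
    intro f hf
    simp only [AA, cyl, Set.mem_inter_iff, Set.mem_preimage, Set.mem_ofPred_eq, mem_ball]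
    constructor
    · rintro ⟨h1, h2, h3⟩
      have h4 : ∀ u : List (Fin d), u.length ≤ m → f u = pw U η ζ u := by
        intro u hu
        by_cases huU : u ∈ U
        · simp only [pw, if_pos huU]; exact h2 u huU
        · have := h1 u hu
          simp only [pw, if_neg huU] at this ⊢; exact this
      refine ⟨⟨fun u hu => ?_, (h3.lipB m).congr h1, (hf.lipB m).congr h4⟩, h4⟩
      have := h1 u (hU u hu).le
      simp only [pw, if_pos hu] at this; exact this.symm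
    · rintro ⟨⟨c1, c2, -⟩, h4⟩
      have h1 : ∀ u : List (Fin d), u.length ≤ m → pw U η' f u = ζ u := by
        intro u hu
        by_cases huU : u ∈ U
        · simp only [pw, if_pos huU]; exact (c1 u huU).symm
        · have := h4 u hu
          simp only [pw, if_neg huU] at this ⊢; exact this
      refine ⟨h1, fun u hu => ?_, lip_pw hU hf c2 h1⟩
      have := h4 u (hU u hu).le
      simp only [pw, if_pos hu] at this; exact this
  have e2 : ∀ f, Lip f → (f ∈ cyl (ball d m) ζ ∩ AA U η' η ↔ C ∧ f ∈ cyl (ball d m) ζ) := by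
    intro f hf
    simp only [AA, cyl, Set.mem_inter_iff, Set.mem_preimage, Set.mem_ofPred_eq, mem_ball]
    have h4 : (∀ u : List (Fin d), u.length ≤ m → f u = ζ u) →
        ∀ u : List (Fin d), u.length ≤ m → pw U η f u = pw U η ζ u := by
      intro h1 u hu; simp only [pw, h1 u hu]
    constructor
    · rintro ⟨h1, h2, h3⟩
      exact ⟨⟨fun u hu => (h1 u (hU u hu).le).symm.trans (h2 u hu), (hf.lipB m).congr h1,
        (h3.lipB m).congr (h4 h1)⟩, h1⟩
    · rintro ⟨⟨c1, -, c3⟩, h1⟩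
      exact ⟨h1, fun u hu => (h1 u (hU u hu).le).trans (c1 u hu), lip_pw hU hf c3 (h4 h1)⟩
  by_cases hc : C
  · have a1 : μ (pw U η' ⁻¹' cyl (ball d m) ζ ∩ AA U η η') = μ (cyl (ball d m) (pw U η ζ)) := by
      apply measure_congr; rw [eventuallyEq_set]
      filter_upwards [hl] with f hf; rw [e1 f hf]; simp [hc]
    have a2 : μ (cyl (ball d m) ζ ∩ AA U η' η) = μ (cyl (ball d m) ζ) := by
      apply measure_congr; rw [eventuallyEq_set]
      filter_upwards [hl] with f hf; rw [e2 f hf]; simp [hc]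
    rw [a1, a2]
    obtain ⟨n, rfl⟩ : ∃ n, m = n + 1 := ⟨m - 1, by omega⟩
    refine (measureReal_eq_measureReal_iff (measure_ne_top _ _) (measure_ne_top _ _)).1
      (hu n _ _ hc.2.2 hc.2.1 fun v hv => if_neg fun hh => ?_)
    have := hU v hh; omega
  · have a1 : μ (pw U η' ⁻¹' cyl (ball d m) ζ ∩ AA U η η') = μ ∅ := by
      apply measure_congr; rw [eventuallyEq_set]
      filter_upwards [hl] with f hf; rw [e1 f hf]; simp [hc]
    have a2 : μ (cyl (ball d m) ζ ∩ AA U η' η) = μ ∅ := by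
      apply measure_congr; rw [eventuallyEq_set]
      filter_upwards [hl] with f hf; rw [e2 f hf]; simp [hc]
    rw [a1, a2]

def extU (U : Finset (List (Fin d))) (a : U → ℤ) : List (Fin d) → ℤ :=
  fun v => if h : v ∈ U then a ⟨v, h⟩ else 0

def fill (U : Finset (List (Fin d))) (f : List (Fin d) → ℤ) : Set (List (Fin d) → ℤ) :=
  {g | Lip g ∧ ∀ v, v ∉ U → g v = f v}

noncomputable def NE (U : Finset (List (Fin d))) (f : List (Fin d) → ℤ) : ENNReal :=
  ∑' a : U → ℤ, (pw U (extU U a) ⁻¹' {f | Lip f}).indicator 1 f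

lemma measurable_NE (U : Finset (List (Fin d))) : Measurable[mU U] (NE U) :=
  @Measurable.ennreal_tsum _ (mU U) _ _ _ fun a =>
    (@measurable_const _ _ _ (mU U) _).indicator (measurable_pw' U _ meas_Lip)

lemma NE_eq (U : Finset (List (Fin d))) (f : List (Fin d) → ℤ) : NE U f = (fill U f).encard := by
  have h1 : fill U f = (fun a => pw U (extU U a) f) '' {a | Lip (pw U (extU U a) f)} := by
    ext g
    constructor
    · rintro ⟨h1, h2⟩
      have : pw U (extU U fun u => g u) f = g := by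
        ext v
        by_cases hv : v ∈ U
        · simp [pw, extU, hv]
        · simp [pw, hv, h2 v hv]
      exact ⟨fun u => g u, by simpa [this] using h1, this⟩
    · rintro ⟨a, ha, rfl⟩
      exact ⟨ha, fun v hv => if_neg hv⟩
  have h2 : Function.Injective fun a => pw U (extU U a) f := by
    intro a b hab
    ext u
    simpa [pw, extU, u.2] using congrFun hab u
  rw [h1, h2.encard_image, ← ENNReal.tsum_set_one,
    tsum_subtype {a | Lip (pw U (extU U a) f)} fun _ => (1 : ENNReal)]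
  rfl

lemma fill_finite (hd : 0 < d) (U : Finset (List (Fin d))) (f : List (Fin d) → ℤ) :
    (fill U f).Finite := by
  obtain ⟨k, hk⟩ := exists_ball U
  set w : List (Fin d) := List.replicate (k + 1) ⟨0, hd⟩
  have hw : w ∉ U := fun h => by have := hk w h; simp [w] at this
  apply Set.Finite.of_finite_image (f := trunc (k + 1))
  · refine ((Icc (f w - (k + 1 : ℕ)) (f w + (k + 1 : ℕ))).biUnion (conf d (k + 1))).finite_toSet.subset ?_
    rintro _ ⟨g, hg, rfl⟩
    have := abs_le.1 (root_bound hd (k + 1) g (hg.1.lipB _))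
    rw [hg.2 w hw] at this
    exact mem_coe.2 (mem_biUnion.2 ⟨g [], mem_Icc.2 (by omega), trunc_mem (hg.1.lipB _)⟩)
  · intro g hg g' hg' h
    ext v
    by_cases hv : v ∈ U
    · have := congrFun h v
      have h2 : v.length ≤ k + 1 := by have := hk v hv; omega
      simpa [trunc, h2] using this
    · rw [hg.2 v hv, hg'.2 v hv]

lemma NE_ne_top (hd : 0 < d) (U : Finset (List (Fin d))) (f : List (Fin d) → ℤ) : NE U f ≠ ⊤ := by
  rw [NE_eq, ENat.toENNReal_ne_top]; exact (fill_finite hd U f).encard_lt_top.ne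

lemma NE_ne_zero (U : Finset (List (Fin d))) {f : List (Fin d) → ℤ} (hf : Lip f) : NE U f ≠ 0 := by
  rw [NE_eq, Ne, ENat.toENNReal_eq_zero, Set.encard_eq_zero]
  exact Set.Nonempty.ne_empty ⟨f, hf, fun _ _ => rfl⟩

lemma NE_pw (U : Finset (List (Fin d))) (η f : List (Fin d) → ℤ) : NE U (pw U η f) = NE U f := by
  rw [NE_eq, NE_eq]
  congr 2; ext g
  refine and_congr_right fun _ => forall_congr' fun v => forall_congr' fun hv => ?_
  simp [pw, hv]

noncomputable def gE (U : Finset (List (Fin d))) (η f : List (Fin d) → ℤ) : ENNReal :=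
  (pw U η ⁻¹' {f | Lip f}).indicator (fun f => (NE U f)⁻¹) f

lemma measurable_gE (U : Finset (List (Fin d))) (η : List (Fin d) → ℤ) : Measurable[mU U] (gE U η) :=
  (measurable_NE U).inv.indicator (measurable_pw' U _ meas_Lip)

open Classical in
lemma gam_def (U : Finset (List (Fin d))) (η f : List (Fin d) → ℤ) :
    gam U η f = if Lip (pw U η f) then 1 / ((fill U f).ncard : ℝ) else 0 := by
  unfold gam pw fill; congr!

lemma gam_eq (hd : 0 < d) (U : Finset (List (Fin d))) (η f : List (Fin d) → ℤ) :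
    gam U η f = (gE U η f).toReal := by
  rw [gam_def, gE]
  by_cases h : Lip (pw U η f)
  · rw [if_pos h, Set.indicator_of_mem (by exact h), ENNReal.toReal_inv, NE_eq, one_div,
      ← (fill_finite hd U f).cast_ncard_eq]
    rfl
  · rw [if_neg h, Set.indicator_of_notMem (by exact h)]; rfl

lemma gE_le (U : Finset (List (Fin d))) (η f : List (Fin d) → ℤ) : gE U η f ≤ 1 := by
  unfold gE
  by_cases h : Lip (pw U η f)
  · rw [Set.indicator_of_mem h, ENNReal.inv_le_one, ← NE_pw U η f, NE_eq]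
    have : (fill U (pw U η f)).Nonempty := ⟨_, h, fun _ _ => rfl⟩
    exact_mod_cast Set.one_le_encard_iff_nonempty.2 this
  · rw [Set.indicator_of_notMem h]; exact zero_le_one

lemma dlr (hd : 0 < d) {μ : Measure (List (Fin d) → ℤ)} [IsFiniteMeasure μ] (hl : ∀ᵐ f ∂μ, Lip f)
    (hu : Unif μ) (U : Finset (List (Fin d))) (η : List (Fin d) → ℤ) {s : Set (List (Fin d) → ℤ)}
    (hs : MeasurableSet[mU U] s) : ∫⁻ f in s, gE U η f ∂μ = μ (s ∩ cyl U η) := by
  have hs' : MeasurableSet s := cylinderEvents_le_pi s hs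
  set G : (List (Fin d) → ℤ) → ENNReal := s.indicator fun f => (NE U f)⁻¹ with hG
  have mG : Measurable G :=
    ((measurable_NE U).mono cylinderEvents_le_pi le_rfl).inv.indicator hs'
  have iG : ∀ η' f, G (pw U η' f) = G f := by
    intro η' f
    by_cases h : f ∈ s
    · simp only [hG, Set.indicator_of_mem h, Set.indicator_of_mem ((mU_inv hs η' f).2 h), NE_pw]
    · simp only [hG, Set.indicator_of_notMem h,
        Set.indicator_of_notMem fun hh => h ((mU_inv hs η' f).1 hh)]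
  have h1 : ∀ f, s.indicator (gE U η) f = ∑' a : U → ℤ, (AA U (extU U a) η).indicator G f := by
    intro f
    rw [tsum_eq_single (fun u : U => f u)]
    · have : f ∈ cyl U (extU U fun u : U => f u) := fun u hu => by simp [extU, hu]
      by_cases h1 : f ∈ s <;> by_cases h2 : Lip (pw U η f) <;>
        simp [AA, hG, gE, Set.indicator, this, h1, h2]
    · intro a ha
      refine Set.indicator_of_notMem (fun h => ha ?_) _
      ext u; simpa [extU, u.2] using (h.1 u u.2).symm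
  have h2 : ∀ f, Lip f → ∑' a : U → ℤ, (AA U η (extU U a)).indicator G f =
      (s ∩ cyl U η).indicator 1 f := by
    intro f hf
    by_cases h1 : f ∈ cyl U η
    · have : ∀ a, (AA U η (extU U a)).indicator G f =
          G f * (pw U (extU U a) ⁻¹' {f | Lip f}).indicator 1 f := by
        intro a
        by_cases h2 : Lip (pw U (extU U a) f) <;> simp [AA, Set.indicator, h1, h2]
      simp only [this]
      rw [ENNReal.tsum_mul_left]
      change G f * NE U f = _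
      by_cases h3 : f ∈ s
      · simp [hG, h1, h3, ENNReal.inv_mul_cancel (NE_ne_zero U hf) (NE_ne_top hd U f)]
      · simp [hG, h3]
    · simp [AA, h1]
  rw [← lintegral_indicator hs']
  simp only [h1]
  rw [lintegral_tsum fun a => (mG.indicator (meas_AA _ _ _)).aemeasurable]
  have h3 : ∀ a : U → ℤ, ∫⁻ f, (AA U (extU U a) η).indicator G f ∂μ =
      ∫⁻ f, (AA U η (extU U a)).indicator G f ∂μ := by
    intro a
    rw [lintegral_indicator (meas_AA _ _ _), lintegral_indicator (meas_AA _ _ _),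
      ← swap hl hu U η (extU U a), lintegral_map mG (measurable_pw _ _)]
    simp only [iG]
  simp only [h3]
  rw [← lintegral_tsum fun a => (mG.indicator (meas_AA _ _ _)).aemeasurable,
    ← lintegral_indicator_one (hs'.inter (meas_cyl _ _))]
  apply lintegral_congr_ae
  filter_upwards [hl] with f hf using h2 f hf

theorem gibbs_of (hd : 0 < d) {μ : Measure (List (Fin d) → ℤ)} [IsProbabilityMeasure μ]
    (hl : ∀ᵐ f ∂μ, Lip f) (hu : Unif μ) : IsGibbs μ := by
  refine ⟨inferInstance, hl, fun U η => ?_⟩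
  have hg : gam U η = fun f => (gE U η f).toReal := funext (gam_eq hd U η)
  have mg : Measurable[mU U] (gam U η) := by rw [hg]; exact (measurable_gE U η).ennreal_toReal
  refine (ae_eq_condExp_of_forall_setIntegral_eq cylinderEvents_le_pi
    ((integrable_const 1).indicator (meas_cyl U η)) (fun s _ _ => ?_) (fun s hs _ => ?_)
    mg.stronglyMeasurable.aestronglyMeasurable).symm
  · refine (Integrable.of_bound (mg.mono cylinderEvents_le_pi le_rfl).aestronglyMeasurable 1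
      (Eventually.of_forall fun f => ?_)).integrableOn
    rw [gam_eq hd, Real.norm_of_nonneg ENNReal.toReal_nonneg]
    exact ENNReal.toReal_le_of_le_ofReal zero_le_one (by simpa using gE_le U η f)
  · rw [hg, integral_toReal ((measurable_gE U η).mono cylinderEvents_le_pi le_rfl).aemeasurable
      (Eventually.of_forall fun f => (gE_le U η f).trans_lt ENNReal.one_lt_top), dlr hd hl hu U η hs,
      setIntegral_indicator (meas_cyl U η)]
    simp [Measure.real]

theorem IsGibbs.unif {ν : Measure (List (Fin d) → ℤ)} (H : IsGibbs ν) : Unif ν := by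
  obtain ⟨hp, hl, hg⟩ := H
  intro n ζ ζ' h1 h2 h3
  set L : Finset (List (Fin d)) := (ball d (n + 1)).filter fun v => v.length = n + 1
  have hU : ∀ u ∈ ball d n, u.length < n + 1 := fun u hu => by have := mem_ball.1 hu; omega
  have hs : MeasurableSet[mU (ball d n)] (cyl L ζ) := by
    have : cyl L ζ = ⋂ u ∈ L, (fun f : List (Fin d) → ℤ => f u) ⁻¹' {ζ u} := by
      ext f; simp [cyl]
    rw [this]
    refine @Finset.measurableSet_biInter _ _ (mU (ball d n)) _ _ fun u hu => ?_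
    refine measurable_cylinderEvent_apply (X := fun _ => ℤ) ?_ (measurableSet_singleton _)
    intro hh; have := hU u hh; have := (mem_filter.1 hu).2; omega
  have key : ∀ ξ : List (Fin d) → ℤ, (∀ v : List (Fin d), v.length = n + 1 → ζ v = ξ v) →
      ν.real (cyl (ball d (n + 1)) ξ) = ∫ f in cyl L ζ, gam (ball d n) ξ f ∂ν := by
    intro ξ hξ
    rw [← setIntegral_congr_ae (cylinderEvents_le_pi _ hs)
      ((hg (ball d n) ξ).mono fun f hf _ => hf),
      setIntegral_condExp cylinderEvents_le_pi ((integrable_const 1).indicator (meas_cyl _ _)) hs,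
      setIntegral_indicator (meas_cyl _ _)]
    have : cyl L ζ ∩ cyl (ball d n) ξ = cyl (ball d (n + 1)) ξ := by
      ext f
      simp only [cyl, L, Set.mem_inter_iff, Set.mem_ofPred_eq, mem_filter, mem_ball]
      constructor
      · rintro ⟨a, b⟩ u hu
        rcases hu.eq_or_lt with h | h
        · rw [a u ⟨hu, h⟩, hξ u h]
        · exact b u (by omega)
      · intro a
        exact ⟨fun u hu => by rw [a u hu.1, hξ u hu.2], fun u hu => a u (by omega)⟩
    simp [this]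
  rw [key ζ fun _ _ => rfl, key ζ' h3]
  apply setIntegral_congr_ae (meas_cyl _ _)
  filter_upwards [hl] with f hf hfs
  have k : ∀ ξ : List (Fin d) → ℤ, (∀ v : List (Fin d), v.length = n + 1 → ζ v = ξ v) →
      LipB (n + 1) ξ → Lip (pw (ball d n) ξ f) := by
    intro ξ hξ hl
    refine lip_pw hU hf hl fun v hv => ?_
    by_cases hh : v ∈ ball d n
    · exact if_pos hh
    · have e : v.length = n + 1 := by rw [mem_ball] at hh; omega
      rw [pw, if_neg hh, hfs v (mem_filter.2 ⟨mem_ball.2 hv, e⟩), hξ v e]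
  rw [gam_def, gam_def, if_pos (k ζ (fun _ _ => rfl) h1), if_pos (k ζ' h3 h2)]

end Pool.Agent.P.MP_23c5a6_pr
end

-- part Pool.Agent.P.MP_23c5a6_pr.Extr
section

namespace Pool.Agent.P.MP_23c5a6_pr

open Finset Filter Topology MeasureTheory

variable {d : ℕ} {x pi : ℤ → ℝ} {ε : ℝ}

lemma Cl.of_le {f g f1 g1 f2 g2 : (n : ℕ) → Lev d n → ℝ} {A : ℝ} (hA : 0 ≤ A) (h1 : Cl f1 g1)
    (h2 : Cl f2 g2) (h : ∀ n ξ, |f n ξ - g n ξ| ≤ A * (|f1 n ξ - g1 n ξ| + |f2 n ξ - g2 n ξ|)) :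
    Cl f g := by
  intro η hη
  have hδ : 0 < η / (2 * (A + 1)) := by positivity
  filter_upwards [h1 _ hδ, h2 _ hδ] with n a1 a2 G
  refine (sum_le_sum fun ξ _ => h n ξ).trans ?_
  rw [← mul_sum, sum_add_distrib]
  calc _ ≤ (A + 1) * (η / (2 * (A + 1)) + η / (2 * (A + 1))) := by
        gcongr
        · linarith
        · exact a1 G
        · exact a2 G
    _ = η := by field_simp; ring

lemma Cl.refl (f : (n : ℕ) → Lev d n → ℝ) : Cl f f := fun η hη =>
  Eventually.of_forall fun n G => by simpa using hη.le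

lemma Cl.symm {f g : (n : ℕ) → Lev d n → ℝ} (h : Cl f g) : Cl g f := by
  intro η hη; simpa only [abs_sub_comm] using h η hη

lemma Cl.trans {f g k : (n : ℕ) → Lev d n → ℝ} (h1 : Cl f g) (h2 : Cl g k) : Cl f k :=
  Cl.of_le zero_le_one h1 h2 fun n ξ => by rw [one_mul]; exact abs_sub_le _ _ _

lemma Cl.add {f g f' g' : (n : ℕ) → Lev d n → ℝ} (h1 : Cl f g) (h2 : Cl f' g') :
    Cl (fun n ξ => f n ξ + f' n ξ) (fun n ξ => g n ξ + g' n ξ) :=
  Cl.of_le zero_le_one h1 h2 fun n ξ => by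
    rw [one_mul, add_sub_add_comm]; exact abs_add_le _ _

lemma Cl.smul {f g : (n : ℕ) → Lev d n → ℝ} (a : ℝ) (h : Cl f g) :
    Cl (fun n ξ => a * f n ξ) (fun n ξ => a * g n ξ) :=
  Cl.of_le (abs_nonneg a) h h fun n ξ => by
    rw [← mul_sub, abs_mul]; gcongr; exact le_add_of_nonneg_right (abs_nonneg _)

lemma Cl.pm {f g : ℤ → (n : ℕ) → Lev d n → ℝ} (h : ∀ j, Cl (f j) (g j)) (i : ℤ) :
    Cl (fun n ξ => Pm x (fun j => f j n ξ) i) (fun n ξ => Pm x (fun j => g j n ξ) i) := by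
  have := ((((h (i - 1)).smul (x (i - 1))).add ((h i).smul (x i))).add
    ((h (i + 1)).smul (x (i + 1)))).smul (YY x i)⁻¹
  simpa only [Pm, div_eq_inv_mul] using this

lemma sum_prod_le' {α : Type*} {Q : Fin d → α → ℝ} {c : Fin d → ℝ} (h0 : ∀ a ξ, 0 ≤ Q a ξ)
    (h1 : ∀ a, ∀ G : Finset α, ∑ ξ ∈ G, Q a ξ ≤ c a) (G : Finset (Fin d → α)) :
    ∑ ξ ∈ G, ∏ a, Q a (ξ a) ≤ ∏ a, c a := by
  classical
  set S := G.biUnion fun ξ => univ.image ξ
  have hs : G ⊆ Fintype.piFinset fun _ : Fin d => S := fun ξ hξ =>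
    Fintype.mem_piFinset.2 fun a => mem_biUnion.2 ⟨ξ, hξ, mem_image_of_mem _ (mem_univ a)⟩
  refine (sum_le_sum_of_subset_of_nonneg hs fun ξ _ _ => prod_nonneg fun a _ => h0 _ _).trans ?_
  rw [← prod_univ_sum (fun _ : Fin d => S) Q]
  exact prod_le_prod (fun a _ => sum_nonneg fun ξ _ => h0 a ξ) fun a _ => h1 a S

lemma prod_close {α : Type*} {A B : Fin d → α → ℝ} {η : ℝ} (a0 : ∀ a ξ, 0 ≤ A a ξ)
    (b0 : ∀ a ξ, 0 ≤ B a ξ) (a1 : ∀ a, ∀ G : Finset α, ∑ ξ ∈ G, A a ξ ≤ 1)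
    (b1 : ∀ a, ∀ G : Finset α, ∑ ξ ∈ G, B a ξ ≤ 1)
    (h : ∀ a, ∀ G : Finset α, ∑ ξ ∈ G, |A a ξ - B a ξ| ≤ η) (G : Finset (Fin d → α)) :
    ∑ ξ ∈ G, |∏ a, A a (ξ a) - ∏ a, B a (ξ a)| ≤ d * η := by
  have key : ∀ s : Finset (Fin d), ∑ ξ ∈ G,
      |∏ a, (if a ∈ s then A a (ξ a) else B a (ξ a)) - ∏ a, B a (ξ a)| ≤ s.card * η := by
    intro s
    induction s using Finset.induction_on with
    | empty => simp
    | insert a s ha ih =>
      have step : ∑ ξ ∈ G, |∏ b, (if b ∈ insert a s then A b (ξ b) else B b (ξ b)) -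
          ∏ b, (if b ∈ s then A b (ξ b) else B b (ξ b))| ≤ η := by
        have := sum_prod_le' (Q := fun b ξ => if b = a then |A a ξ - B a ξ| else
          if b ∈ s then A b ξ else B b ξ) (c := fun b => if b = a then η else 1)
          (fun b ξ => by split_ifs; exacts [abs_nonneg _, a0 _ _, b0 _ _])
          (fun b G => by split_ifs; exacts [h a G, a1 b G, b1 b G]) G
        simp only [prod_ite_eq', mem_univ, if_true] at this
        refine le_trans (le_of_eq (sum_congr rfl fun ξ _ => ?_)) this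
        rw [← mul_prod_erase univ _ (mem_univ a), ← mul_prod_erase univ _ (mem_univ a),
          ← mul_prod_erase univ _ (mem_univ a), if_pos (mem_insert_self _ _), if_neg ha, if_pos rfl,
          prod_congr rfl (g := fun b => if b ∈ s then A b (ξ b) else B b (ξ b))
            fun b hb => by simp [ne_of_mem_erase hb], ← sub_mul, abs_mul,
          abs_of_nonneg (a := ∏ b ∈ univ.erase a, if b ∈ s then A b (ξ b) else B b (ξ b))
            (prod_nonneg fun b _ => by split_ifs; exacts [a0 _ _, b0 _ _])]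
        congr 1
        exact prod_congr rfl fun b hb => by rw [if_neg (ne_of_mem_erase hb)]
      rw [card_insert_of_notMem ha]
      refine (sum_le_sum fun ξ _ => abs_sub_le _
        (∏ b, (if b ∈ s then A b (ξ b) else B b (ξ b))) _).trans ?_
      rw [sum_add_distrib]; push_cast; linarith
  simpa using key univ

lemma Cl.prod {A B : Fin d → (n : ℕ) → Lev d n → ℝ} {f g : (n : ℕ) → Lev d n → ℝ}
    (a0 : ∀ a n ξ, 0 ≤ A a n ξ) (b0 : ∀ a n ξ, 0 ≤ B a n ξ)
    (a1 : ∀ a n, ∀ G : Finset (Lev d n), ∑ ξ ∈ G, A a n ξ ≤ 1)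
    (b1 : ∀ a n, ∀ G : Finset (Lev d n), ∑ ξ ∈ G, B a n ξ ≤ 1) (h : ∀ a, Cl (A a) (B a))
    (hf : ∀ n ξ, f (n + 1) ξ = ∏ a, A a n (ξ a)) (hg : ∀ n ξ, g (n + 1) ξ = ∏ a, B a n (ξ a)) :
    Cl f g := by
  intro η hη
  have hδ : 0 < η / (d + 1) := by positivity
  obtain ⟨N, hN⟩ := eventually_atTop.1 (eventually_all.2 fun a => h a _ hδ)
  filter_upwards [eventually_ge_atTop (N + 1)] with n hn G
  obtain ⟨m, rfl⟩ : ∃ m, n = m + 1 := ⟨n - 1, by omega⟩
  simp only [hf, hg]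
  refine (prod_close (a0 · m) (b0 · m) (a1 · m) (b1 · m) (hN m (by omega)) G).trans ?_
  rw [mul_div_assoc', div_le_iff₀ (by positivity)]; nlinarith

lemma mp_le_one (hx : ∀ i, 0 < x i) (n : ℕ) (i : ℤ) (G : Finset (Lev d n)) :
    ∑ ξ ∈ G, mp d x n i ξ ≤ 1 := sum_le_one_of (mp_nn hx n i) (mp_zero n i) (mp_sum hx n i) G

lemma Chain.cl_mm (C : Chain d x pi ε) (hd : 0 < d) (i j : ℤ) :
    Cl (fun n => mm d x n i) (fun n => mm d x n j) :=
  Cl.prod (A := fun _ n => mp d x n i) (B := fun _ n => mp d x n j) (fun _ n => mp_nn C.pos n i)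
    (fun _ n => mp_nn C.pos n j) (fun _ n => mp_le_one C.pos n i) (fun _ n => mp_le_one C.pos n j)
    (fun _ => C.nonrec hd i j) (fun _ _ => rfl) (fun _ _ => rfl)

lemma Chain.cl_mm_mp (C : Chain d x pi ε) (hd : 0 < d) (i j : ℤ) :
    Cl (fun n => mm d x n j) (fun n => mp d x n i) := by
  have := Cl.pm (x := x) (f := fun _ n => mm d x n j) (g := fun k n => mm d x n k)
    (fun k => C.cl_mm hd j k) i
  simp only [Pm_const C.pos] at this
  exact this

noncomputable def mE (d : ℕ) (x : ℤ → ℝ) :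
    (n : ℕ) → (List (Fin d) → ℤ → ℝ) → ℤ → Lev d n → ℝ
  | 0, e, i, ξ => e [] i * if ξ = i then 1 else 0
  | n + 1, e, i, ξ => e [] i * ∏ a, Pm x (fun j => mE d x n (sub e a) j (ξ a)) i

lemma mE_one : ∀ (n : ℕ) (i : ℤ) (ξ : Lev d n), mE d x n 1 i ξ = mm d x n i ξ
  | 0, i, ξ => by simp [mE, mm]
  | n + 1, i, ξ => by
    have e2 : ∀ a : Fin d, sub (1 : List (Fin d) → ℤ → ℝ) a = 1 := fun a => rfl
    simp only [mE, mm, e2, mE_one n, Pi.one_apply, one_mul]

lemma Pm_mono (hx : ∀ i, 0 < x i) {v w : ℤ → ℝ} (h : ∀ i, v i ≤ w i) (i : ℤ) :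
    Pm x v i ≤ Pm x w i := by
  have := hx (i - 1); have := hx i; have := hx (i + 1); have := YY_pos hx i
  unfold Pm; gcongr <;> apply h

lemma mE_bd (hx : ∀ i, 0 < x i) : ∀ (n : ℕ) (e : List (Fin d) → ℤ → ℝ), (∀ v j, 0 ≤ e v j) →
    (∀ v j, e v j ≤ 1) → ∀ i ξ, 0 ≤ mE d x n e i ξ ∧ mE d x n e i ξ ≤ mm d x n i ξ
  | 0, e, e0, e1, i, ξ => by
    simp only [mE, mm]; split_ifs <;> simp [e0, e1]
  | n + 1, e, e0, e1, i, ξ => by
    have ih := fun a => mE_bd hx n (sub e a) (fun _ _ => e0 _ _) fun _ _ => e1 _ _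
    have h0 : ∀ a, 0 ≤ Pm x (fun j => mE d x n (sub e a) j (ξ a)) i :=
      fun a => Pm_nn hx (fun j => (ih a j _).1) i
    refine ⟨mul_nonneg (e0 _ _) (prod_nonneg fun a _ => h0 a), ?_⟩
    refine (mul_le_of_le_one_left (prod_nonneg fun a _ => h0 a) (e1 _ _)).trans ?_
    exact prod_le_prod (fun a _ => h0 a) fun a _ => Pm_mono hx (fun j => (ih a j _).2) i

lemma Chain.cl_mE (C : Chain d x pi ε) (hd : 0 < d) : ∀ (k : ℕ) (e : List (Fin d) → ℤ → ℝ),
    (∀ v j, 0 ≤ e v j) → (∀ v j, e v j ≤ 1) → (∀ v : List (Fin d), k ≤ v.length → e v = 1) →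
    ∃ p : ℤ → ℝ, ∀ i, 0 ≤ p i ∧ p i ≤ 1 ∧
      Cl (fun n => mE d x n e i) (fun n ξ => p i * mm d x n i ξ)
  | 0, e, _, _, e2 => by
    obtain rfl : e = 1 := funext fun v => e2 v (Nat.zero_le _)
    refine ⟨fun _ => 1, fun i => ⟨zero_le_one, le_rfl, ?_⟩⟩
    simp only [one_mul, ← mE_one]; exact Cl.refl _
  | k + 1, e, e0, e1, e2 => by
    choose p hp using fun a => C.cl_mE hd k (sub e a) (fun _ _ => e0 _ _) (fun _ _ => e1 _ _)
      fun v hv => e2 _ (by simpa using hv)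
    have c0 : ∀ a i, 0 ≤ Pm x (p a) i := fun a i => Pm_nn C.pos (fun j => (hp a j).1) i
    have c1 : ∀ a i, Pm x (p a) i ≤ 1 := fun a i =>
      (Pm_mono C.pos (fun j => (hp a j).2.1) i).trans (Pm_const C.pos 1 i).le
    refine ⟨fun i => e [] i * ∏ a, Pm x (p a) i, fun i => ⟨mul_nonneg (e0 _ _)
      (prod_nonneg fun a _ => c0 a i), mul_le_one₀ (e1 _ _) (prod_nonneg fun a _ => c0 a i)
        (prod_le_one (fun a _ => c0 a i) fun a _ => c1 a i), ?_⟩⟩
    have bd := fun a n => mE_bd C.pos n (sub e a) (fun _ _ => e0 _ _) fun _ _ => e1 _ _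
    have h1 : Cl (d := d)
        (fun n => match n with
          | 0 => fun _ => 0
          | n + 1 => fun ξ => ∏ a, Pm x (fun j => mE d x n (sub e a) j (ξ a)) i)
        (fun n => match n with
          | 0 => fun _ => 0
          | n + 1 => fun ξ => ∏ a, Pm x (p a) i * mp d x n i (ξ a)) := by
      refine Cl.prod (A := fun a n ξ => Pm x (fun j => mE d x n (sub e a) j ξ) i)
        (B := fun a n ξ => Pm x (p a) i * mp d x n i ξ)
        (fun a n ξ => Pm_nn C.pos (fun j => (bd a n j ξ).1) i)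
        (fun a n ξ => mul_nonneg (c0 a i) (mp_nn C.pos n i ξ))
        (fun a n G => (sum_le_sum fun ξ _ => Pm_mono C.pos (fun j => (bd a n j ξ).2) i).trans
          (mp_le_one C.pos n i G))
        (fun a n G => (sum_le_sum fun ξ _ =>
          mul_le_of_le_one_left (mp_nn C.pos n i ξ) (c1 a i)).trans (mp_le_one C.pos n i G))
        (fun a => ?_) (fun _ _ => rfl) (fun _ _ => rfl)
      have := Cl.pm (x := x) (f := fun j n => mE d x n (sub e a) j)
        (g := fun j n ξ => p a j * mp d x n i ξ)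
        (fun j => (hp a j).2.2.trans ((C.cl_mm_mp hd i j).smul (p a j))) i
      convert this using 3
      simp only [Pm]; ring
    intro η hη
    filter_upwards [h1.smul (e [] i) η hη, eventually_ge_atTop 1] with n hn h1n G
    obtain ⟨m, rfl⟩ : ∃ m, n = m + 1 := ⟨n - 1, by omega⟩
    refine le_trans (le_of_eq (sum_congr rfl fun ξ _ => ?_)) (hn G)
    simp only [mE, mm, mp, prod_mul_distrib, mul_assoc]

def lev : (n : ℕ) → (List (Fin d) → ℤ) → Lev d n
  | 0, f => f []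
  | n + 1, f => fun a => lev n (sub f a)

lemma lev_eq : ∀ (n : ℕ) (f g : List (Fin d) → ℤ), lev n f = lev n g →
    ∀ v : List (Fin d), v.length = n → f v = g v
  | 0, f, g, h, v, hv => by obtain rfl := List.length_eq_zero_iff.1 hv; exact h
  | n + 1, f, g, h, v, hv => by
    cases v with
    | nil => simp at hv
    | cons a w => exact lev_eq n _ _ (congrFun h a) w (by simpa using hv)

lemma lev_mem : ∀ (n : ℕ) (f : List (Fin d) → ℤ), LipB n f → lev n f ∈ supp d n (f [])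
  | 0, f, _ => mem_singleton_self (α := Lev d 0) _
  | n + 1, f, h => by
    refine Fintype.mem_piFinset.2 fun a => ?_
    obtain ⟨h1, h2⟩ := lipB_succ.1 h a
    have := lev_mem n _ h2
    rw [show sub f a [] = f [a] from rfl] at this
    rw [abs_le] at h1
    simp only [mem_union]
    rcases (show f [a] = f [] - 1 ∨ f [a] = f [] ∨ f [a] = f [] + 1 by omega) with h | h | h <;>
      rw [h] at this
    exacts [Or.inl (Or.inl this), Or.inl (Or.inr this), Or.inr this]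

lemma fiber (hx : ∀ i, 0 < x i) {g : ℝ} (hg : ∀ i, YY x i ^ d = g * x i) :
    ∀ (n : ℕ) (e : List (Fin d) → ℤ → ℝ) (i : ℤ) (ξ : Lev d n),
    ∑ ζ ∈ conf d n i, wt n e x ζ * (if lev n ζ = ξ then 1 else 0) = kap d g n * x i * mE d x n e i ξ
  | 0, e, i, ξ => by
    simp only [conf, sum_singleton, wt, graft, kap, mE, lev]
    by_cases h : ξ = i
    · rw [if_pos h, if_pos h.symm]; ring
    · rw [if_neg h, if_neg fun hh => h hh.symm]; ring
  | n + 1, e, i, ξ => by
    have e1 : ∀ ζ ∈ conf d (n + 1) i, wt (n + 1) e x ζ * (if lev (n + 1) ζ = ξ then 1 else 0) =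
        e [] i * ∏ a, wt n (sub e a) x (sub ζ a) * (if lev n (sub ζ a) = ξ a then 1 else 0) := by
      intro ζ hζ
      rw [wt, (mem_conf.1 hζ).1, prod_mul_distrib, mul_assoc]
      congr 2
      split_ifs with h
      · exact (prod_eq_one fun a _ => if_pos (congrFun h a)).symm
      · obtain ⟨a, ha⟩ := Function.ne_iff.1 h
        exact (prod_eq_zero (mem_univ a) (if_neg ha)).symm
    rw [sum_congr rfl e1, ← mul_sum, sum_conf_succ n i
      (fun a ζ => wt n (sub e a) x ζ * (if lev n ζ = ξ a then 1 else 0))]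
    simp only [fiber hx hg n, mE, kap]
    have hY := YY_pos hx i
    have e2 : ∀ a, kap d g n * x (i - 1) * mE d x n (sub e a) (i - 1) (ξ a) +
        kap d g n * x i * mE d x n (sub e a) i (ξ a) +
        kap d g n * x (i + 1) * mE d x n (sub e a) (i + 1) (ξ a) =
        (kap d g n * YY x i) * Pm x (fun j => mE d x n (sub e a) j (ξ a)) i := by
      intro a; unfold Pm; field_simp
    simp only [e2, prod_mul_distrib, prod_const, card_univ, Fintype.card_fin, hg]
    ring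

lemma fiber_sum (hx : ∀ i, 0 < x i) {g : ℝ} (hg : ∀ i, YY x i ^ d = g * x i) (n : ℕ)
    (e : List (Fin d) → ℤ → ℝ) (i : ℤ) (H : Lev d n → ℝ) :
    ∑ ζ ∈ conf d n i, wt n e x ζ * H (lev n ζ) =
      kap d g n * x i * ∑ ξ ∈ supp d n i, mE d x n e i ξ * H ξ := by
  simp only [mul_sum, ← mul_assoc, ← fiber hx hg, sum_mul]
  rw [sum_comm]
  refine sum_congr rfl fun ζ hζ => ?_
  obtain ⟨h1, h2, -⟩ := mem_conf.1 hζ
  have := lev_mem n ζ h2
  rw [h1] at this
  simp [this]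

theorem dom_eq (C : Chain d x pi ε) (hd : 0 < d) {g X : ℝ} (hg : ∀ i, YY x i ^ d = g * x i)
    (hg0 : 0 < g) (hX : HasSum x X) {μ ν : Measure (List (Fin d) → ℤ)} (H : Mk x g X μ)
    (hν : IsGibbs ν) {K : ℝ} (hK : ∀ A, ν.real A ≤ K * μ.real A) {k : ℕ}
    {E : List (Fin d) → ℤ → Prop} (hE : ∀ (v : List (Fin d)) j, k ≤ v.length → E v j) {p : ℤ → ℝ}
    (hp : ∀ i, Cl (fun n => mE d x n (ind E) i) (fun n ξ => p i * mm d x n i ξ)) (i : ℤ) :
    ν.real (Ev k E i) = x i / X * p i := by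
  classical
  have := hν.1; have := H.prob
  have hX0 : 0 < X := (C.pos 0).trans_le (le_hasSum hX 0 fun j _ => (C.pos j).le)
  have hK0 : 0 ≤ K := by have := hK Set.univ; simp at this; linarith
  have hex : ∀ n, ∃ h : Lev d n → ℝ, (∀ ξ, 0 ≤ h ξ ∧ h ξ ≤ K) ∧ (1 ≤ n → ∀ ζ, LipB n ζ →
      ν.real (cyl (ball d n) ζ) = wt n 1 x ζ * h (lev n ζ) / (kap d g n * X)) := by
    intro n
    have hκ := kap_pos (d := d) hg0 n
    have hμ : ∀ ζ, LipB n ζ → 0 < μ.real (cyl (ball d n) ζ) := fun ζ hζ => by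
      rw [H.cy n ζ hζ]; have := wt_pos C.pos n ζ; positivity
    refine ⟨fun ξ => if h : ∃ ζ, LipB n ζ ∧ lev n ζ = ξ then
      ν.real (cyl (ball d n) h.choose) / μ.real (cyl (ball d n) h.choose) else 0, fun ξ => ?_,
      fun hn ζ hζ => ?_⟩
    · dsimp only
      split_ifs with h
      · exact ⟨by positivity, (div_le_iff₀ (hμ _ h.choose_spec.1)).2 (hK _)⟩
      · exact ⟨le_rfl, hK0⟩
    · have h : ∃ ζ', LipB n ζ' ∧ lev n ζ' = lev n ζ := ⟨ζ, hζ, rfl⟩
      obtain ⟨m, rfl⟩ : ∃ m, n = m + 1 := ⟨n - 1, by omega⟩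
      have a1 := lev_eq _ _ _ h.choose_spec.2
      dsimp only
      rw [dif_pos h, hν.unif m _ _ h.choose_spec.1 hζ a1, H.cy _ _ h.choose_spec.1,
        wt_congr x _ _ _ a1]
      have := wt_pos C.pos (m + 1) ζ
      field_simp
  choose h hb hc using hex
  have form : ∀ (E : List (Fin d) → ℤ → Prop) n i, 1 ≤ n → ν.real (Ev n E i) =
      x i / X * ∑ ξ ∈ supp d n i, mE d x n (ind E) i ξ * h n ξ := by
    intro E n i hn
    have hκ := kap_pos (d := d) hg0 n
    have : ν.real (Ev n E i) = (∑ ζ ∈ conf d n i, wt n (ind E) x ζ * h n (lev n ζ)) /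
        (kap d g n * X) := by
      rw [meas_Ev hν.2.1, sum_div]
      refine sum_congr rfl fun ζ hζ => ?_
      rw [wt_ind]
      split_ifs
      · exact hc n hn ζ (mem_conf.1 hζ).2.1
      · simp
    rw [this, fiber_sum C.pos hg]; field_simp
  have lim : ∀ {f f' : (n : ℕ) → Lev d n → ℝ} {a b : ℝ}, Cl f f' →
      (∀ᶠ n in atTop, ∃ G : Finset (Lev d n), a = ∑ ξ ∈ G, f n ξ * h n ξ ∧
        b = ∑ ξ ∈ G, f' n ξ * h n ξ) → a = b := by
    intro f f' a b hcl hev
    refine eq_of_forall_dist_le fun η hη => ?_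
    obtain ⟨n, h1, G, rfl, rfl⟩ := ((hcl (η / (K + 1)) (by positivity)).and hev).exists
    rw [Real.dist_eq, ← sum_sub_distrib]
    refine (abs_sum_le_sum_abs _ _).trans ?_
    calc _ ≤ ∑ ξ ∈ G, |f n ξ - f' n ξ| * (K + 1) := sum_le_sum fun ξ _ => by
          rw [← sub_mul, abs_mul, abs_of_nonneg (hb n ξ).1]
          gcongr; linarith [(hb n ξ).2]
      _ ≤ η / (K + 1) * (K + 1) := by rw [← sum_mul]; gcongr; exact h1 G
      _ = η := by field_simp
  have root : ∀ n j, 1 ≤ n → ∀ G, supp d n j ⊆ G →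
      ν.real {f | f [] = j} * X / x j = ∑ ξ ∈ G, mm d x n j ξ * h n ξ := by
    intro n j hn G hG
    have a1 := form (fun _ _ => True) n j hn
    have a2 : Ev (d := d) n (fun _ _ => True) j = {f | f [] = j} := by ext; simp [Ev]
    have a3 : ind (d := d) (fun _ _ => True) = 1 := by ext; simp [ind]
    simp only [a2, a3, mE_one] at a1
    rw [a1, ← sum_subset hG fun ξ _ hξ => by rw [mm_zero n j ξ hξ, zero_mul]]
    have := C.pos j
    field_simp
  have req : ∀ j, ν.real {f | f [] = j} * X / x j = ν.real {f | f [] = i} * X / x i := by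
    intro j
    refine lim (C.cl_mm hd j i) ?_
    filter_upwards [eventually_ge_atTop 1] with n hn
    exact ⟨supp d n j ∪ supp d n i, root n j hn _ subset_union_left,
      root n i hn _ subset_union_right⟩
  have r1 : ν.real {f | f [] = i} * X / x i = 1 := by
    have a1 := hasSum_root (ν := ν) MeasurableSet.univ
    simp only [Set.univ_inter, probReal_univ] at a1
    have a2 := (hX.div_const X).mul_right (ν.real {f | f [] = i} * X / x i)
    rw [div_self hX0.ne', one_mul] at a2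
    refine a2.unique (a1.congr_fun fun j => ?_)
    rw [← req j]; have := C.pos j; field_simp
  have fin : ν.real (Ev k E i) * X / x i = p i := by
    refine lim (hp i) ?_
    filter_upwards [eventually_ge_atTop 1, eventually_ge_atTop k] with n hn hk
    refine ⟨supp d n i, ?_, ?_⟩
    · have : Ev k E i = Ev n E i := by
        ext f
        refine and_congr_right fun _ => ⟨fun hh v _ => ?_, fun hh v hv => hh v (by omega)⟩
        by_cases hv : v.length ≤ k
        · exact hh v hv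
        · exact hE v _ (by omega)
      rw [this, form E n i hn]; have := C.pos i; field_simp
    · simp only [mul_assoc]
      rw [← mul_sum, ← root n i hn _ subset_rfl, r1, mul_one]
  rw [← fin]; have := C.pos i; field_simp

lemma Mk.unif {g X : ℝ} {μ : Measure (List (Fin d) → ℤ)} (H : Mk x g X μ) : Unif μ := by
  intro n ζ ζ' h1 h2 h3
  rw [H.cy _ _ h1, H.cy _ _ h2, wt_congr x _ _ _ h3]

theorem dom_ext (C : Chain d x pi ε) (hd : 0 < d) {g X : ℝ} (hg : ∀ i, YY x i ^ d = g * x i)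
    (hg0 : 0 < g) (hX : HasSum x X) {μ ν : Measure (List (Fin d) → ℤ)} (H : Mk x g X μ)
    (hν : IsGibbs ν) {K : ℝ} (hK : ∀ A, ν.real A ≤ K * μ.real A) : ν = μ := by
  have := hν.1; have := H.prob
  refine ext_ball 0 fun m _ ζ => ?_
  set E : List (Fin d) → ℤ → Prop := fun v j => v.length ≤ m → j = ζ v with hE
  have hE' : ∀ (v : List (Fin d)) j, m + 1 ≤ v.length → E v j := fun v j hv hh => by omega
  obtain ⟨p, hp⟩ := C.cl_mE hd (m + 1) (ind E) (ind_nn E) (ind_le E)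
    fun v hv => funext fun j => if_pos (hE' v j hv)
  have e : cyl (ball d m) ζ = Ev (m + 1) E (ζ []) := by
    ext f
    simp only [cyl, Ev, hE, Set.mem_ofPred_eq, mem_ball]
    exact ⟨fun h => ⟨h [] (by simp), fun v _ hv => h v hv⟩, fun h v hv => h.2 v (by omega) hv⟩
  refine (measureReal_eq_measureReal_iff (measure_ne_top _ _) (measure_ne_top _ _)).1 ?_
  rw [e, dom_eq C hd hg hg0 hX H hν hK hE' (fun i => (hp i).2.2),
    dom_eq C hd hg hg0 hX H (gibbs_of hd H.lip H.unif) (K := 1) (fun A => (one_mul _).ge) hE'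
      (fun i => (hp i).2.2)]

theorem Mk.extremal (C : Chain d x pi ε) (hd : 0 < d) {g X : ℝ} (hg : ∀ i, YY x i ^ d = g * x i)
    (hg0 : 0 < g) (hX : HasSum x X) {μ : Measure (List (Fin d) → ℤ)} (H : Mk x g X μ) :
    IsExtremalGibbs μ := by
  have := H.prob
  refine ⟨gibbs_of hd H.lip H.unif, fun t ν₁ ν₂ t0 t1 h1 h2 hμ => ?_⟩
  have := h1.1; have := h2.1
  have t0' : (0 : ℝ) < t := t0
  have t1' : (t : ℝ) < 1 := t1
  have e : ∀ A, μ.real A = t * ν₁.real A + (1 - t) * ν₂.real A := by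
    intro A
    rw [hμ, measureReal_add_apply, measureReal_nnreal_smul_apply, measureReal_nnreal_smul_apply,
      NNReal.coe_sub t1.le, NNReal.coe_one]
  have a1 : ν₁ = μ := dom_ext C hd hg hg0 hX H h1 (K := 1 / t) fun A => by
    rw [e, one_div_mul_eq_div, le_div_iff₀ t0']
    have : 0 ≤ (1 - t) * ν₂.real A := mul_nonneg (by linarith) measureReal_nonneg
    linarith
  have a2 : ν₂ = μ := dom_ext C hd hg hg0 hX H h2 (K := 1 / (1 - t)) fun A => by
    rw [e, one_div_mul_eq_div, le_div_iff₀ (by linarith)]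
    have : 0 ≤ t * ν₁.real A := mul_nonneg (by linarith) measureReal_nonneg
    linarith
  rw [a1, a2]

theorem main {c : ℕ} (hc : c ≤ 1) (h2 : 2 ≤ d) (h7 : d ≤ 7) :
    ∃ μ, IsLocalLimit d (Set.Icc 0 c) μ ∧ IsExtremalGibbs μ := by
  obtain ⟨h, ε, F, hε, H⟩ := good_all hc h2 h7
  have C := chain_of hc F hε H
  have y0 := F.ypos hc 0
  have hg : ∀ i, YY (xz c h) i ^ d = yy c h 0 ^ d * xz c h i := by
    intro i
    rw [YY_xz hc F.inv.h0, xz, F.fix (idx c i), div_pow]; field_simp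
  have hs : Summable (xz c h) := summable_idx hc (g := h)
    (Summable.of_nonneg_of_le F.inv.nn F.inv.geo (summable_geometric_two.mul_left 2))
  obtain ⟨μ, hμ⟩ := exists_Mk C.pos hg hs.hasSum
  exact ⟨μ, hμ.limit hc h2 F hg (by positivity) hs.hasSum,
    hμ.extremal C (by omega) hg (by positivity) hs.hasSum⟩

end Pool.Agent.P.MP_23c5a6_pr
end
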